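import Pool.Agent.H48.FR.Targets

/-!
MP_6a7a6f_gt, module CP: compactness.
-/

namespace Pool.Agent.H48.FRCP

open Pool.Agent.H48.FR

/-- a positive continuous function on a closed subset of a compact space -/
lemma exists_K {Z : Type} [TopologicalSpace Z] [CompactSpace Z] {C : Set Z} (hC : IsClosed C)
    {g : Z → ℝ} (hg : Continuous g) (hpos : ∀ z ∈ C, 0 < g z) {D : ℝ} (hD : 0 ≤ D) :
    ∃ K : ℝ, 0 ≤ K ∧ ∀ z ∈ C, D ≤ K * g z := by
  rcases C.eq_empty_or_nonempty with h | h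
  · exact ⟨0, le_rfl, fun z hz => by rw [h] at hz; exact absurd hz (Set.notMem_empty z)⟩
  · obtain ⟨z₀, hz₀, hmin⟩ := hC.isCompact.exists_isMinOn h hg.continuousOn
    have h0 := hpos z₀ hz₀
    refine ⟨D / g z₀, div_nonneg hD h0.le, fun z hz => ?_⟩
    have h1 : g z₀ ≤ g z := hmin hz
    calc D = D / g z₀ * g z₀ := by field_simp
      _ ≤ D / g z₀ * g z := mul_le_mul_of_nonneg_left h1 (div_nonneg hD h0.le)

theorem cp : T_CP := by
  intro M S Q _ _ _ _ _ _ Δ ρ₀ hρ₀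
  have hD : ∀ x y : M, dist x y ≤ Metric.diam (Set.univ : Set M) := fun x y =>
    Metric.dist_le_diam_of_mem (Bornology.IsBounded.all _) (Set.mem_univ _) (Set.mem_univ _)
  set D := Metric.diam (Set.univ : Set M) with hDdef
  have hD0 : 0 ≤ D := Metric.diam_nonneg
  have hr := Δ.r_pos
  have cρ : Continuous fun X : S => dist Δ.p (Δ.π X) := continuous_const.dist Δ.hπ
  let E : Set S := {X | ρ₀ ≤ dist Δ.p (Δ.π X)}
  have hEc : IsClosed E := isClosed_le continuous_const cρ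
  have hE : CompactSpace E := isCompact_iff_compactSpace.1 hEc.isCompact
  have hne : ∀ X : E, Δ.π X.1 ≠ Δ.p := by
    intro X h
    have h1 : ρ₀ ≤ dist Δ.p (Δ.π X.1) := X.2
    rw [h, dist_self] at h1
    linarith
  have cρE : Continuous fun X : E => dist Δ.p (Δ.π X.1) := cρ.comp continuous_subtype_val
  have cσE : Continuous fun X : E => Δ.σ (dist Δ.p (Δ.π X.1)) := Δ.hσ.comp cρE
  have cπE : Continuous fun X : E => Δ.π X.1 := Δ.hπ.comp continuous_subtype_val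
  have cy : Continuous fun Z : E × Q => Δ.y Z.1.1 Z.2 := by
    refine Δ.hy.comp_continuous (f := fun Z : E × Q => (Z.1.1, Z.2)) (by fun_prop) ?_
    intro Z
    exact hne Z.1
  have cF : Continuous fun Z : E × ℝ × Q => Δ.F Z.1.1 Z.2.1 Z.2.2 := by
    refine Δ.hF.comp_continuous (f := fun Z : E × ℝ × Q => (Z.1.1, Z.2.1, Z.2.2))
      (by fun_prop) ?_
    intro Z
    exact hne Z.1
  -- the first condition
  obtain ⟨K₁, hK₁0, hK₁⟩ : ∃ K : ℝ, 0 ≤ K ∧ ∀ z ∈ {z : E × Q × Q |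
      IsMx (Δ.F z.1.1 (Δ.σ (dist Δ.p (Δ.π z.1.1)))) z.2.1 ∧
      Δ.r ≤ dist (Δ.π z.1.1) (Δ.y z.1.1 z.2.2)}, D ≤ K *
        (Δ.F z.1.1 (Δ.σ (dist Δ.p (Δ.π z.1.1))) z.2.1 -
          Δ.F z.1.1 (Δ.σ (dist Δ.p (Δ.π z.1.1))) z.2.2) := by
    have c1 : Continuous fun z : E × Q × Q => Δ.F z.1.1 (Δ.σ (dist Δ.p (Δ.π z.1.1))) z.2.1 :=
      cF.comp (g := fun Z : E × ℝ × Q => Δ.F Z.1.1 Z.2.1 Z.2.2)
        (continuous_fst.prodMk ((cσE.comp continuous_fst).prodMk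
          (continuous_fst.comp continuous_snd)))
    have c2 : Continuous fun z : E × Q × Q => Δ.F z.1.1 (Δ.σ (dist Δ.p (Δ.π z.1.1))) z.2.2 :=
      cF.comp (g := fun Z : E × ℝ × Q => Δ.F Z.1.1 Z.2.1 Z.2.2)
        (continuous_fst.prodMk ((cσE.comp continuous_fst).prodMk
          (continuous_snd.comp continuous_snd)))
    refine exists_K ?_ (c1.sub c2) ?_ hD0
    · rw [Set.ofPred_and]
      refine IsClosed.inter ?_ ?_
      · have : {z : E × Q × Q | IsMx (Δ.F z.1.1 (Δ.σ (dist Δ.p (Δ.π z.1.1)))) z.2.1} =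
            ⋂ a : Q, {z : E × Q × Q | Δ.F z.1.1 (Δ.σ (dist Δ.p (Δ.π z.1.1))) a ≤
              Δ.F z.1.1 (Δ.σ (dist Δ.p (Δ.π z.1.1))) z.2.1} := by
          ext z
          rw [Set.mem_iInter]
          rfl
        rw [show {z : E × Q × Q | IsMx (Δ.F z.1.1 (Δ.σ (dist Δ.p (Δ.π z.1.1)))) z.2.1} = _
          from this]
        refine isClosed_iInter fun a => isClosed_le ?_ c1
        exact cF.comp (g := fun Z : E × ℝ × Q => Δ.F Z.1.1 Z.2.1 Z.2.2)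
          (continuous_fst.prodMk ((cσE.comp continuous_fst).prodMk continuous_const))
      · refine isClosed_le continuous_const ?_
        exact (cπE.comp continuous_fst).dist
          (cy.comp (g := fun Z : E × Q => Δ.y Z.1.1 Z.2)
            (continuous_fst.prodMk (continuous_snd.comp continuous_snd)))
    · rintro ⟨X, q₀, q⟩ ⟨h1, h2⟩
      have h3 : Δ.F X.1 (Δ.σ (dist Δ.p (Δ.π X.1))) q ≤ Δ.F X.1 (Δ.σ (dist Δ.p (Δ.π X.1))) q₀ :=
        h1 q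
      rcases h3.lt_or_eq with h4 | h4
      · exact sub_pos.2 h4
      · exfalso
        have h5 : IsMx (Δ.F X.1 (Δ.σ (dist Δ.p (Δ.π X.1)))) q := fun a => by
          rw [h4]; exact h1 a
        exact absurd (Δ.near X.1 (hne X) q h5) (not_lt.2 h2)
  -- the second condition
  obtain ⟨K₂, hK₂0, hK₂⟩ : ∃ K : ℝ, 0 ≤ K ∧ ∀ z ∈ {z : E × Set.Icc (0 : ℝ) 1 × Q × Q |
      Δ.σ (dist Δ.p (Δ.π z.1.1)) ≤ z.2.1.1 ∧ IsMx (Δ.F z.1.1 z.2.1.1) z.2.2.1 ∧
      Δ.r ≤ dist (Δ.y z.1.1 z.2.2.2) (Δ.y z.1.1 z.2.2.1)}, D ≤ K *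
        (Δ.F z.1.1 z.2.1.1 z.2.2.1 - Δ.F z.1.1 z.2.1.1 z.2.2.2) := by
    have cs : Continuous fun z : E × Set.Icc (0 : ℝ) 1 × Q × Q => z.2.1.1 := by fun_prop
    have c1 : Continuous fun z : E × Set.Icc (0 : ℝ) 1 × Q × Q =>
        Δ.F z.1.1 z.2.1.1 z.2.2.1 :=
      cF.comp (g := fun Z : E × ℝ × Q => Δ.F Z.1.1 Z.2.1 Z.2.2)
        (continuous_fst.prodMk (cs.prodMk (by fun_prop)))
    have c2 : Continuous fun z : E × Set.Icc (0 : ℝ) 1 × Q × Q =>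
        Δ.F z.1.1 z.2.1.1 z.2.2.2 :=
      cF.comp (g := fun Z : E × ℝ × Q => Δ.F Z.1.1 Z.2.1 Z.2.2)
        (continuous_fst.prodMk (cs.prodMk (by fun_prop)))
    refine exists_K ?_ (c1.sub c2) ?_ hD0
    · rw [Set.ofPred_and, Set.ofPred_and]
      refine IsClosed.inter ?_ (IsClosed.inter ?_ ?_)
      · exact isClosed_le (cσE.comp continuous_fst) cs
      · have : {z : E × Set.Icc (0 : ℝ) 1 × Q × Q | IsMx (Δ.F z.1.1 z.2.1.1) z.2.2.1} =
            ⋂ a : Q, {z : E × Set.Icc (0 : ℝ) 1 × Q × Q | Δ.F z.1.1 z.2.1.1 a ≤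
              Δ.F z.1.1 z.2.1.1 z.2.2.1} := by
          ext z
          rw [Set.mem_iInter]
          rfl
        rw [show {z : E × Set.Icc (0 : ℝ) 1 × Q × Q | IsMx (Δ.F z.1.1 z.2.1.1) z.2.2.1} = _
          from this]
        refine isClosed_iInter fun a => isClosed_le ?_ c1
        exact cF.comp (g := fun Z : E × ℝ × Q => Δ.F Z.1.1 Z.2.1 Z.2.2)
          (continuous_fst.prodMk (cs.prodMk continuous_const))
      · refine isClosed_le continuous_const ?_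
        exact (cy.comp (g := fun Z : E × Q => Δ.y Z.1.1 Z.2)
            (continuous_fst.prodMk (by fun_prop))).dist
          (cy.comp (g := fun Z : E × Q => Δ.y Z.1.1 Z.2) (continuous_fst.prodMk (by fun_prop)))
    · rintro ⟨X, s, q₀, q⟩ ⟨h0, h1, h2⟩
      have h3 : Δ.F X.1 s.1 q ≤ Δ.F X.1 s.1 q₀ := h1 q
      rcases h3.lt_or_eq with h4 | h4
      · exact sub_pos.2 h4
      · exfalso
        have h5 : IsMx (Δ.F X.1 s.1) q := fun a => by
          rw [h4]; exact h1 a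
        exact absurd (Δ.pair X.1 (hne X) s.1 ⟨h0, s.2.2⟩ q q₀ h5 h1) (not_lt.2 h2)
  refine ⟨max K₁ K₂, le_max_of_le_left hK₁0, fun X hX => ⟨fun q₀ q hq₀ => ?_,
    fun s hs q₀ q hq₀ => ?_⟩⟩
  · have hnn : 0 ≤ Δ.F X (Δ.σ (dist Δ.p (Δ.π X))) q₀ - Δ.F X (Δ.σ (dist Δ.p (Δ.π X))) q :=
      sub_nonneg.2 (hq₀ q)
    by_cases h : Δ.r ≤ dist (Δ.π X) (Δ.y X q)
    · have h1 := hK₁ (⟨X, hX⟩, q₀, q) ⟨hq₀, h⟩
      have h2 := mul_le_mul_of_nonneg_right (le_max_left K₁ K₂) hnn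
      have h3 := hD (Δ.π X) (Δ.y X q)
      have h4 : D ≤ K₁ * (Δ.F X (Δ.σ (dist Δ.p (Δ.π X))) q₀ -
        Δ.F X (Δ.σ (dist Δ.p (Δ.π X))) q) := h1
      linarith
    · have h2 := mul_nonneg (le_max_of_le_left hK₁0 : 0 ≤ max K₁ K₂) hnn
      linarith [lt_of_not_ge h]
  · have hnn : 0 ≤ Δ.F X s q₀ - Δ.F X s q := sub_nonneg.2 (hq₀ q)
    by_cases h : Δ.r ≤ dist (Δ.y X q) (Δ.y X q₀)
    · have h1 := hK₂ (⟨X, hX⟩, ⟨s, (Δ.σ_mem _).1.trans hs.1, hs.2⟩, q₀, q) ⟨hs.1, hq₀, h⟩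
      have h2 := mul_le_mul_of_nonneg_right (le_max_right K₁ K₂) hnn
      have h3 := hD (Δ.y X q) (Δ.y X q₀)
      have h4 : D ≤ K₂ * (Δ.F X s q₀ - Δ.F X s q) := h1
      linarith
    · have h2 := mul_nonneg (le_max_of_le_left hK₁0 : 0 ≤ max K₁ K₂) hnn
      linarith [lt_of_not_ge h]

end Pool.Agent.H48.FRCP
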