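import Pool.Agent.H48.FR.Targets

/-!
MP_6a7a6f_gt: the diameter of the projective spaces.
-/

namespace Pool.Agent.H48.FR

noncomputable section

variable {𝕜 : Type} [NormedDivisionRing 𝕜] [StarRing 𝕜] [NormedAlgebra ℝ 𝕜] [PF 𝕜]

omit [StarRing 𝕜] [NormedAlgebra ℝ 𝕜] [PF 𝕜] in
lemma single_ne {n : ℕ} (i : Fin (n + 1)) : (Pi.single i 1 : Fin (n + 1) → 𝕜) ≠ 0 := by
  intro h
  have := congrFun h i
  rw [Pi.single_eq_same] at this
  exact one_ne_zero this

/-- the diameter of the projective space of dimension at least one is `π / 2` -/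
lemma diam_PP {n : ℕ} (hn : 1 ≤ n) : Metric.diam (Set.univ : Set (PP 𝕜 n)) = Real.pi / 2 := by
  refine le_antisymm (Metric.diam_le_of_forall_dist_le (by positivity)
    fun P _ Q _ => dist_le_pi_div_two P Q) ?_
  obtain ⟨m, rfl⟩ : ∃ m, n = m + 1 := ⟨n - 1, by omega⟩
  have h : dist (PP.mk (Pi.single 0 1 : Fin (m + 2) → 𝕜) (single_ne 0))
      (PP.mk (Pi.single 1 1 : Fin (m + 2) → 𝕜) (single_ne 1)) = Real.pi / 2 := by
    rw [dist_mk, pd_def]
    have h0 : hp (Pi.single 0 1 : Fin (m + 2) → 𝕜) (Pi.single 1 1) = 0 := by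
      unfold hp
      refine Finset.sum_eq_zero fun i _ => ?_
      by_cases hi : i = 0
      · rw [hi, Pi.single_eq_of_ne (show (0 : Fin (m + 2)) ≠ 1 by simp), star_zero, mul_zero]
      · rw [Pi.single_eq_of_ne hi, zero_mul]
    rw [h0, norm_zero, zero_div, Real.arccos_zero]
  rw [← h]
  exact Metric.dist_le_diam_of_mem (Bornology.IsBounded.all _) (Set.mem_univ _) (Set.mem_univ _)

end

end Pool.Agent.H48.FR
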