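import Pool.Agent.H48.FR.FG

/-!
MP_6a7a6f_gt: existence of selectors by a dimension count.
-/

namespace Pool.Agent.H48.FR

open Module

noncomputable section

/-! ### homogeneous trigonometric polynomials -/

/-- `f` is a homogeneous polynomial of degree `N` in `cos θ` and `sin θ` -/
def IsTp (N : ℕ) (f : ℝ → ℝ) : Prop := ∃ c : ℕ → ℝ, ∀ θ, f θ = tp N c θ

lemma IsTp.zero (N : ℕ) : IsTp N (fun _ => 0) :=
  ⟨fun _ => 0, fun θ => by unfold tp; simp⟩

lemma IsTp.one : IsTp 0 (fun _ => 1) :=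
  ⟨fun _ => 1, fun θ => by unfold tp; simp⟩

lemma IsTp.add {N : ℕ} {f g : ℝ → ℝ} (hf : IsTp N f) (hg : IsTp N g) :
    IsTp N (fun θ => f θ + g θ) := by
  obtain ⟨c, hc⟩ := hf
  obtain ⟨d, hd⟩ := hg
  refine ⟨fun k => c k + d k, fun θ => ?_⟩
  beta_reduce
  rw [hc, hd]
  unfold tp
  rw [← Finset.sum_add_distrib]
  exact Finset.sum_congr rfl fun k _ => by ring

lemma IsTp.const_mul {N : ℕ} {f : ℝ → ℝ} (a : ℝ) (hf : IsTp N f) :
    IsTp N (fun θ => a * f θ) := by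
  obtain ⟨c, hc⟩ := hf
  refine ⟨fun k => a * c k, fun θ => ?_⟩
  beta_reduce
  rw [hc]
  unfold tp
  rw [Finset.mul_sum]
  exact Finset.sum_congr rfl fun k _ => by ring

lemma IsTp.sum {ι : Type*} {N : ℕ} (s : Finset ι) {f : ι → ℝ → ℝ}
    (hf : ∀ i ∈ s, IsTp N (f i)) : IsTp N (fun θ => ∑ i ∈ s, f i θ) := by
  classical
  induction s using Finset.induction_on with
  | empty => simpa using IsTp.zero N
  | insert a s ha ih =>
    have h := (hf a (Finset.mem_insert_self a s)).add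
      (ih fun i hi => hf i (Finset.mem_insert_of_mem hi))
    simpa only [Finset.sum_insert ha] using h

lemma IsTp.mul_cos {N : ℕ} {f : ℝ → ℝ} (hf : IsTp N f) :
    IsTp (N + 1) (fun θ => f θ * Real.cos θ) := by
  obtain ⟨c, hc⟩ := hf
  refine ⟨fun k => if k ≤ N then c k else 0, fun θ => ?_⟩
  beta_reduce
  rw [hc]
  unfold tp
  rw [Finset.sum_range_succ _ (N + 1)]
  beta_reduce
  rw [if_neg (by omega), zero_mul, add_zero, Finset.sum_mul]
  refine Finset.sum_congr rfl fun k hk => ?_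
  rw [Finset.mem_range] at hk
  rw [if_pos (by omega), show N + 1 - k = (N - k) + 1 by omega, pow_succ]
  ring

lemma IsTp.mul_sin {N : ℕ} {f : ℝ → ℝ} (hf : IsTp N f) :
    IsTp (N + 1) (fun θ => f θ * Real.sin θ) := by
  obtain ⟨c, hc⟩ := hf
  refine ⟨fun k => if 1 ≤ k then c (k - 1) else 0, fun θ => ?_⟩
  beta_reduce
  rw [hc]
  unfold tp
  rw [Finset.sum_range_succ' _ (N + 1)]
  beta_reduce
  rw [if_neg (by omega), zero_mul, add_zero, Finset.sum_mul]
  refine Finset.sum_congr rfl fun k hk => ?_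
  rw [Finset.mem_range] at hk
  rw [if_pos (by omega), show k + 1 - 1 = k by omega, show N + 1 - (k + 1) = N - k by omega,
    pow_succ (Real.sin θ)]
  ring

lemma IsTp.mul_lin {N : ℕ} {f : ℝ → ℝ} (hf : IsTp N f) (a b : ℝ) :
    IsTp (N + 1) (fun θ => f θ * (Real.cos θ * a + Real.sin θ * b)) := by
  have h := (hf.mul_cos.const_mul a).add (hf.mul_sin.const_mul b)
  obtain ⟨c, hc⟩ := h
  exact ⟨c, fun θ => by rw [← hc]; ring⟩

lemma IsTp.mul_lin_pow {N : ℕ} {f : ℝ → ℝ} (hf : IsTp N f) (a b : ℝ) (e : ℕ) :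
    IsTp (N + e) (fun θ => f θ * (Real.cos θ * a + Real.sin θ * b) ^ e) := by
  induction e with
  | zero => simpa using hf
  | succ e ih =>
    obtain ⟨c, hc⟩ := ih.mul_lin a b
    exact ⟨c, fun θ => by rw [← add_assoc, ← hc]; beta_reduce; rw [pow_succ]; ring⟩

lemma IsTp.prod {ι : Type*} (s : Finset ι) (a b : ι → ℝ) (e : ι → ℕ) :
    IsTp (∑ k ∈ s, e k) (fun θ => ∏ k ∈ s, (Real.cos θ * a k + Real.sin θ * b k) ^ e k) := by
  classical
  induction s using Finset.induction_on with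
  | empty => simpa using IsTp.one
  | insert i s hi ih =>
    obtain ⟨c, hc⟩ := ih.mul_lin_pow (a i) (b i) (e i)
    refine ⟨c, fun θ => ?_⟩
    rw [Finset.sum_insert hi, add_comm, ← hc]
    beta_reduce
    rw [Finset.prod_insert hi, mul_comm]

/-! ### homogeneous polynomials on the scalars -/

variable (𝕜 : Type) [NormedDivisionRing 𝕜] [StarRing 𝕜] [NormedAlgebra ℝ 𝕜] [PF 𝕜]

/-- the coordinates of a scalar -/
def cof (w : 𝕜) : Fin (finrank ℝ 𝕜) → ℝ :=
  have := PF.fin (𝕜 := 𝕜)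
  (Module.finBasis ℝ 𝕜).equivFun w

/-- the exponents -/
abbrev Ex (N : ℕ) : Type :=
  ↥(Finset.finsuppAntidiag (Finset.univ : Finset (Fin (finrank ℝ 𝕜))) N)

variable {𝕜}

/-- a homogeneous polynomial of degree `N` -/
def pol {N : ℕ} (c : Ex 𝕜 N → ℝ) (w : 𝕜) : ℝ := ∑ s : Ex 𝕜 N, c s * ∏ k, cof 𝕜 w k ^ (s.1 k)

lemma cof_add (w z : 𝕜) (k) : cof 𝕜 (w + z) k = cof 𝕜 w k + cof 𝕜 z k := by
  unfold cof; simp

lemma cof_smul (r : ℝ) (w : 𝕜) (k) : cof 𝕜 (r • w) k = r * cof 𝕜 w k := by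
  unfold cof; simp

lemma cof_surj (x : Fin (finrank ℝ 𝕜) → ℝ) : ∃ w : 𝕜, cof 𝕜 w = x := by
  have := PF.fin (𝕜 := 𝕜)
  exact ⟨(Module.finBasis ℝ 𝕜).equivFun.symm x, by
    unfold cof; exact LinearEquiv.apply_symm_apply _ _⟩

/-- a coordinate of a product as a linear map -/
def cofL (x : 𝕜) (k : Fin (finrank ℝ 𝕜)) : 𝕜 →ₗ[ℝ] ℝ where
  toFun v := cof 𝕜 (x * v) k
  map_add' a b := by rw [mul_add, cof_add]
  map_smul' r a := by rw [mul_smul_comm, cof_smul]; rfl

lemma contDiff_cof (x : 𝕜) (k) : ContDiff ℝ 1 (fun v : 𝕜 => cof 𝕜 (x * v) k) := by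
  have := PF.fin (𝕜 := 𝕜)
  exact (LinearMap.toContinuousLinearMap (cofL x k)).contDiff

lemma continuous_cof (k) : Continuous (fun v : 𝕜 => cof 𝕜 v k) := by
  have h := (contDiff_cof (1 : 𝕜) k).continuous
  simpa using h

lemma card_Ex (N : ℕ) : Fintype.card (Ex 𝕜 N) = Nat.multichoose (finrank ℝ 𝕜) N := by
  rw [Fintype.card_coe, Finset.card_finsuppAntidiag_nat_eq_multichoose, Finset.card_univ,
    Fintype.card_fin]

lemma sum_Ex {N : ℕ} (s : Ex 𝕜 N) : ∑ k, s.1 k = N := by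
  have := s.2
  rw [Finset.mem_finsuppAntidiag] at this
  exact this.1

lemma pol_smul {N : ℕ} (c : Ex 𝕜 N → ℝ) (r : ℝ) (w : 𝕜) : pol c (r • w) = r ^ N * pol c w := by
  unfold pol
  rw [Finset.mul_sum]
  refine Finset.sum_congr rfl fun s _ => ?_
  simp only [cof_smul, mul_pow]
  rw [Finset.prod_mul_distrib, Finset.prod_pow_eq_pow_sum, sum_Ex]
  ring

lemma pol_inj {N : ℕ} (c : Ex 𝕜 N → ℝ) (h : ∀ w : 𝕜, pol c w = 0) : c = 0 := by
  classical
  set P : MvPolynomial (Fin (finrank ℝ 𝕜)) ℝ :=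
    ∑ s : Ex 𝕜 N, MvPolynomial.monomial s.1 (c s) with hP
  have hP0 : P = 0 := by
    refine MvPolynomial.funext fun x => ?_
    obtain ⟨w, rfl⟩ := cof_surj x
    rw [hP, map_sum, map_zero, ← h w]
    unfold pol
    refine Finset.sum_congr rfl fun s _ => ?_
    rw [MvPolynomial.eval_monomial, Finsupp.prod_fintype]
    intro i
    exact pow_zero _
  funext s
  have h1 : MvPolynomial.coeff s.1 P = c s := by
    rw [hP, MvPolynomial.coeff_sum, Finset.sum_eq_single s]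
    · rw [MvPolynomial.coeff_monomial, if_pos rfl]
    · intro t _ hts
      rw [MvPolynomial.coeff_monomial, if_neg]
      intro he
      exact hts (Subtype.ext he)
    · intro hs
      exact absurd (Finset.mem_univ s) hs
  rw [← h1, hP0, MvPolynomial.coeff_zero]
  rfl

/-- evaluation as a linear map -/
def evL (N : ℕ) (w : 𝕜) : (Ex 𝕜 N → ℝ) →ₗ[ℝ] ℝ where
  toFun c := pol c w
  map_add' a b := by
    unfold pol
    rw [← Finset.sum_add_distrib]
    exact Finset.sum_congr rfl fun s _ => by rw [Pi.add_apply]; ring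
  map_smul' r a := by
    unfold pol
    rw [RingHom.id_apply, smul_eq_mul, Finset.mul_sum]
    exact Finset.sum_congr rfl fun s _ => by rw [Pi.smul_apply, smul_eq_mul]; ring

/-- the coefficients are a linear function of finitely many values -/
lemma exists_left_inv (N : ℕ) : ∃ (T : Finset 𝕜) (Λ : (T → ℝ) →ₗ[ℝ] (Ex 𝕜 N → ℝ)),
    ∀ c : Ex 𝕜 N → ℝ, Λ (fun t => pol c t.1) = c := by
  classical
  let K : Finset 𝕜 → Submodule ℝ (Ex 𝕜 N → ℝ) := fun T => ⨅ w ∈ T, LinearMap.ker (evL N w)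
  obtain ⟨T, hT⟩ : ∃ T : Finset 𝕜, ∀ T', ¬ K T' < K T := by
    have hwf : WellFounded (fun T' T : Finset 𝕜 => K T' < K T) := InvImage.wf K wellFounded_lt
    obtain ⟨T, -, hT⟩ := hwf.has_min Set.univ ⟨∅, Set.mem_univ _⟩
    exact ⟨T, fun T' => hT T' (Set.mem_univ _)⟩
  have hK : ∀ w, K T ≤ LinearMap.ker (evL N w) := by
    intro w
    have h1 : K (insert w T) ≤ K T := by
      refine le_iInf₂ fun u hu => ?_
      exact iInf₂_le u (Finset.mem_insert_of_mem hu)
    have h2 : K (insert w T) = K T := by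
      by_contra hne
      exact hT _ (lt_of_le_of_ne h1 hne)
    rw [← h2]
    exact iInf₂_le w (Finset.mem_insert_self w T)
  let E : (Ex 𝕜 N → ℝ) →ₗ[ℝ] (T → ℝ) := LinearMap.pi fun t => evL N t.1
  have hE : LinearMap.ker E = ⊥ := by
    rw [eq_bot_iff]
    intro c hc
    rw [Submodule.mem_bot]
    refine pol_inj c fun w => ?_
    have h3 : c ∈ K T := by
      rw [Submodule.mem_iInf]
      intro u
      rw [Submodule.mem_iInf]
      intro hu
      have := congrFun (LinearMap.mem_ker.1 hc) ⟨u, hu⟩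
      exact this
    exact hK w h3
  obtain ⟨Λ, hΛ⟩ := E.exists_leftInverse_of_injective hE
  exact ⟨T, Λ, fun c => by
    have := congrArg (fun f => f c) hΛ
    exact this⟩

/-! ### the bad set -/

/-- the space of parameters -/
abbrev Par (𝕜 : Type) [NormedDivisionRing 𝕜] [NormedAlgebra ℝ 𝕜] (n' N : ℕ) : Type :=
  𝕜 × (Fin n' → 𝕜 × (Ex 𝕜 N → ℝ))

/-- the value which is forced -/
def frc {n' N : ℕ} (z : Par 𝕜 n' N) (x : 𝕜) : ℝ :=
  (‖x‖ ^ (N - 1)) * re (x * z.1) - ∑ i, pol (z.2 i).2 (x * (z.2 i).1)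

/-- the parametrization of the bad set -/
def bad {n' N : ℕ} (T : Finset 𝕜) (Λ : (T → ℝ) →ₗ[ℝ] (Ex 𝕜 N → ℝ)) (j : Fin (n' + 1))
    (z : Par 𝕜 n' N) : Fin (n' + 1) → Ex 𝕜 N → ℝ :=
  j.insertNth (Λ fun t => frc z t.1) (fun i => (z.2 i).2)

/-- the real part of a product as a linear map -/
def reL (x : 𝕜) : 𝕜 →ₗ[ℝ] ℝ where
  toFun v := re (x * v)
  map_add' a b := by rw [mul_add, re_add]
  map_smul' r a := by rw [mul_smul_comm, re_smul]; rfl

lemma contDiff_re (x : 𝕜) : ContDiff ℝ 1 (fun v : 𝕜 => re (x * v)) := by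
  have := PF.fin (𝕜 := 𝕜)
  exact (LinearMap.toContinuousLinearMap (reL x)).contDiff

lemma contDiff_frc {n' N : ℕ} (x : 𝕜) : ContDiff ℝ 1 (fun z : Par 𝕜 n' N => frc z x) := by
  have := PF.fin (𝕜 := 𝕜)
  unfold frc
  refine ContDiff.sub ?_ ?_
  · exact contDiff_const.mul ((contDiff_re x).comp contDiff_fst)
  · refine ContDiff.sum fun i _ => ?_
    unfold pol
    refine ContDiff.sum fun s _ => ?_
    have h1 : ContDiff ℝ 1 (fun z : Par 𝕜 n' N => z.2 i) :=
      (contDiff_apply ℝ (𝕜 × (Ex 𝕜 N → ℝ)) i).comp contDiff_snd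
    refine ContDiff.mul ?_ ?_
    · exact (contDiff_apply ℝ ℝ s).comp (contDiff_snd.comp h1)
    · refine contDiff_prod fun k _ => ContDiff.pow ?_ _
      exact (contDiff_cof x k).comp (contDiff_fst.comp h1)

lemma contDiff_bad {n' N : ℕ} (T : Finset 𝕜) (Λ : (T → ℝ) →ₗ[ℝ] (Ex 𝕜 N → ℝ))
    (j : Fin (n' + 1)) : ContDiff ℝ 1 (bad T Λ j : Par 𝕜 n' N → _) := by
  have := PF.fin (𝕜 := 𝕜)
  rw [contDiff_pi]
  intro i
  refine Fin.succAboveCases j ?_ (fun i' => ?_) i
  · have h : (fun z : Par 𝕜 n' N => bad T Λ j z j) = fun z => Λ fun t => frc z t.1 := by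
      funext z
      unfold bad
      rw [Fin.insertNth_apply_same]
    rw [h]
    refine (LinearMap.toContinuousLinearMap Λ).contDiff.comp ?_
    exact contDiff_pi.2 fun t => contDiff_frc t.1
  · have h : (fun z : Par 𝕜 n' N => bad T Λ j z (j.succAbove i')) = fun z => (z.2 i').2 := by
      funext z
      unfold bad
      rw [Fin.insertNth_apply_succAbove]
    rw [h]
    have h1 : ContDiff ℝ 1 (fun z : Par 𝕜 n' N => z.2 i') :=
      (contDiff_apply ℝ (𝕜 × (Ex 𝕜 N → ℝ)) i').comp contDiff_snd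
    exact contDiff_snd.comp h1

lemma finrank_Par (n' N : ℕ) : finrank ℝ (Par 𝕜 n' N) =
    finrank ℝ 𝕜 + n' * (finrank ℝ 𝕜 + Nat.multichoose (finrank ℝ 𝕜) N) := by
  have := PF.fin (𝕜 := 𝕜)
  rw [Module.finrank_prod, Module.finrank_pi_fintype]
  simp only [Module.finrank_prod, Module.finrank_fintype_fun_eq_card, card_Ex, Finset.sum_const,
    Finset.card_univ, Fintype.card_fin, smul_eq_mul]

/-- there are coefficients outside of the bad set -/
lemma exists_good {n' N : ℕ} (T : Finset 𝕜) (Λ : (T → ℝ) →ₗ[ℝ] (Ex 𝕜 N → ℝ))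
    (h : finrank ℝ 𝕜 * (n' + 1) < Nat.multichoose (finrank ℝ 𝕜) N) :
    ∃ c : Fin (n' + 1) → Ex 𝕜 N → ℝ, ∀ j, c ∉ Set.range (bad T Λ j : Par 𝕜 n' N → _) := by
  have := PF.fin (𝕜 := 𝕜)
  have hE : finrank ℝ (Fin (n' + 1) → Ex 𝕜 N → ℝ) =
      (n' + 1) * Nat.multichoose (finrank ℝ 𝕜) N := by
    rw [Module.finrank_pi_fintype]
    simp only [Module.finrank_fintype_fun_eq_card, card_Ex, Finset.sum_const, Finset.card_univ,
      Fintype.card_fin, smul_eq_mul]
  have hlt : finrank ℝ (Par 𝕜 n' N) < finrank ℝ (Fin (n' + 1) → Ex 𝕜 N → ℝ) := by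
    rw [hE, finrank_Par]
    nlinarith
  have hdim : dimH (⋃ j, Set.range (bad T Λ j : Par 𝕜 n' N → Fin (n' + 1) → Ex 𝕜 N → ℝ)) <
      finrank ℝ (Fin (n' + 1) → Ex 𝕜 N → ℝ) := by
    rw [dimH_iUnion]
    have h1 : ⨆ j, dimH (Set.range (bad T Λ j : Par 𝕜 n' N → Fin (n' + 1) → Ex 𝕜 N → ℝ)) ≤
        (finrank ℝ (Par 𝕜 n' N) : ENNReal) :=
      iSup_le fun j => (contDiff_bad T Λ j).dimH_range_le
    exact h1.trans_lt (Nat.cast_lt.2 hlt)
  obtain ⟨c, hc⟩ := (dense_compl_of_dimH_lt_finrank hdim).nonempty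
  refine ⟨c, fun j hj => hc ?_⟩
  exact Set.mem_iUnion.2 ⟨j, hj⟩

/-- Existence of selectors. -/
theorem exists_sel {n m : ℕ} (hn : 1 ≤ n)
    (h : finrank ℝ 𝕜 * n < Nat.multichoose (finrank ℝ 𝕜) (2 * m + 1)) :
    ∃ g : (Fin n → 𝕜) → ℝ, Sel 𝕜 n m g := by
  obtain ⟨n', rfl⟩ : ∃ n', n = n' + 1 := ⟨n - 1, by omega⟩
  obtain ⟨T, Λ, hΛ⟩ := exists_left_inv (𝕜 := 𝕜) (2 * m + 1)
  obtain ⟨c, hc⟩ := exists_good T Λ h
  refine ⟨fun w => ∑ j, pol (c j) (w j), ?_, ?_, ?_⟩
  · refine continuous_finsetSum _ fun j _ => ?_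
    have h1 : Continuous (pol (c j) : 𝕜 → ℝ) := by
      unfold pol
      exact continuous_finsetSum _ fun s _ => continuous_const.mul
        (continuous_finsetProd _ fun k _ => (continuous_cof k).pow _)
    exact h1.comp (continuous_apply j)
  · intro v q u
    refine IsTp.sum Finset.univ fun j _ => ?_
    unfold pol
    refine IsTp.sum Finset.univ fun s _ => ?_
    have h1 := (IsTp.prod Finset.univ (fun k => cof 𝕜 (q * v j) k) (fun k => cof 𝕜 (u * v j) k)
      (fun k => s.1 k)).const_mul (c j s)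
    rw [sum_Ex] at h1
    obtain ⟨e, he⟩ := h1
    refine ⟨e, fun θ => ?_⟩
    rw [← he]
    beta_reduce
    congr 1
    refine Finset.prod_congr rfl fun k _ => ?_
    congr 1
    rw [add_mul, mul_assoc, mul_assoc, cof_add, rs, rs, ← Algebra.smul_def, ← Algebra.smul_def,
      cof_smul, cof_smul]
  · intro v b hv
    by_contra hcon
    push Not at hcon
    obtain ⟨j, hj⟩ : ∃ j, v j ≠ 0 := by
      by_contra h0
      push Not at h0
      exact hv (funext h0)
    -- homogeneity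
    have hom : ∀ x : 𝕜, ∑ i, pol (c i) (x * v i) = ‖x‖ ^ (2 * m) * re (x * b) := by
      intro x
      by_cases hx : x = 0
      · subst hx
        have h0 : ∀ i, pol (c i) (0 * v i) = 0 := by
          intro i
          have := pol_smul (c i) 0 (0 : 𝕜)
          rw [zero_smul, zero_pow (by omega), zero_mul] at this
          rw [zero_mul]
          exact this
        rw [Finset.sum_eq_zero fun i _ => h0 i, zero_mul, re_zero, mul_zero]
      · have hx0 : ‖x‖ ≠ 0 := norm_ne_zero_iff.2 hx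
        have hq : ‖(‖x‖⁻¹ : ℝ) • x‖ = 1 := by
          rw [norm_smul, norm_inv, norm_norm, inv_mul_cancel₀ hx0]
        have h1 := hcon _ hq
        beta_reduce at h1
        have h2 : ∀ i, pol (c i) (x * v i) =
            ‖x‖ ^ (2 * m + 1) * pol (c i) ((‖x‖⁻¹ : ℝ) • x * v i) := by
          intro i
          rw [← pol_smul, smul_mul_assoc, smul_smul, mul_inv_cancel₀ hx0, one_smul]
        simp only [h2]
        rw [← Finset.mul_sum, h1, smul_mul_assoc, re_smul, pow_succ]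
        field_simp
    set b₁ : 𝕜 := rs (‖(v j)⁻¹‖ ^ (2 * m)) * ((v j)⁻¹ * b) with hb₁
    apply hc j
    refine ⟨(b₁, fun i => ((v j)⁻¹ * v (j.succAbove i), c (j.succAbove i))), ?_⟩
    have key : ∀ x : 𝕜, frc (n' := n') (N := 2 * m + 1)
        (b₁, fun i => ((v j)⁻¹ * v (j.succAbove i), c (j.succAbove i))) x = pol (c j) x := by
      intro x
      have h1 := hom (x * (v j)⁻¹)
      rw [Fin.sum_univ_succAbove _ j, inv_mul_cancel_right₀ hj] at h1
      unfold frc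
      have h2 : ‖x‖ ^ (2 * m + 1 - 1) * re (x * b₁) =
          ‖x * (v j)⁻¹‖ ^ (2 * m) * re (x * (v j)⁻¹ * b) := by
        rw [hb₁, ← mul_assoc x, ← rs_mul_comm, mul_assoc, re_rs_mul, norm_mul, mul_pow,
          Nat.add_sub_cancel, mul_assoc x]
        ring
      rw [h2, ← h1]
      simp only [mul_assoc]
      ring
    unfold bad
    have h3 : (fun t : T => frc (n' := n') (N := 2 * m + 1)
        (b₁, fun i => ((v j)⁻¹ * v (j.succAbove i), c (j.succAbove i))) t.1) =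
        fun t => pol (c j) t.1 := funext fun t => key t.1
    rw [h3, hΛ]
    exact Fin.insertNth_self_removeNth j c

end

end Pool.Agent.H48.FR
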