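import Pool.Agent.H48.FR.AB
import Pool.Agent.H48.FR.CP
import Pool.Agent.H48.FR.SEL
import Pool.Agent.H48.FR.Dia
import Pool.Agent.H33.FR.TH
import Pool.Agent.H33.FR.HO
import Pool.Agent.H89.FR.DS
import Pool.Agent.H69.FR.RZ
import Pool.Agent.H42.FR.SP
import Pool.Agent.H50.FR.PA

/-!
MP_6a7a6f_gt: assembly.
-/

namespace Pool.Agent.H48.FR

open Module

variable {𝕜 : Type} [NormedDivisionRing 𝕜] [StarRing 𝕜] [NormedAlgebra ℝ 𝕜] [PF 𝕜]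

/-- The Kuratowski map of the projective space is null-homotopic. -/
theorem nullhomotopic {n m : ℕ} (hn : 1 ≤ n) (hm : 1 ≤ m)
    (h : finrank ℝ 𝕜 * n < Nat.multichoose (finrank ℝ 𝕜) (2 * m + 1)) {ε : ℝ} (hε : 0 < ε)
    (hlt : rad m < ε) : (kurU (PP 𝕜 n) ε hε).Nullhomotopic := by
  obtain ⟨g, hg⟩ := exists_sel hn h
  exact fi_sel Pool.Agent.H42.FR.sp Pool.Agent.H89.FR.DS.ds Pool.Agent.H69.FR.rz
    Pool.Agent.H50.FR.pa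
    (Pool.Agent.H48.FRAB.ab Pool.Agent.H33.FR.pf_TH Pool.Agent.H33.FR.pf_HO
      Pool.Agent.H48.FRCP.cp) hg hm hε hlt

lemma rad_pos_lt {m : ℕ} (hm : 1 ≤ m) : 0 < rad m ∧ rad m < Real.pi / 6 :=
  ⟨(Pool.Agent.H50.FR.pa.1 m hm).2, (Pool.Agent.H50.FR.pa.1 m hm).1⟩

theorem fillRad_le_rad {n m d : ℕ} (hn : 1 ≤ n) (hm : 1 ≤ m) (hd : d ≠ 0)
    (h : finrank ℝ 𝕜 * n < Nat.multichoose (finrank ℝ 𝕜) (2 * m + 1)) :
    FillRad (PP 𝕜 n) d ≤ rad m :=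
  fillRad_le fun ε hlt =>
    bounds_of_nullhomotopic hd ((rad_pos_lt hm).1.trans hlt) (nullhomotopic hn hm h _ hlt)

lemma rad_one : rad 1 = Real.arccos (-(1 / 3)) / 4 := by
  unfold rad
  have h : Real.cos (Real.pi / (2 * ((1 : ℕ) : ℝ) + 1)) = 1 / 2 := by
    rw [show 2 * ((1 : ℕ) : ℝ) + 1 = 3 by norm_num, Real.cos_pi_div_three]
  rw [h]
  norm_num

end Pool.Agent.H48.FR
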