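import Pool.Agent.H48.FR.Targets

/-!
MP_6a7a6f_gt, module AB: the abstract contraction.
-/

namespace Pool.Agent.H48.FRAB

open Pool.Agent.H48.FR
open Filter Topology

noncomputable section

/-- cut-off functions of the time -/
def cl (i t : ℝ) : ℝ := min 1 (max 0 (5 * t - i))

lemma cl_nonneg (i t : ℝ) : 0 ≤ cl i t := le_min zero_le_one (le_max_left _ _)
lemma cl_le_one (i t : ℝ) : cl i t ≤ 1 := min_le_left _ _
lemma cl_zero {i t : ℝ} (h : 5 * t ≤ i) : cl i t = 0 := by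
  unfold cl; rw [max_eq_left (by linarith)]; exact min_eq_right zero_le_one
lemma cl_one {i t : ℝ} (h : i + 1 ≤ 5 * t) : cl i t = 1 := by
  unfold cl; exact min_eq_left (le_max_of_le_right (by linarith))
lemma continuous_cl (i : ℝ) : Continuous (cl i) := by unfold cl; fun_prop

variable {M S Q : Type} [MetricSpace M] [TopologicalSpace S] [TopologicalSpace Q]

/-- the distance from the base point -/
def rh (Δ : Dat M S Q) (X : S) : ℝ := dist Δ.p (Δ.π X)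

lemma continuous_rh (Δ : Dat M S Q) : Continuous (rh Δ) := continuous_const.dist Δ.hπ

/-- the cut-off near the base point -/
def ta (r ρ : ℝ) : ℝ := min 1 (max 0 (4 * ρ / r - 1))

lemma ta_nonneg (r ρ : ℝ) : 0 ≤ ta r ρ := le_min zero_le_one (le_max_left _ _)
lemma ta_le_one (r ρ : ℝ) : ta r ρ ≤ 1 := min_le_left _ _
lemma ta_zero {r ρ : ℝ} (hr : 0 < r) (h : ρ ≤ r / 4) : ta r ρ = 0 := by
  have : 4 * ρ / r ≤ 1 := by rw [div_le_one hr]; linarith
  unfold ta; rw [max_eq_left (by linarith)]; exact min_eq_right zero_le_one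
lemma ta_one {r ρ : ℝ} (hr : 0 < r) (h : r / 2 ≤ ρ) : ta r ρ = 1 := by
  have : 2 ≤ 4 * ρ / r := by rw [le_div_iff₀ hr]; linarith
  unfold ta; exact min_eq_left (le_max_of_le_right (by linarith))
lemma continuous_ta (r : ℝ) : Continuous (ta r) := by unfold ta; fun_prop

/-- the height of the point -/
def ha (D t : ℝ) : ℝ := D * cl 1 t
/-- the height of the base point -/
def hb (D r ρ t : ℝ) : ℝ := D * (1 - cl 0 t) + max (ρ - r) 0 * cl 0 t * (1 - cl 3 t)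
/-- the least height of the ring -/
def hw (D r ρ t : ℝ) : ℝ := D * (1 - ta r ρ * cl 0 t * (1 - cl 4 t))
/-- the parameter of the ring -/
def sp (Δ : Dat M S Q) (X : S) (t : ℝ) : ℝ :=
  Δ.σ (rh Δ X) + (1 - Δ.σ (rh Δ X)) * cl 2 t
/-- the maximum on the ring -/
def mx (Δ : Dat M S Q) (X : S) (s : ℝ) : ℝ := ⨆ q, Δ.F X s q

/-- the atoms -/
def atm (Δ : Dat M S Q) (X : S) : Option (Option Q) → M
  | none => Δ.π X
  | some none => Δ.p
  | some (some q) => Δ.y X q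

/-- the heights -/
def hgt (Δ : Dat M S Q) (D K : ℝ) (X : S) (t : ℝ) : Option (Option Q) → ℝ
  | none => ha D t
  | some none => hb D Δ.r (rh Δ X) t
  | some (some q) => max (hw D Δ.r (rh Δ X) t) (K * (mx Δ X (sp Δ X t) - Δ.F X (sp Δ X t) q))

/-- the family of functions -/
def TTh (Δ : Dat M S Q) (D K : ℝ) (X : S) (t : ℝ) : M → ℝ := th (atm Δ X) (hgt Δ D K X t)

lemma ha_nonneg {D : ℝ} (hD : 0 ≤ D) (t : ℝ) : 0 ≤ ha D t := mul_nonneg hD (cl_nonneg _ _)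

lemma hb_nonneg {D : ℝ} (hD : 0 ≤ D) (r ρ t : ℝ) : 0 ≤ hb D r ρ t := by
  unfold hb
  have h0 := cl_le_one 0 t
  have h1 := cl_le_one 3 t
  have h2 := cl_nonneg 0 t
  have h3 : 0 ≤ max (ρ - r) 0 := le_max_right _ _
  exact add_nonneg (mul_nonneg hD (by linarith)) (mul_nonneg (mul_nonneg h3 h2) (by linarith))

lemma hw_nonneg {D : ℝ} (hD : 0 ≤ D) (r ρ t : ℝ) : 0 ≤ hw D r ρ t := by
  unfold hw
  refine mul_nonneg hD ?_
  have h1 : ta r ρ * cl 0 t * (1 - cl 4 t) ≤ 1 := by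
    have h := mul_le_one₀ (ta_le_one r ρ) (cl_nonneg 0 t) (cl_le_one 0 t)
    exact mul_le_one₀ h (by linarith [cl_le_one 4 t]) (by linarith [cl_nonneg 4 t])
  linarith

lemma hgt_nonneg (Δ : Dat M S Q) {D : ℝ} (hD : 0 ≤ D) (K : ℝ) (X : S) (t : ℝ) (j) :
    0 ≤ hgt Δ D K X t j := by
  rcases j with _ | _ | q
  · exact ha_nonneg hD t
  · exact hb_nonneg hD _ _ _
  · exact le_max_of_le_left (hw_nonneg hD _ _ _)

lemma sp_mem (Δ : Dat M S Q) (X : S) (t : ℝ) :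
    sp Δ X t ∈ Set.Icc (Δ.σ (rh Δ X)) 1 := by
  unfold sp
  have h1 := Δ.σ_mem (rh Δ X)
  have h2 := cl_nonneg 2 t
  have h3 := cl_le_one 2 t
  constructor
  · have := mul_nonneg (sub_nonneg.2 h1.2) h2
    linarith
  · have := mul_le_mul_of_nonneg_left h3 (sub_nonneg.2 h1.2)
    linarith

lemma mx_eq {Δ : Dat M S Q} {X : S} {s : ℝ} {q₀ : Q} (h : IsMx (Δ.F X s) q₀) :
    mx Δ X s = Δ.F X s q₀ := by
  have : Nonempty Q := ⟨q₀⟩
  refine le_antisymm (ciSup_le h) ?_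
  exact le_ciSup (f := Δ.F X s) ⟨_, by rintro _ ⟨q, rfl⟩; exact h q⟩ q₀

lemma isOpen_nep (Δ : Dat M S Q) : IsOpen {X : S | Δ.π X ≠ Δ.p} :=
  (isOpen_ne (x := Δ.p)).preimage Δ.hπ

lemma continuousAt_F (Δ : Dat M S Q) {X : S} (hX : Δ.π X ≠ Δ.p) (s : ℝ) (q : Q) :
    ContinuousAt (fun Z : S × ℝ × Q => Δ.F Z.1 Z.2.1 Z.2.2) (X, s, q) := by
  refine Δ.hF.continuousAt (IsOpen.mem_nhds ?_ hX)
  exact (isOpen_nep Δ).preimage continuous_fst

lemma continuousAt_y (Δ : Dat M S Q) {X : S} (hX : Δ.π X ≠ Δ.p) (q : Q) :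
    ContinuousAt (fun Z : S × Q => Δ.y Z.1 Z.2) (X, q) := by
  refine Δ.hy.continuousAt (IsOpen.mem_nhds ?_ hX)
  exact (isOpen_nep Δ).preimage continuous_fst

lemma exists_mx [CompactSpace Q] [Nonempty Q] (Δ : Dat M S Q) {X : S} (hX : Δ.π X ≠ Δ.p)
    (s : ℝ) : ∃ q₀, IsMx (Δ.F X s) q₀ := by
  have hc : Continuous (Δ.F X s) := by
    rw [continuous_iff_continuousAt]
    intro q
    have h := continuousAt_F Δ hX s q
    exact h.comp (f := fun q : Q => (X, s, q)) (by fun_prop)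
  obtain ⟨q₀, -, h⟩ := isCompact_univ.exists_isMaxOn (Set.univ_nonempty) hc.continuousOn
  exact ⟨q₀, fun a => h (Set.mem_univ a)⟩

lemma rh_pos_iff (Δ : Dat M S Q) (X : S) : 0 < rh Δ X ↔ Δ.π X ≠ Δ.p := by
  unfold rh
  rw [dist_pos]
  exact ne_comm

lemma ne_of_rh {Δ : Dat M S Q} {X : S} (h : Δ.r / 4 ≤ rh Δ X) : Δ.π X ≠ Δ.p := by
  rw [← rh_pos_iff]
  linarith [Δ.r_pos]

/-- the quantitative conditions -/
def QC (Δ : Dat M S Q) (K : ℝ) : Prop :=
  ∀ X, Δ.r / 4 ≤ dist Δ.p (Δ.π X) →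
      (∀ q₀ q, IsMx (Δ.F X (Δ.σ (dist Δ.p (Δ.π X)))) q₀ →
        dist (Δ.π X) (Δ.y X q) ≤ Δ.r + K * (Δ.F X (Δ.σ (dist Δ.p (Δ.π X))) q₀ -
          Δ.F X (Δ.σ (dist Δ.p (Δ.π X))) q)) ∧
      (∀ s ∈ Set.Icc (Δ.σ (dist Δ.p (Δ.π X))) 1, ∀ q₀ q, IsMx (Δ.F X s) q₀ →
        dist (Δ.y X q) (Δ.y X q₀) ≤ Δ.r + K * (Δ.F X s q₀ - Δ.F X s q))

/-- the ring lies in the ball of radius `r` around the base point, up to its height -/
lemma ring_p (Δ : Dat M S Q) {D : ℝ} (hD : ∀ x y : M, dist x y ≤ D) (K : ℝ) (X : S) (t : ℝ)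
    (q : Q) : dist (Δ.y X q) Δ.p ≤ hgt Δ D K X t (some (some q)) + Δ.r := by
  have hr := Δ.r_pos
  have hD0 : 0 ≤ D := dist_nonneg.trans (hD Δ.p Δ.p)
  by_cases h : Δ.π X = Δ.p
  · have h1 : rh Δ X = 0 := by unfold rh; rw [h, dist_self]
    have h2 : hw D Δ.r (rh Δ X) t = D := by
      unfold hw; rw [ta_zero hr (by rw [h1]; linarith)]; ring
    have h3 : D ≤ hgt Δ D K X t (some (some q)) := by
      refine le_max_of_le_left ?_
      rw [h2]
    linarith [hD (Δ.y X q) Δ.p]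
  · rw [dist_comm]
    have := Δ.dist_p X q h
    linarith [hgt_nonneg Δ hD0 K X t (some (some q))]

/-- the distance to the Kuratowski image -/
lemma mem_aux (hTH : T_TH) [CompactSpace Q] [Nonempty Q] (Δ : Dat M S Q) {D : ℝ}
    (hD : ∀ x y : M, dist x y ≤ D) {K : ℝ} (hK : QC Δ K) (X : S) (t : ℝ) : ∃ m, ∀ z, |TTh Δ D K X t z - dist m z| ≤ Δ.r / 2 := by
  have hr := Δ.r_pos
  have hD0 : 0 ≤ D := dist_nonneg.trans (hD Δ.p Δ.p)
  have hρD : rh Δ X ≤ D := hD _ _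
  -- the case of the base point
  have V2 : hb D Δ.r (rh Δ X) t = 0 → (rh Δ X ≤ Δ.r ∨ ha D t = D) →
      ∃ m, ∀ z, |TTh Δ D K X t z - dist m z| ≤ Δ.r / 2 := by
    intro hb0 hcase
    refine ⟨_, hTH.2.1 M (Option (Option Q)) D Δ.r (atm Δ X) (hgt Δ D K X t) (some none) hD hr.le
      (hgt_nonneg Δ hD0 K X t) hb0 ?_⟩
    intro j
    rcases j with _ | _ | q
    · change dist (Δ.π X) Δ.p ≤ ha D t + Δ.r
      rw [dist_comm]
      rcases hcase with h | h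
      · have h' : dist Δ.p (Δ.π X) ≤ Δ.r := h
        linarith [ha_nonneg hD0 t]
      · rw [h]
        have h' : dist Δ.p (Δ.π X) ≤ D := hρD
        linarith
    · change dist Δ.p Δ.p ≤ hb D Δ.r (rh Δ X) t + Δ.r
      rw [dist_self]
      linarith [hb_nonneg hD0 Δ.r (rh Δ X) t]
    · exact ring_p Δ hD K X t q
  by_cases c1 : 5 * t ≤ 1
  · -- the case of the point itself
    refine ⟨_, hTH.2.1 M (Option (Option Q)) D Δ.r (atm Δ X) (hgt Δ D K X t) none hD hr.le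
      (hgt_nonneg Δ hD0 K X t) ?_ ?_⟩
    · change ha D t = 0
      unfold ha; rw [cl_zero c1, mul_zero]
    intro j
    rcases j with _ | _ | q
    · change dist (Δ.π X) (Δ.π X) ≤ ha D t + Δ.r
      rw [dist_self]
      linarith [ha_nonneg hD0 t]
    · change rh Δ X ≤ hb D Δ.r (rh Δ X) t + Δ.r
      unfold hb
      rw [cl_zero (i := 3) (by linarith), sub_zero, mul_one]
      have e1 := cl_nonneg 0 t
      have e2 := cl_le_one 0 t
      have e3 : rh Δ X - Δ.r ≤ max (rh Δ X - Δ.r) 0 := le_max_left _ _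
      have e4 := mul_le_mul_of_nonneg_right e3 e1
      have e5 : (rh Δ X - Δ.r) * (1 - cl 0 t) ≤ D * (1 - cl 0 t) :=
        mul_le_mul_of_nonneg_right (by linarith) (by linarith)
      nlinarith
    · change dist (Δ.y X q) (Δ.π X) ≤
        max (hw D Δ.r (rh Δ X) t) (K * (mx Δ X (sp Δ X t) - Δ.F X (sp Δ X t) q)) + Δ.r
      rw [dist_comm]
      by_cases c2 : Δ.r / 4 ≤ rh Δ X
      · have hs : sp Δ X t = Δ.σ (dist Δ.p (Δ.π X)) := by
          unfold sp; rw [cl_zero (i := 2) (by linarith), mul_zero, add_zero]; rfl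
        obtain ⟨q₀, hq₀⟩ := exists_mx Δ (ne_of_rh c2) (Δ.σ (dist Δ.p (Δ.π X)))
        have h3 := (hK X c2).1 q₀ q hq₀
        rw [hs, mx_eq hq₀]
        have h4 := le_max_right (hw D Δ.r (rh Δ X) t)
          (K * (Δ.F X (Δ.σ (dist Δ.p (Δ.π X))) q₀ - Δ.F X (Δ.σ (dist Δ.p (Δ.π X))) q))
        linarith
      · have h2 : hw D Δ.r (rh Δ X) t = D := by
          unfold hw; rw [ta_zero hr (le_of_not_ge c2)]; ring
        have h4 := le_max_left (hw D Δ.r (rh Δ X) t)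
          (K * (mx Δ X (sp Δ X t) - Δ.F X (sp Δ X t) q))
        have h5 := hD (Δ.π X) (Δ.y X q)
        linarith
  have e0 : cl 0 t = 1 := cl_one (by linarith)
  by_cases c2 : 4 ≤ 5 * t
  · refine V2 ?_ (Or.inr ?_)
    · unfold hb; rw [e0, cl_one (i := 3) (by linarith)]; ring
    · unfold ha; rw [cl_one (i := 1) (by linarith), mul_one]
  by_cases c3 : rh Δ X ≤ Δ.r
  · refine V2 ?_ (Or.inl c3)
    unfold hb; rw [e0, max_eq_right (by linarith)]; ring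
  -- the case of the ring
  have c4 : Δ.r / 4 ≤ rh Δ X := by linarith
  obtain ⟨q₀, hq₀⟩ := exists_mx Δ (ne_of_rh c4) (sp Δ X t)
  have hw0 : hw D Δ.r (rh Δ X) t = 0 := by
    unfold hw; rw [e0, ta_one hr (by linarith), cl_zero (i := 4) (by linarith)]; ring
  refine ⟨_, hTH.2.1 M (Option (Option Q)) D Δ.r (atm Δ X) (hgt Δ D K X t) (some (some q₀)) hD
    hr.le (hgt_nonneg Δ hD0 K X t) ?_ ?_⟩
  · change max (hw D Δ.r (rh Δ X) t) (K * (mx Δ X (sp Δ X t) - Δ.F X (sp Δ X t) q₀)) = 0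
    rw [hw0, mx_eq hq₀, sub_self, mul_zero, max_self]
  intro j
  rcases j with _ | _ | q
  · change dist (Δ.π X) (Δ.y X q₀) ≤ ha D t + Δ.r
    by_cases c5 : 5 * t ≤ 2
    · have hs : sp Δ X t = Δ.σ (dist Δ.p (Δ.π X)) := by
        unfold sp; rw [cl_zero (i := 2) (by linarith), mul_zero, add_zero]; rfl
      rw [hs] at hq₀
      have := Δ.near X (ne_of_rh c4) q₀ hq₀
      linarith [ha_nonneg hD0 t]
    · have : ha D t = D := by unfold ha; rw [cl_one (i := 1) (by linarith), mul_one]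
      rw [this]
      linarith [hD (Δ.π X) (Δ.y X q₀)]
  · change dist Δ.p (Δ.y X q₀) ≤ hb D Δ.r (rh Δ X) t + Δ.r
    have := Δ.dist_p X q₀ (ne_of_rh c4)
    linarith [hb_nonneg hD0 Δ.r (rh Δ X) t]
  · change dist (Δ.y X q) (Δ.y X q₀) ≤
      max (hw D Δ.r (rh Δ X) t) (K * (mx Δ X (sp Δ X t) - Δ.F X (sp Δ X t) q)) + Δ.r
    have h3 := (hK X c4).2 (sp Δ X t) (sp_mem Δ X t) q₀ q hq₀
    rw [mx_eq hq₀]
    have h4 := le_max_right (hw D Δ.r (rh Δ X) t)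
      (K * (Δ.F X (sp Δ X t) q₀ - Δ.F X (sp Δ X t) q))
    linarith

/-- invariance -/
lemma inv_aux (hTH : T_TH) (Δ : Dat M S Q) (D K : ℝ) {X X' : S} (h : Δ.π X = Δ.π X') :
    TTh Δ D K X = TTh Δ D K X' := by
  funext t
  have hρ : rh Δ X = rh Δ X' := by unfold rh; rw [h]
  have hs : sp Δ X t = sp Δ X' t := by unfold sp; rw [hρ]
  have hm : ∀ s, mx Δ X s = mx Δ X' s := by
    intro s
    have : Set.range (Δ.F X s) = Set.range (Δ.F X' s) := by
      ext v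
      constructor
      · rintro ⟨q, rfl⟩
        obtain ⟨q', -, h2⟩ := Δ.inv X X' h q
        exact ⟨q', (h2 s).symm⟩
      · rintro ⟨q, rfl⟩
        obtain ⟨q', -, h2⟩ := Δ.inv X' X h.symm q
        exact ⟨q', (h2 s).symm⟩
    unfold mx iSup
    rw [this]
  have key : ∀ Y Y' : S, Δ.π Y = Δ.π Y' → rh Δ Y = rh Δ Y' → sp Δ Y t = sp Δ Y' t →
      (∀ s, mx Δ Y s = mx Δ Y' s) →
      ∀ j, ∃ j', atm Δ Y j = atm Δ Y' j' ∧ hgt Δ D K Y t j = hgt Δ D K Y' t j' := by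
    intro Y Y' e1 e2 e3 e4 j
    rcases j with _ | _ | q
    · exact ⟨none, e1, rfl⟩
    · refine ⟨some none, rfl, ?_⟩
      change hb D Δ.r (rh Δ Y) t = hb D Δ.r (rh Δ Y') t
      rw [e2]
    · obtain ⟨q', h1, h2⟩ := Δ.inv Y Y' e1 q
      refine ⟨some (some q'), h1, ?_⟩
      change max (hw D Δ.r (rh Δ Y) t) (K * (mx Δ Y (sp Δ Y t) - Δ.F Y (sp Δ Y t) q)) =
        max (hw D Δ.r (rh Δ Y') t) (K * (mx Δ Y' (sp Δ Y' t) - Δ.F Y' (sp Δ Y' t) q'))
      rw [e2, e3, e4, h2]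
  exact hTH.2.2 _ _ _ _ _ _ _ (key X X' h hρ hs hm)
    (key X' X h.symm hρ.symm hs.symm fun s => (hm s).symm)

/-- the value at the beginning -/
lemma start_aux (hTH : T_TH) (Δ : Dat M S Q) {D : ℝ} (hD : ∀ x y : M, dist x y ≤ D) (K : ℝ)
    (X : S) (z : M) : TTh Δ D K X 0 z = dist (Δ.π X) z := by
  have hD0 : 0 ≤ D := dist_nonneg.trans (hD Δ.p Δ.p)
  have h := hTH.2.1 M (Option (Option Q)) D 0 (atm Δ X) (hgt Δ D K X 0) none hD le_rfl
    (hgt_nonneg Δ hD0 K X 0) (by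
      change ha D 0 = 0
      unfold ha; rw [cl_zero (by norm_num), mul_zero]) (by
      intro j
      rcases j with _ | _ | q
      · change dist (Δ.π X) (Δ.π X) ≤ ha D 0 + 0
        rw [dist_self]
        linarith [ha_nonneg hD0 0]
      · change dist Δ.p (Δ.π X) ≤ hb D Δ.r (rh Δ X) 0 + 0
        unfold hb
        rw [cl_zero (i := 0) (by norm_num)]
        have := hD Δ.p (Δ.π X)
        linarith
      · change dist (Δ.y X q) (Δ.π X) ≤
          max (hw D Δ.r (rh Δ X) 0) (K * (mx Δ X (sp Δ X 0) - Δ.F X (sp Δ X 0) q)) + 0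
        have h1 : hw D Δ.r (rh Δ X) 0 = D := by
          unfold hw; rw [cl_zero (i := 0) (by norm_num)]; ring
        rw [h1, add_zero]
        exact le_max_of_le_left (hD _ _)) z
  rw [zero_div] at h
  exact sub_eq_zero.1 (abs_eq_zero.1 (le_antisymm h (abs_nonneg _)))

/-- the value at the end -/
lemma end_aux (hTH : T_TH) (Δ : Dat M S Q) {D : ℝ} (hD : ∀ x y : M, dist x y ≤ D) (K : ℝ)
    (X : S) (z : M) : TTh Δ D K X 1 z = dist Δ.p z := by
  have hD0 : 0 ≤ D := dist_nonneg.trans (hD Δ.p Δ.p)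
  have h := hTH.2.1 M (Option (Option Q)) D 0 (atm Δ X) (hgt Δ D K X 1) (some none) hD le_rfl
    (hgt_nonneg Δ hD0 K X 1) (by
      change hb D Δ.r (rh Δ X) 1 = 0
      unfold hb; rw [cl_one (i := 0) (by norm_num), cl_one (i := 3) (by norm_num)]; ring) (by
      intro j
      rcases j with _ | _ | q
      · change dist (Δ.π X) Δ.p ≤ ha D 1 + 0
        unfold ha
        rw [cl_one (i := 1) (by norm_num)]
        have := hD (Δ.π X) Δ.p
        linarith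
      · change dist Δ.p Δ.p ≤ hb D Δ.r (rh Δ X) 1 + 0
        rw [dist_self]
        linarith [hb_nonneg hD0 Δ.r (rh Δ X) 1]
      · change dist (Δ.y X q) Δ.p ≤
          max (hw D Δ.r (rh Δ X) 1) (K * (mx Δ X (sp Δ X 1) - Δ.F X (sp Δ X 1) q)) + 0
        have h1 : hw D Δ.r (rh Δ X) 1 = D := by
          unfold hw; rw [cl_one (i := 0) (by norm_num), cl_one (i := 4) (by norm_num)]; ring
        rw [h1, add_zero]
        exact le_max_of_le_left (hD _ _)) z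
  rw [zero_div] at h
  exact sub_eq_zero.1 (abs_eq_zero.1 (le_antisymm h (abs_nonneg _)))

/-- uniform closeness on the ring -/
lemma unif (Δ : Dat M S Q) [CompactSpace Q] {X : S} (hX : Δ.π X ≠ Δ.p) (t : ℝ) {η : ℝ}
    (hη : 0 < η) : ∀ᶠ Z : S × ℝ in 𝓝 (X, t), ∀ q : Q, dist (Δ.y Z.1 q) (Δ.y X q) ≤ η ∧
      |Δ.F Z.1 (sp Δ Z.1 Z.2) q - Δ.F X (sp Δ X t) q| ≤ η := by
  have hs : Continuous fun Z : S × ℝ => sp Δ Z.1 Z.2 := by
    unfold sp
    have h1 : Continuous fun Z : S × ℝ => Δ.σ (rh Δ Z.1) :=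
      Δ.hσ.comp ((continuous_rh Δ).comp continuous_fst)
    have h2 : Continuous fun Z : S × ℝ => cl 2 Z.2 := (continuous_cl 2).comp continuous_snd
    fun_prop
  have key := isCompact_univ.eventually_forall_of_forall_eventually (x₀ := (X, t))
    (K := (Set.univ : Set Q)) (P := fun (Z : S × ℝ) (q : Q) => dist (Δ.y Z.1 q) (Δ.y X q) ≤ η ∧
      |Δ.F Z.1 (sp Δ Z.1 Z.2) q - Δ.F X (sp Δ X t) q| ≤ η) ?_
  · exact key.mono fun Z hZ q => hZ q (Set.mem_univ q)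
  intro q _
  refine Filter.Eventually.and ?_ ?_
  · have h1 : ContinuousAt (fun z : (S × ℝ) × Q => Δ.y z.1.1 z.2) ((X, t), q) :=
      ContinuousAt.comp (g := fun Z : S × Q => Δ.y Z.1 Z.2)
        (f := fun z : (S × ℝ) × Q => (z.1.1, z.2)) (x := ((X, t), q))
        (continuousAt_y Δ hX q) (by fun_prop)
    have h2 : ContinuousAt (fun z : (S × ℝ) × Q => Δ.y X z.2) ((X, t), q) :=
      ContinuousAt.comp (g := fun Z : S × Q => Δ.y Z.1 Z.2)
        (f := fun z : (S × ℝ) × Q => (X, z.2)) (x := ((X, t), q))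
        (continuousAt_y Δ hX q) (by fun_prop)
    have h3 : ContinuousAt (fun z : (S × ℝ) × Q => dist (Δ.y z.1.1 z.2) (Δ.y X z.2))
        ((X, t), q) := h1.dist h2
    have h4 : (fun z : (S × ℝ) × Q => dist (Δ.y z.1.1 z.2) (Δ.y X z.2)) ((X, t), q) < η := by
      change dist (Δ.y X q) (Δ.y X q) < η
      rw [dist_self]; exact hη
    exact (h3.eventually_lt_const h4).mono fun z hz => hz.le
  · have h1 : ContinuousAt (fun z : (S × ℝ) × Q => Δ.F z.1.1 (sp Δ z.1.1 z.1.2) z.2)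
        ((X, t), q) :=
      ContinuousAt.comp (g := fun Z : S × ℝ × Q => Δ.F Z.1 Z.2.1 Z.2.2)
        (f := fun z : (S × ℝ) × Q => (z.1.1, sp Δ z.1.1 z.1.2, z.2)) (x := ((X, t), q))
        (continuousAt_F Δ hX (sp Δ X t) q) (by
          have := hs.comp (continuous_fst : Continuous fun z : (S × ℝ) × Q => z.1)
          have h5 : Continuous fun z : (S × ℝ) × Q => (z.1.1, sp Δ z.1.1 z.1.2, z.2) := by
            refine Continuous.prodMk (by fun_prop) (Continuous.prodMk this (by fun_prop))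
          exact h5.continuousAt)
    have h2 : ContinuousAt (fun z : (S × ℝ) × Q => Δ.F X (sp Δ X t) z.2) ((X, t), q) :=
      ContinuousAt.comp (g := fun Z : S × ℝ × Q => Δ.F Z.1 Z.2.1 Z.2.2)
        (f := fun z : (S × ℝ) × Q => (X, sp Δ X t, z.2)) (x := ((X, t), q))
        (continuousAt_F Δ hX (sp Δ X t) q) (by fun_prop)
    have h3 := (h1.sub h2).abs
    have h4 : (fun z : (S × ℝ) × Q =>
        |Δ.F z.1.1 (sp Δ z.1.1 z.1.2) z.2 - Δ.F X (sp Δ X t) z.2|) ((X, t), q) < η := by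
      change |Δ.F X (sp Δ X t) q - Δ.F X (sp Δ X t) q| < η
      rw [sub_self, abs_zero]; exact hη
    exact (h3.eventually_lt_const h4).mono fun z hz => hz.le

lemma exists_zero [CompactSpace Q] [Nonempty Q] (Δ : Dat M S Q) (D K : ℝ) (X : S)
    (t : ℝ) : ∃ j, hgt Δ D K X t j = 0 := by
  have hr := Δ.r_pos
  by_cases c1 : 5 * t ≤ 1
  · refine ⟨none, ?_⟩
    change ha D t = 0
    unfold ha; rw [cl_zero c1, mul_zero]
  have e0 : cl 0 t = 1 := cl_one (by linarith)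
  by_cases c2 : 4 ≤ 5 * t
  · refine ⟨some none, ?_⟩
    change hb D Δ.r (rh Δ X) t = 0
    unfold hb; rw [e0, cl_one (i := 3) (by linarith)]; ring
  by_cases c3 : rh Δ X ≤ Δ.r
  · refine ⟨some none, ?_⟩
    change hb D Δ.r (rh Δ X) t = 0
    unfold hb; rw [e0, max_eq_right (by linarith)]; ring
  have c4 : Δ.r / 4 ≤ rh Δ X := by linarith
  obtain ⟨q₀, hq₀⟩ := exists_mx Δ (ne_of_rh c4) (sp Δ X t)
  refine ⟨some (some q₀), ?_⟩
  change max (hw D Δ.r (rh Δ X) t) (K * (mx Δ X (sp Δ X t) - Δ.F X (sp Δ X t) q₀)) = 0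
  have hw0 : hw D Δ.r (rh Δ X) t = 0 := by
    unfold hw; rw [e0, ta_one hr (by linarith), cl_zero (i := 4) (by linarith)]; ring
  rw [hw0, mx_eq hq₀, sub_self, mul_zero, max_self]

lemma abs_max_sub_le (a b c d : ℝ) : |max a b - max c d| ≤ |a - c| + |b - d| := by
  have h := abs_max_sub_max_le_max a b c d
  exact h.trans (max_le_add_of_nonneg (abs_nonneg _) (abs_nonneg _))

/-- continuity -/
lemma cont_aux (hTH : T_TH) [CompactSpace Q] [Nonempty Q] (Δ : Dat M S Q) {D : ℝ}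
    (hD : ∀ x y : M, dist x y ≤ D) {K : ℝ} (hK0 : 0 ≤ K) (X : S) (t : ℝ) {δ : ℝ} (hδ : 0 < δ) :
    ∀ᶠ Z : S × ℝ in 𝓝 (X, t), ∀ z, |TTh Δ D K Z.1 Z.2 z - TTh Δ D K X t z| ≤ δ := by
  have hr := Δ.r_pos
  have hD0 : 0 ≤ D := dist_nonneg.trans (hD Δ.p Δ.p)
  have cρ : Continuous fun Z : S × ℝ => rh Δ Z.1 := (continuous_rh Δ).comp continuous_fst
  have ccl : ∀ i, Continuous fun Z : S × ℝ => cl i Z.2 :=
    fun i => (continuous_cl i).comp continuous_snd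
  have cta : Continuous fun Z : S × ℝ => ta Δ.r (rh Δ Z.1) := (continuous_ta _).comp cρ
  have ca : Continuous fun Z : S × ℝ => ha D Z.2 := by
    have := ccl 1
    unfold ha; fun_prop
  have cb : Continuous fun Z : S × ℝ => hb D Δ.r (rh Δ Z.1) Z.2 := by
    have h0 := ccl 0
    have h3 := ccl 3
    unfold hb; fun_prop
  have cw : Continuous fun Z : S × ℝ => hw D Δ.r (rh Δ Z.1) Z.2 := by
    have h0 := ccl 0
    have h4 := ccl 4
    unfold hw; fun_prop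
  have cπ : Continuous fun Z : S × ℝ => Δ.π Z.1 := Δ.hπ.comp continuous_fst
  have E1 : ∀ᶠ Z : S × ℝ in 𝓝 (X, t), dist (Δ.π Z.1) (Δ.π X) + |ha D Z.2 - ha D t| < δ := by
    have h : Continuous fun Z : S × ℝ => dist (Δ.π Z.1) (Δ.π X) + |ha D Z.2 - ha D t| := by
      fun_prop
    refine h.continuousAt.eventually_lt_const ?_
    change dist (Δ.π X) (Δ.π X) + |ha D t - ha D t| < δ
    rw [dist_self, sub_self, abs_zero, add_zero]
    exact hδ
  have E2 : ∀ᶠ Z : S × ℝ in 𝓝 (X, t),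
      |hb D Δ.r (rh Δ Z.1) Z.2 - hb D Δ.r (rh Δ X) t| < δ := by
    have h : Continuous fun Z : S × ℝ =>
        |hb D Δ.r (rh Δ Z.1) Z.2 - hb D Δ.r (rh Δ X) t| := by fun_prop
    refine h.continuousAt.eventually_lt_const ?_
    change |hb D Δ.r (rh Δ X) t - hb D Δ.r (rh Δ X) t| < δ
    rw [sub_self, abs_zero]
    exact hδ
  have main : ∀ Z : S × ℝ, dist (Δ.π Z.1) (Δ.π X) + |ha D Z.2 - ha D t| < δ →
      |hb D Δ.r (rh Δ Z.1) Z.2 - hb D Δ.r (rh Δ X) t| < δ →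
      (∀ q, dist (Δ.y Z.1 q) (Δ.y X q) +
          |hgt Δ D K Z.1 Z.2 (some (some q)) - hgt Δ D K X t (some (some q))| ≤ δ ∨
        (D ≤ hgt Δ D K Z.1 Z.2 (some (some q)) ∧ D ≤ hgt Δ D K X t (some (some q)))) →
      ∀ z, |TTh Δ D K Z.1 Z.2 z - TTh Δ D K X t z| ≤ δ := by
    intro Z h1 h2 h3
    obtain ⟨j₀, hj₀⟩ := exists_zero Δ D K Z.1 Z.2
    obtain ⟨j₁, hj₁⟩ := exists_zero Δ D K X t
    refine hTH.1 M (Option (Option Q)) D δ (atm Δ Z.1) (atm Δ X) (hgt Δ D K Z.1 Z.2)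
      (hgt Δ D K X t) j₀ j₁ hD hδ.le (hgt_nonneg Δ hD0 K _ _) (hgt_nonneg Δ hD0 K _ _) hj₀ hj₁ ?_
    intro j
    rcases j with _ | _ | q
    · exact Or.inl h1.le
    · refine Or.inl ?_
      change dist Δ.p Δ.p + |hb D Δ.r (rh Δ Z.1) Z.2 - hb D Δ.r (rh Δ X) t| ≤ δ
      rw [dist_self, zero_add]
      exact h2.le
    · exact h3 q
  by_cases c : rh Δ X < Δ.r / 4
  · have E3 : ∀ᶠ Z : S × ℝ in 𝓝 (X, t), rh Δ Z.1 < Δ.r / 4 :=
      cρ.continuousAt.eventually_lt_const c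
    filter_upwards [E1, E2, E3] with Z h1 h2 h3
    refine main Z h1 h2 fun q => Or.inr ⟨le_max_of_le_left ?_, le_max_of_le_left ?_⟩
    · unfold hw; rw [ta_zero hr h3.le]
      linarith
    · unfold hw; rw [ta_zero hr c.le]
      linarith
  · have hX : Δ.π X ≠ Δ.p := ne_of_rh (le_of_not_gt c)
    set η : ℝ := min (δ / 4) (δ / (4 * (K + 1))) with hη
    have hη0 : 0 < η := lt_min (by positivity) (by positivity)
    have E3 := unif Δ hX t hη0
    have E4 : ∀ᶠ Z : S × ℝ in 𝓝 (X, t),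
        |hw D Δ.r (rh Δ Z.1) Z.2 - hw D Δ.r (rh Δ X) t| < δ / 4 := by
      have h : Continuous fun Z : S × ℝ =>
          |hw D Δ.r (rh Δ Z.1) Z.2 - hw D Δ.r (rh Δ X) t| := by fun_prop
      refine h.continuousAt.eventually_lt_const ?_
      change |hw D Δ.r (rh Δ X) t - hw D Δ.r (rh Δ X) t| < δ / 4
      rw [sub_self, abs_zero]
      positivity
    have E5 : ∀ᶠ Z : S × ℝ in 𝓝 (X, t), Δ.π Z.1 ≠ Δ.p :=
      ((isOpen_nep Δ).preimage continuous_fst).mem_nhds hX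
    filter_upwards [E1, E2, E3, E4, E5] with Z h1 h2 h3 h4 h5
    refine main Z h1 h2 fun q => Or.inl ?_
    obtain ⟨q₁, hq₁⟩ := exists_mx Δ h5 (sp Δ Z.1 Z.2)
    obtain ⟨q₂, hq₂⟩ := exists_mx Δ hX (sp Δ X t)
    have hm : |mx Δ Z.1 (sp Δ Z.1 Z.2) - mx Δ X (sp Δ X t)| ≤ η := by
      rw [mx_eq hq₁, mx_eq hq₂, abs_le]
      have a1 := hq₁ q₂
      have a2 := hq₂ q₁
      have a3 := abs_le.1 (h3 q₁).2
      have a4 := abs_le.1 (h3 q₂).2
      constructor <;> linarith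
    change dist (Δ.y Z.1 q) (Δ.y X q) +
      |max (hw D Δ.r (rh Δ Z.1) Z.2)
          (K * (mx Δ Z.1 (sp Δ Z.1 Z.2) - Δ.F Z.1 (sp Δ Z.1 Z.2) q)) -
        max (hw D Δ.r (rh Δ X) t) (K * (mx Δ X (sp Δ X t) - Δ.F X (sp Δ X t) q))| ≤ δ
    have b1 := abs_max_sub_le (hw D Δ.r (rh Δ Z.1) Z.2)
      (K * (mx Δ Z.1 (sp Δ Z.1 Z.2) - Δ.F Z.1 (sp Δ Z.1 Z.2) q)) (hw D Δ.r (rh Δ X) t)
      (K * (mx Δ X (sp Δ X t) - Δ.F X (sp Δ X t) q))
    have b2 : |K * (mx Δ Z.1 (sp Δ Z.1 Z.2) - Δ.F Z.1 (sp Δ Z.1 Z.2) q) -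
        K * (mx Δ X (sp Δ X t) - Δ.F X (sp Δ X t) q)| ≤ K * (2 * η) := by
      rw [← mul_sub, abs_mul, abs_of_nonneg hK0]
      refine mul_le_mul_of_nonneg_left ?_ hK0
      have a3 := abs_le.1 (h3 q).2
      have a4 := abs_le.1 hm
      rw [abs_le]
      constructor <;> linarith
    have b3 : K * (2 * η) ≤ δ / 2 := by
      have a1 : η ≤ δ / (4 * (K + 1)) := min_le_right _ _
      have a2 : K * (2 * η) ≤ (K + 1) * (2 * (δ / (4 * (K + 1)))) := by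
        have : 0 ≤ δ / (4 * (K + 1)) := by positivity
        nlinarith
      have a3 : (K + 1) * (2 * (δ / (4 * (K + 1)))) = δ / 2 := by
        field_simp
        ring
      linarith
    have b4 : η ≤ δ / 4 := min_le_left _ _
    have b5 := (h3 q).1
    linarith

/-- AB. The abstract contraction. -/
theorem ab (hTH : T_TH) (hHO : T_HO) (hCP : T_CP) : T_AB := by
  intro M S Q _ _ _ _ _ _ _ Δ ε hε hlt
  have hr := Δ.r_pos
  have hD : ∀ x y : M, dist x y ≤ Metric.diam (Set.univ : Set M) := fun x y =>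
    Metric.dist_le_diam_of_mem (Bornology.IsBounded.all _) (Set.mem_univ _) (Set.mem_univ _)
  obtain ⟨K, hK0, hK⟩ := hCP M S Q Δ (Δ.r / 4) (by positivity)
  refine hHO M S Δ.π Δ.p (Δ.r / 2) ε hε (TTh Δ (Metric.diam (Set.univ : Set M)) K) Δ.hπ Δ.surj
    hlt (start_aux hTH Δ hD K) (end_aux hTH Δ hD K) (fun X X' h => inv_aux hTH Δ _ K h)
    (fun X t _ => mem_aux hTH Δ hD hK X t) ?_
  intro X t _ δ hδ
  exact (cont_aux hTH Δ hD hK0 X t hδ).mono fun Z hZ _ => hZ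

end

end Pool.Agent.H48.FRAB
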