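import Pool.Agent.H48.FR.Sca

/-!
MP_6a7a6f_gt: the complex numbers and the quaternions as scalars.
-/

namespace Pool.Agent.H48.FR

noncomputable section

open scoped Quaternion

instance instPFComplex : PF ℂ where
  re := Complex.reLm
  re_star a := by simp
  re_mul_comm a b := by
    change (a * b).re = (b * a).re
    rw [mul_comm]
  re_one := rfl
  self_mul_star a := by
    change a * (starRingEnd ℂ) a = ((‖a‖ ^ 2 : ℝ) : ℂ)
    rw [Complex.mul_conj, Complex.normSq_eq_norm_sq]
  star_smul r a := by
    rw [star_smul, star_trivial]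
  J := Complex.I
  J_mul_J := Complex.I_mul_I
  re_J := Complex.I_re
  fin := inferInstance

/-- the real part of a quaternion, as a linear map -/
def quatRe : ℍ[ℝ] →ₗ[ℝ] ℝ where
  toFun a := a.re
  map_add' a b := by simp
  map_smul' r a := by simp

/-- a square root of minus one -/
def quatJ : ℍ[ℝ] := ⟨0, 1, 0, 0⟩

lemma quatJ_mul : quatJ * quatJ = -1 := by
  apply Quaternion.ext
  · rw [Quaternion.re_mul]; simp [quatJ]
  · rw [Quaternion.imI_mul]; simp [quatJ]
  · rw [Quaternion.imJ_mul]; simp [quatJ]
  · rw [Quaternion.imK_mul]; simp [quatJ]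

instance instPFQuaternion : PF ℍ[ℝ] where
  re := quatRe
  re_star a := by
    change (star a).re = a.re
    simp
  re_mul_comm a b := by
    change (a * b).re = (b * a).re
    simp only [Quaternion.re_mul]
    ring
  re_one := by
    change (1 : ℍ[ℝ]).re = 1
    simp
  self_mul_star a := by
    rw [Quaternion.self_mul_star, Quaternion.normSq_eq_norm_mul_self, sq]
    rfl
  star_smul r a := Quaternion.star_smul r a
  J := quatJ
  J_mul_J := quatJ_mul
  re_J := rfl
  fin := inferInstance

end

end Pool.Agent.H48.FR
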