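import Pool.Agent.H48.FR.Sca

/-!
MP_6a7a6f_gt: the projective space over the scalars with its metric
`arccos (|⟨x, y⟩| / (|x| |y|))`.
-/

namespace Pool.Agent.H48.FR

noncomputable section

variable {𝕜 : Type} [NormedDivisionRing 𝕜] [StarRing 𝕜] [NormedAlgebra ℝ 𝕜]

/-- the Hermitian form on `𝕜^(n+1)` -/
def hp {n : ℕ} (x y : Fin n → 𝕜) : 𝕜 := ∑ i, x i * star (y i)

/-- the Hermitian norm on `𝕜^(n+1)` -/
def nrm {n : ℕ} (x : Fin n → 𝕜) : ℝ := Real.sqrt (∑ i, ‖x i‖ ^ 2)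

variable {n : ℕ}

lemma nrm_nonneg (x : Fin n → 𝕜) : 0 ≤ nrm x := Real.sqrt_nonneg _

lemma nrm_sq (x : Fin n → 𝕜) : nrm x ^ 2 = ∑ i, ‖x i‖ ^ 2 :=
  Real.sq_sqrt (Finset.sum_nonneg fun _ _ => sq_nonneg _)

lemma nrm_eq_one_iff (x : Fin n → 𝕜) : nrm x = 1 ↔ ∑ i, ‖x i‖ ^ 2 = 1 := by
  rw [← nrm_sq]
  constructor
  · intro h; rw [h]; norm_num
  · intro h
    have := nrm_nonneg x
    nlinarith

lemma nrm_eq_zero_iff (x : Fin n → 𝕜) : nrm x = 0 ↔ x = 0 := by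
  constructor
  · intro h
    have h1 : ∑ i, ‖x i‖ ^ 2 = 0 := by rw [← nrm_sq, h]; norm_num
    rw [Finset.sum_eq_zero_iff_of_nonneg fun _ _ => sq_nonneg _] at h1
    funext i
    have := h1 i (Finset.mem_univ i)
    exact norm_eq_zero.1 (pow_eq_zero_iff two_ne_zero |>.1 this)
  · rintro rfl
    simp [nrm]

lemma nrm_smul (a : 𝕜) (x : Fin n → 𝕜) : nrm (a • x) = ‖a‖ * nrm x := by
  have h : ∑ i, ‖(a • x) i‖ ^ 2 = ‖a‖ ^ 2 * ∑ i, ‖x i‖ ^ 2 := by
    rw [Finset.mul_sum]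
    refine Finset.sum_congr rfl fun i _ => ?_
    rw [Pi.smul_apply, smul_eq_mul, norm_mul, mul_pow]
  unfold nrm
  rw [h, Real.sqrt_mul (sq_nonneg _), Real.sqrt_sq (norm_nonneg _)]

lemma hp_smul_left (a : 𝕜) (x y : Fin n → 𝕜) : hp (a • x) y = a * hp x y := by
  unfold hp
  rw [Finset.mul_sum]
  refine Finset.sum_congr rfl fun i _ => ?_
  rw [Pi.smul_apply, smul_eq_mul, mul_assoc]

lemma hp_smul_right (a : 𝕜) (x y : Fin n → 𝕜) : hp x (a • y) = hp x y * star a := by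
  unfold hp
  rw [Finset.sum_mul]
  refine Finset.sum_congr rfl fun i _ => ?_
  rw [Pi.smul_apply, smul_eq_mul, star_mul, mul_assoc]

lemma hp_add_left (x x' y : Fin n → 𝕜) : hp (x + x') y = hp x y + hp x' y := by
  unfold hp
  rw [← Finset.sum_add_distrib]
  refine Finset.sum_congr rfl fun i _ => ?_
  rw [Pi.add_apply, add_mul]

lemma hp_add_right (x y y' : Fin n → 𝕜) : hp x (y + y') = hp x y + hp x y' := by
  unfold hp
  rw [← Finset.sum_add_distrib]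
  refine Finset.sum_congr rfl fun i _ => ?_
  rw [Pi.add_apply, star_add, mul_add]

lemma star_hp (x y : Fin n → 𝕜) : star (hp x y) = hp y x := by
  unfold hp
  rw [star_sum]
  refine Finset.sum_congr rfl fun i _ => ?_
  rw [star_mul, star_star]

variable [PF 𝕜]

lemma norm_hp_le (x y : Fin n → 𝕜) : ‖hp x y‖ ≤ nrm x * nrm y := by
  have h1 : ‖hp x y‖ ≤ ∑ i, ‖x i‖ * ‖y i‖ := by
    refine (norm_sum_le _ _).trans (Finset.sum_le_sum fun i _ => ?_)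
    rw [norm_mul, norm_star']
  exact h1.trans (Real.sum_mul_le_sqrt_mul_sqrt _ _ _)

lemma norm_hp_comm (x y : Fin n → 𝕜) : ‖hp x y‖ = ‖hp y x‖ := by
  rw [← star_hp x y, norm_star']

lemma hp_self (x : Fin n → 𝕜) : hp x x = algebraMap ℝ 𝕜 (nrm x ^ 2) := by
  rw [nrm_sq, map_sum]
  exact Finset.sum_congr rfl fun i _ => self_mul_star _

lemma re_hp_comm (x y : Fin n → 𝕜) : re (hp x y) = re (hp y x) := by
  rw [← star_hp x y, re_star]

/-- the distance between the lines through two vectors -/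
def pd (x y : Fin n → 𝕜) : ℝ := Real.arccos (‖hp x y‖ / (nrm x * nrm y))

omit [PF 𝕜] in
lemma pd_def (x y : Fin n → 𝕜) : pd x y = Real.arccos (‖hp x y‖ / (nrm x * nrm y)) := rfl

omit [PF 𝕜] in
lemma pd_unit {x y : Fin n → 𝕜} (hx : nrm x = 1) (hy : nrm y = 1) :
    pd x y = Real.arccos ‖hp x y‖ := by
  rw [pd, hx, hy, mul_one, div_one]

lemma pd_comm (x y : Fin n → 𝕜) : pd x y = pd y x := by
  rw [pd, pd, norm_hp_comm, mul_comm (nrm x)]

omit [PF 𝕜] in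
lemma pd_smul_left {a : 𝕜} (ha : a ≠ 0) (x y : Fin n → 𝕜) : pd (a • x) y = pd x y := by
  have h0 : ‖a‖ ≠ 0 := norm_ne_zero_iff.2 ha
  rw [pd, pd, hp_smul_left, nrm_smul, norm_mul, mul_assoc, mul_div_mul_left _ _ h0]

lemma pd_smul_right {a : 𝕜} (ha : a ≠ 0) (x y : Fin n → 𝕜) : pd x (a • y) = pd x y := by
  rw [pd_comm, pd_smul_left ha, pd_comm]

lemma nrm_add_sq (x y : Fin n → 𝕜) :
    nrm (x + y) ^ 2 = nrm x ^ 2 + nrm y ^ 2 + 2 * re (hp x y) := by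
  rw [nrm_sq, nrm_sq, nrm_sq, hp, re_sum, Finset.mul_sum, ← Finset.sum_add_distrib,
    ← Finset.sum_add_distrib]
  exact Finset.sum_congr rfl fun i _ => norm_add_sq _ _

lemma re_hp_le (x y : Fin n → 𝕜) : re (hp x y) ≤ nrm x * nrm y :=
  (re_le_norm _).trans (norm_hp_le x y)

lemma abs_re_hp_le (x y : Fin n → 𝕜) : |re (hp x y)| ≤ nrm x * nrm y :=
  (abs_re_le _).trans (norm_hp_le x y)

/-- the real scalar `r` as a scalar -/
def rs (r : ℝ) : 𝕜 := algebraMap ℝ 𝕜 r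

omit [StarRing 𝕜] [PF 𝕜] in
lemma norm_rs (r : ℝ) : ‖(rs r : 𝕜)‖ = |r| := norm_algebraMap'' r

lemma star_rs (r : ℝ) : star (rs r : 𝕜) = rs r := star_algebraMap r

omit [StarRing 𝕜] [PF 𝕜] in
lemma rs_mul_comm (r : ℝ) (a : 𝕜) : rs r * a = a * rs r := Algebra.commutes r a

lemma re_rs_mul (r : ℝ) (a : 𝕜) : re (rs r * a) = r * re a := by
  rw [rs, ← Algebra.smul_def, re_smul]

lemma re_mul_rs (r : ℝ) (a : 𝕜) : re (a * rs r) = r * re a := by
  rw [← rs_mul_comm, re_rs_mul]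

/-- the triangle inequality for real angles, in the form of cosines -/
lemma cos_tri {x y z : Fin n → 𝕜} (hx : nrm x = 1) (hy : nrm y = 1) (hz : nrm z = 1) :
    re (hp x y) * re (hp y z) -
      Real.sqrt (1 - re (hp x y) ^ 2) * Real.sqrt (1 - re (hp y z) ^ 2) ≤ re (hp x z) := by
  set a := re (hp x y) with ha
  set b := re (hp y z) with hb
  have hyy : hp y y = rs 1 := by rw [hp_self, hy, one_pow]; rfl
  have h1 : nrm (x + (rs (-a) : 𝕜) • y) ^ 2 = 1 - a ^ 2 := by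
    rw [nrm_add_sq, nrm_smul, hx, hy, norm_rs, hp_smul_right, star_rs, re_mul_rs, mul_one, sq_abs,
      ← ha]
    ring
  have h2 : nrm (z + (rs (-b) : 𝕜) • y) ^ 2 = 1 - b ^ 2 := by
    rw [nrm_add_sq, nrm_smul, hz, hy, norm_rs, hp_smul_right, star_rs, re_mul_rs, mul_one, sq_abs,
      re_hp_comm, ← hb]
    ring
  have h3 : re (hp (x + (rs (-a) : 𝕜) • y) (z + (rs (-b) : 𝕜) • y)) = re (hp x z) - a * b := by
    rw [hp_add_left, hp_add_right, hp_add_right, hp_smul_left, hp_smul_left, hp_smul_right,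
      hp_smul_right, star_rs, hyy, re_add, re_add, re_add, re_mul_rs, re_rs_mul, re_rs_mul,
      re_mul_rs, rs, re_algebraMap, ← ha, ← hb]
    ring
  have h4 := abs_re_hp_le (x + (rs (-a) : 𝕜) • y) (z + (rs (-b) : 𝕜) • y)
  rw [h3] at h4
  have h5 : nrm (x + (rs (-a) : 𝕜) • y) = Real.sqrt (1 - a ^ 2) := by
    rw [← h1, Real.sqrt_sq (nrm_nonneg _)]
  have h6 : nrm (z + (rs (-b) : 𝕜) • y) = Real.sqrt (1 - b ^ 2) := by
    rw [← h2, Real.sqrt_sq (nrm_nonneg _)]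
  rw [h5, h6] at h4
  have := (abs_le.1 h4).1
  linarith

lemma norm_hp_le_one {x y : Fin n → 𝕜} (hx : nrm x = 1) (hy : nrm y = 1) : ‖hp x y‖ ≤ 1 := by
  have := norm_hp_le x y
  rwa [hx, hy, mul_one] at this

lemma pd_triangle_unit {x y z : Fin n → 𝕜} (hx : nrm x = 1) (hy : nrm y = 1) (hz : nrm z = 1) :
    pd x z ≤ pd x y + pd y z := by
  rw [pd_unit hx hz, pd_unit hx hy, pd_unit hy hz]
  obtain ⟨q, hq, hq1, -⟩ := exists_unit_re (hp x y)
  obtain ⟨q', hq', hq1', -⟩ := exists_unit_re (hp y z)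
  have hx' : nrm (q • x) = 1 := by rw [nrm_smul, hq, hx, mul_one]
  have hz' : nrm (star q' • z) = 1 := by rw [nrm_smul, norm_star', hq', hz, mul_one]
  have h := cos_tri hx' hy hz'
  have e1 : re (hp (q • x) y) = ‖hp x y‖ := by rw [hp_smul_left, hq1]
  have e2 : re (hp y (star q' • z)) = ‖hp y z‖ := by
    rw [hp_smul_right, star_star, re_mul_comm, hq1']
  have e3 : re (hp (q • x) (star q' • z)) ≤ ‖hp x z‖ := by
    refine (re_le_norm _).trans ?_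
    rw [hp_smul_left, hp_smul_right, norm_mul, norm_mul, norm_star', norm_star', hq, hq',
      one_mul, mul_one]
  rw [e1, e2] at h
  set α := Real.arccos ‖hp x y‖ with hα
  set β := Real.arccos ‖hp y z‖ with hβ
  have ca : ‖hp x y‖ = Real.cos α := by
    rw [hα, Real.cos_arccos (by linarith [norm_nonneg (hp x y)]) (norm_hp_le_one hx hy)]
  have cb : ‖hp y z‖ = Real.cos β := by
    rw [hβ, Real.cos_arccos (by linarith [norm_nonneg (hp y z)]) (norm_hp_le_one hy hz)]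
  have sa : Real.sqrt (1 - ‖hp x y‖ ^ 2) = Real.sin α := by rw [hα, Real.sin_arccos]
  have sb : Real.sqrt (1 - ‖hp y z‖ ^ 2) = Real.sin β := by rw [hβ, Real.sin_arccos]
  rw [sa, sb] at h
  by_cases hc : α + β ≤ Real.pi
  · have h7 : Real.cos (α + β) ≤ ‖hp x z‖ := by
      rw [Real.cos_add, ← ca, ← cb]
      exact h.trans e3
    have h8 := Real.arccos_le_arccos h7
    rwa [Real.arccos_cos (add_nonneg (Real.arccos_nonneg _) (Real.arccos_nonneg _)) hc] at h8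
  · exact (Real.arccos_le_pi _).trans (le_of_not_ge hc)

lemma exists_unit {x : Fin n → 𝕜} (hx : x ≠ 0) :
    ∃ a : 𝕜, a ≠ 0 ∧ nrm (a • x) = 1 := by
  have h0 : nrm x ≠ 0 := fun h => hx ((nrm_eq_zero_iff x).1 h)
  refine ⟨rs (nrm x)⁻¹, ?_, ?_⟩
  · intro h
    have : ‖(rs (nrm x)⁻¹ : 𝕜)‖ = 0 := by rw [h, norm_zero]
    rw [norm_rs, abs_eq_zero, inv_eq_zero] at this
    exact h0 this
  · rw [nrm_smul, norm_rs, abs_of_nonneg (inv_nonneg.2 (nrm_nonneg x)), inv_mul_cancel₀ h0]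

lemma pd_triangle {x y z : Fin n → 𝕜} (hx : x ≠ 0) (hy : y ≠ 0) (hz : z ≠ 0) :
    pd x z ≤ pd x y + pd y z := by
  obtain ⟨a, ha, ha'⟩ := exists_unit hx
  obtain ⟨b, hb, hb'⟩ := exists_unit hy
  obtain ⟨c, hc, hc'⟩ := exists_unit hz
  have h := pd_triangle_unit ha' hb' hc'
  rwa [pd_smul_left ha, pd_smul_right hc, pd_smul_left ha, pd_smul_right hb, pd_smul_left hb,
    pd_smul_right hc] at h

lemma pd_nonneg (x y : Fin n → 𝕜) : 0 ≤ pd x y := Real.arccos_nonneg _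

lemma pd_self {x : Fin n → 𝕜} (hx : x ≠ 0) : pd x x = 0 := by
  obtain ⟨a, ha, ha'⟩ := exists_unit hx
  rw [← pd_smul_left ha, ← pd_smul_right ha, pd_unit ha' ha', hp_self, ha', one_pow, map_one,
    norm_one, Real.arccos_one]

lemma eq_smul_of_pd_eq_zero {x y : Fin n → 𝕜} (hx : x ≠ 0) (hy : y ≠ 0) (h : pd x y = 0) :
    ∃ a : 𝕜, a ≠ 0 ∧ a • x = y := by
  obtain ⟨a, ha, ha'⟩ := exists_unit hx
  obtain ⟨b, hb, hb'⟩ := exists_unit hy
  rw [← pd_smul_left ha, ← pd_smul_right hb, pd_unit ha' hb', Real.arccos_eq_zero] at h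
  obtain ⟨q, hq, hq1, -⟩ := exists_unit_re (hp (a • x) (b • y))
  have hle := norm_hp_le_one ha' hb'
  have h1 : ‖hp (a • x) (b • y)‖ = 1 := le_antisymm hle h
  have h2 : nrm (q • a • x + (rs (-1) : 𝕜) • b • y) ^ 2 = 0 := by
    rw [nrm_add_sq, nrm_smul q, nrm_smul (rs (-1)), ha', hb', hq, norm_rs, hp_smul_right, star_rs,
      re_mul_rs, hp_smul_left, hq1, h1]
    norm_num
  have h3 : q • a • x + (rs (-1) : 𝕜) • b • y = 0 := by
    rw [← nrm_eq_zero_iff]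
    exact pow_eq_zero_iff two_ne_zero |>.1 h2
  have h4 : q • a • x = b • y := by
    have h5 : (rs (-1) : 𝕜) • b • y = -(b • y) := by
      rw [rs, map_neg, map_one, neg_smul, one_smul]
    rw [h5] at h3
    exact add_neg_eq_zero.1 h3
  have hq0 : q ≠ 0 := by rintro rfl; rw [norm_zero] at hq; exact zero_ne_one hq
  refine ⟨b⁻¹ * (q * a), mul_ne_zero (inv_ne_zero hb) (mul_ne_zero hq0 ha), ?_⟩
  rw [mul_smul, mul_smul, h4, smul_smul, inv_mul_cancel₀ hb, one_smul]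

/-- projective space of dimension `n` over the scalars -/
def PP (𝕜 : Type) [NormedDivisionRing 𝕜] (n : ℕ) : Type :=
  Projectivization 𝕜 (Fin (n + 1) → 𝕜)

/-- the line through a nonzero vector -/
def PP.mk {𝕜 : Type} [NormedDivisionRing 𝕜] {n : ℕ} (x : Fin (n + 1) → 𝕜) (hx : x ≠ 0) :
    PP 𝕜 n := Projectivization.mk 𝕜 x hx

/-- a representative of a point of projective space -/
def PP.rep {𝕜 : Type} [NormedDivisionRing 𝕜] {n : ℕ} (P : PP 𝕜 n) : Fin (n + 1) → 𝕜 :=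
  Projectivization.rep P

lemma PP.rep_ne {𝕜 : Type} [NormedDivisionRing 𝕜] {n : ℕ} (P : PP 𝕜 n) : P.rep ≠ 0 :=
  Projectivization.rep_nonzero P

lemma PP.mk_rep {𝕜 : Type} [NormedDivisionRing 𝕜] {n : ℕ} (P : PP 𝕜 n) :
    PP.mk P.rep P.rep_ne = P := Projectivization.mk_rep P

lemma PP.mk_eq_iff {𝕜 : Type} [NormedDivisionRing 𝕜] {n : ℕ} {x y : Fin (n + 1) → 𝕜}
    (hx : x ≠ 0) (hy : y ≠ 0) : PP.mk x hx = PP.mk y hy ↔ ∃ a : 𝕜, a ≠ 0 ∧ a • y = x := by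
  refine (Projectivization.mk_eq_mk_iff 𝕜 x y hx hy).trans ?_
  constructor
  · rintro ⟨a, ha⟩
    exact ⟨a, a.ne_zero, ha⟩
  · rintro ⟨a, ha, h⟩
    exact ⟨Units.mk0 a ha, h⟩

lemma PP.exists_rep {𝕜 : Type} [NormedDivisionRing 𝕜] {n : ℕ} (x : Fin (n + 1) → 𝕜)
    (hx : x ≠ 0) : ∃ a : 𝕜, a ≠ 0 ∧ (PP.mk x hx).rep = a • x := by
  obtain ⟨a, ha⟩ := Projectivization.exists_smul_eq_mk_rep 𝕜 x hx
  exact ⟨a, a.ne_zero, ha.symm⟩

/-- the metric of projective space: the distance of the lines through `x` and `y` is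
`arccos (|⟨x, y⟩| / (|x| |y|))`, so that the diameter is `π / 2` -/
instance instMetricPP (𝕜 : Type) [NormedDivisionRing 𝕜] [StarRing 𝕜] [NormedAlgebra ℝ 𝕜] [PF 𝕜]
    (n : ℕ) : MetricSpace (PP 𝕜 n) where
  dist P Q := Real.arccos (‖hp P.rep Q.rep‖ / (nrm P.rep * nrm Q.rep))
  dist_self P := pd_self P.rep_ne
  dist_comm P Q := pd_comm _ _
  dist_triangle P Q R := pd_triangle P.rep_ne Q.rep_ne R.rep_ne
  eq_of_dist_eq_zero := by
    intro P Q h
    obtain ⟨a, ha, h1⟩ := eq_smul_of_pd_eq_zero P.rep_ne Q.rep_ne h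
    rw [← P.mk_rep, ← Q.mk_rep]
    exact ((PP.mk_eq_iff Q.rep_ne P.rep_ne).2 ⟨a, ha, h1⟩).symm

lemma dist_def (P Q : PP 𝕜 n) : dist P Q = pd P.rep Q.rep := rfl

lemma dist_mk {x y : Fin (n + 1) → 𝕜} (hx : x ≠ 0) (hy : y ≠ 0) :
    dist (PP.mk x hx) (PP.mk y hy) = pd x y := by
  obtain ⟨a, ha, h1⟩ := PP.exists_rep x hx
  obtain ⟨b, hb, h2⟩ := PP.exists_rep y hy
  rw [dist_def, h1, h2, pd_smul_left ha, pd_smul_right hb]

lemma dist_le_pi_div_two (P Q : PP 𝕜 n) : dist P Q ≤ Real.pi / 2 := by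
  rw [dist_def, pd, Real.arccos_le_pi_div_two]
  exact div_nonneg (norm_nonneg _) (mul_nonneg (nrm_nonneg _) (nrm_nonneg _))

instance instBoundedPP : BoundedSpace (PP 𝕜 n) :=
  ⟨Metric.isBounded_iff.2 ⟨Real.pi / 2, fun P _ Q _ => dist_le_pi_div_two P Q⟩⟩

end

end Pool.Agent.H48.FR
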