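import Pool.Agent.H48.FR.Kur
import Pool.Agent.H48.FR.Met
import Pool.Agent.H48.FR.Ins

/-!
MP_6a7a6f_gt: the definitions of the statements (in short form).
-/

namespace Pool.Agent.H48.FR

noncomputable section

open CategoryTheory
open scoped ENNReal Quaternion

/-- the open neighbourhood of radius `ε` of the image of the Kuratowski map
`kur M : M → lp (fun _ : M => ℝ) ∞`, as a topological space -/
def UE (M : Type) [MetricSpace M] [BoundedSpace M] (ε : ℝ) : Type := nbhd M ε

instance instUE (M : Type) [MetricSpace M] [BoundedSpace M] (ε : ℝ) :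
    TopologicalSpace (UE M ε) := instTopologicalSpaceSubtype

/-- the Kuratowski map as a map into its neighbourhood, without continuity -/
def kf (M : Type) [MetricSpace M] [BoundedSpace M] (ε : ℝ) (hε : 0 < ε) (m : M) : UE M ε :=
  ⟨kur M m, kur_mem_nbhd hε m⟩

lemma continuous_kf {M : Type} [MetricSpace M] [BoundedSpace M] {ε : ℝ} (hε : 0 < ε) :
    Continuous (kf M ε hε) := (kurU M ε hε).continuous

/-- the Kuratowski map as a continuous map into its open neighbourhood of radius `ε` -/
def kc (M : Type) [MetricSpace M] [BoundedSpace M] (ε : ℝ) (hε : 0 < ε) : C(M, UE M ε) :=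
  ⟨kf M ε hε, continuous_kf hε⟩

/-- singular homology in degree `d` with integer coefficients -/
def HZ (d : ℕ) : TopCat.{0} ⥤ ModuleCat.{0} ℤ :=
  (AlgebraicTopology.singularHomologyFunctor (ModuleCat.{0} ℤ) d).obj (ModuleCat.of ℤ ℤ)

/-- the map `f` induces zero on the singular homology in degree `d` -/
def Kills (d : ℕ) {X Y : Type} [TopologicalSpace X] [TopologicalSpace Y] (f : C(X, Y)) : Prop :=
  (HZ d).map (TopCat.ofHom f) = 0

/-- the filling radius of `M` in degree `d`: the infimum of all `ε > 0` for which the Kuratowski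
map induces zero on the `d`-th homology of the open `ε`-neighbourhood of its image -/
def FillR (M : Type) [MetricSpace M] [BoundedSpace M] (d : ℕ) : ℝ :=
  sInf {ε : ℝ | ∃ hε : 0 < ε, Kills d (kc M ε hε)}

lemma FillR_eq (M : Type) [MetricSpace M] [BoundedSpace M] (d : ℕ) : FillR M d = FillRad M d := rfl

/-- complex projective space of dimension `n`, with the distance
`arccos (|⟨x, y⟩| / (|x| |y|))` -/
def CPn (n : ℕ) : Type := PP ℂ n

instance instCP (n : ℕ) : MetricSpace (CPn n) := instMetricPP ℂ n

instance instCPb (n : ℕ) : BoundedSpace (CPn n) := instBoundedPP (𝕜 := ℂ) (n := n)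

/-- quaternionic projective space of dimension `n`, with the distance
`arccos (|⟨x, y⟩| / (|x| |y|))` -/
def HPn (n : ℕ) : Type := PP ℍ[ℝ] n

instance instHP (n : ℕ) : MetricSpace (HPn n) := instMetricPP ℍ[ℝ] n

instance instHPb (n : ℕ) : BoundedSpace (HPn n) := instBoundedPP (𝕜 := ℍ[ℝ]) (n := n)

end

end Pool.Agent.H48.FR
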