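import Pool.Agent.H48.FR.Targets

/-!
MP_6a7a6f_gt, module CO: the contraction for the projective spaces.
-/

namespace Pool.Agent.H48.FRCO

open Pool.Agent.H48.FR
open Filter Topology

noncomputable section

variable {𝕜 : Type} [NormedDivisionRing 𝕜] [StarRing 𝕜] [NormedAlgebra ℝ 𝕜] [PF 𝕜] {n : ℕ}

omit [StarRing 𝕜] [PF 𝕜] in
lemma continuous_rs : Continuous (rs : ℝ → 𝕜) := continuous_algebraMap ℝ 𝕜

omit [StarRing 𝕜] [NormedAlgebra ℝ 𝕜] [PF 𝕜] in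
lemma continuous_nrm {m : ℕ} : Continuous (nrm : (Fin m → 𝕜) → ℝ) := by
  unfold nrm
  fun_prop

omit [StarRing 𝕜] [PF 𝕜] in
lemma yv_ne {ρ : ℝ} (h : Real.cos ρ ≠ 0) (x : Fin (n + 1) → 𝕜) (q : 𝕜) : yv ρ x q ≠ 0 := by
  intro h0
  have h1 : yv ρ x q 0 = (0 : 𝕜) := by rw [h0]; rfl
  have h2 : yv ρ x q 0 = rs (Real.cos ρ) := rfl
  rw [h2] at h1
  have h3 : ‖(rs (Real.cos ρ) : 𝕜)‖ = 0 := by rw [h1, norm_zero]
  rw [norm_rs, abs_eq_zero] at h3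
  exact h h3

/-- the slope of the parameter -/
def sg (ρ₂ ρ : ℝ) : ℝ := min 1 (max 0 ((ρ - ρ₂) / (Real.pi / 2 - ρ₂)))

lemma sg_zero {ρ₂ ρ : ℝ} (h : ρ₂ < Real.pi / 2) (h' : ρ ≤ ρ₂) : sg ρ₂ ρ = 0 := by
  unfold sg
  rw [max_eq_left (div_nonpos_of_nonpos_of_nonneg (by linarith) (by linarith))]
  exact min_eq_right zero_le_one

lemma sg_pos {ρ₂ ρ : ℝ} (h : ρ₂ < Real.pi / 2) (h' : ρ₂ < ρ) : 0 < sg ρ₂ ρ := by
  unfold sg
  exact lt_min zero_lt_one (lt_max_of_lt_right (div_pos (by linarith) (by linarith)))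

lemma sg_mem (ρ₂ ρ : ℝ) : sg ρ₂ ρ ∈ Set.Icc (0 : ℝ) 1 :=
  ⟨le_min zero_le_one (le_max_left _ _), min_le_left _ _⟩

lemma continuous_sg (ρ₂ : ℝ) : Continuous (sg ρ₂) := by
  unfold sg
  fun_prop

omit [PF 𝕜] [StarRing 𝕜] [NormedAlgebra ℝ 𝕜] in
lemma tl_smul (a : 𝕜) (x : Fin (n + 1) → 𝕜) : tl (a • x) = a • tl x := rfl

lemma vv_smul {a : 𝕜} (ha : ‖a‖ = 1) (x : Fin (n + 1) → 𝕜) (i : Fin n) :
    vv (a • x) i = a * vv x i := by
  unfold vv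
  rw [tl_smul, nrm_smul, ha, one_mul, Pi.smul_apply, smul_eq_mul, ← mul_assoc, rs_mul_comm,
    mul_assoc]

lemma yv_smul {a : 𝕜} (ha : ‖a‖ = 1) (ρ : ℝ) (x : Fin (n + 1) → 𝕜) (q : 𝕜) :
    yv ρ (a • x) q = yv ρ x (q * a) := by
  unfold yv
  congr 1
  funext i
  rw [vv_smul ha, mul_assoc q a]

lemma FF_smul {a : 𝕜} (ha : ‖a‖ = 1) (x : Fin (n + 1) → 𝕜) (s : ℝ) (q : 𝕜) :
    FF (a • x) s q = FF x s (q * a) := by
  unfold FF
  have h1 : ∀ i : Fin n, vv (a • x) i = a * vv x i := vv_smul ha x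
  simp only [h1, Pi.smul_apply, smul_eq_mul, mul_assoc]

lemma continuousOn_vv (i : Fin n) :
    ContinuousOn (fun x : Fin (n + 1) → 𝕜 => vv x i) {x | tl x ≠ 0} := by
  unfold vv
  have h1 : Continuous fun x : Fin (n + 1) → 𝕜 => tl x := by
    unfold tl
    fun_prop
  have h2 : ContinuousOn (fun x : Fin (n + 1) → 𝕜 => (nrm (tl x))⁻¹) {x | tl x ≠ 0} := by
    refine ContinuousOn.inv₀ (continuous_nrm.comp h1).continuousOn fun x hx h => ?_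
    exact hx ((nrm_eq_zero_iff _).1 h)
  refine ContinuousOn.mul (continuous_rs.comp_continuousOn h2) ?_
  exact (((continuous_apply i).comp h1).continuousOn)

lemma nrm_vv {x : Fin (n + 1) → 𝕜} (hx : tl x ≠ 0) : nrm (vv x) = 1 := by
  have h : vv x = (rs (nrm (tl x))⁻¹ : 𝕜) • tl x := rfl
  have h0 : nrm (tl x) ≠ 0 := fun h => hx ((nrm_eq_zero_iff _).1 h)
  rw [h, nrm_smul, norm_rs, abs_of_nonneg (inv_nonneg.2 (nrm_nonneg _)), inv_mul_cancel₀ h0]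

lemma nrm_yv {x : Fin (n + 1) → 𝕜} (hx : tl x ≠ 0) (ρ : ℝ) {q : 𝕜} (hq : ‖q‖ = 1) :
    nrm (yv ρ x q) = 1 := by
  rw [nrm_eq_one_iff, Fin.sum_univ_succ]
  have h1 : yv ρ x q 0 = rs (Real.cos ρ) := rfl
  have h2 : ∀ i : Fin n, yv ρ x q i.succ = rs (Real.sin ρ) * (q * vv x i) := fun i => rfl
  have h3 : ∀ i : Fin n, ‖yv ρ x q i.succ‖ ^ 2 = Real.sin ρ ^ 2 * ‖vv x i‖ ^ 2 := by
    intro i
    rw [h2, norm_mul, norm_mul, hq, norm_rs, one_mul, mul_pow, sq_abs]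
  have h4 : ∑ i : Fin n, ‖vv x i‖ ^ 2 = 1 := by
    rw [← nrm_sq, nrm_vv hx, one_pow]
  rw [h1, norm_rs, sq_abs]
  simp only [h3]
  rw [← Finset.mul_sum, h4, mul_one]
  exact Real.cos_sq_add_sin_sq ρ

/-- CO. The contraction for the projective spaces. -/
theorem co (hSP : T_SP) (hDS : T_DS) (hMX : T_MX) (hFA : T_FA) (hPA : T_PA) : T_CO := by
  intro 𝕜 _ _ _ _ n r hn hr1 hr2
  obtain ⟨ρ₁, ρ₂, h1, h2, h3, h4, h5, h6⟩ := hPA.2 n r hn hr1 hr2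
  obtain ⟨hcS, hcQ, hπc, hπs⟩ := hSP 𝕜 n
  have hpi := Real.pi_pos
  have hcos : Real.cos ρ₁ ≠ 0 :=
    (Real.cos_pos_of_mem_Ioo ⟨by linarith, by linarith⟩).ne'
  have hρ0 : 0 ≤ ρ₁ := by linarith
  have hρ1 : ρ₁ ≤ Real.pi / 2 := by linarith
  have hne : ∀ X : Sph 𝕜 n, prS X ≠ bp 𝕜 n → tl X.1 ≠ 0 := fun X =>
    (hDS 𝕜 n ρ₁ X hρ0 hρ1).1.2.2
  have hnrm : ∀ X : Sph 𝕜 n, prS X ≠ bp 𝕜 n → ∀ q : Usc 𝕜, nrm (yv ρ₁ X.1 q.1) = 1 :=
    fun X hX q => nrm_yv (hne X hX) ρ₁ q.2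
  refine ⟨{
    π := prS
    p := bp 𝕜 n
    y := fun X q => PP.mk (yv ρ₁ X.1 q.1) (yv_ne hcos _ _)
    F := fun X s q => FF X.1 s q.1
    σ := sg ρ₂
    r := r
    hπ := hπc
    surj := hπs
    hσ := continuous_sg ρ₂
    σ_mem := sg_mem ρ₂
    r_pos := by linarith
    hy := ?_
    hF := ?_
    inv := ?_
    dist_p := ?_
    pair := ?_
    near := ?_ }, rfl⟩
  · rw [continuousOn_iff_continuous_domRestrict]
    have h7 : Continuous fun Z : {Z : Sph 𝕜 n × Usc 𝕜 // prS Z.1 ≠ bp 𝕜 n} =>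
        (⟨yv ρ₁ Z.1.1.1 Z.1.2.1, hnrm Z.1.1 Z.2 Z.1.2⟩ : Sph 𝕜 n) := by
      refine Continuous.subtype_mk (continuous_pi fun i => ?_) _
      refine Fin.cases ?_ (fun j => ?_) i
      · exact continuous_const
      · have h8 : Continuous fun Z : {Z : Sph 𝕜 n × Usc 𝕜 // prS Z.1 ≠ bp 𝕜 n} =>
            vv Z.1.1.1 j := by
          refine ContinuousOn.comp_continuous (continuousOn_vv j) (by fun_prop) ?_
          intro Z
          exact hne Z.1.1 Z.2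
        have h9 : Continuous fun Z : {Z : Sph 𝕜 n × Usc 𝕜 // prS Z.1 ≠ bp 𝕜 n} =>
            (rs (Real.sin ρ₁) : 𝕜) * (Z.1.2.1 * vv Z.1.1.1 j) :=
          continuous_const.mul ((by fun_prop : Continuous fun Z :
            {Z : Sph 𝕜 n × Usc 𝕜 // prS Z.1 ≠ bp 𝕜 n} => Z.1.2.1).mul h8)
        exact h9
    exact hπc.comp h7
  · rw [continuousOn_iff_continuous_domRestrict]
    have h8 : ∀ j, Continuous fun Z : {Z : Sph 𝕜 n × ℝ × Usc 𝕜 // prS Z.1 ≠ bp 𝕜 n} =>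
        vv Z.1.1.1 j := by
      intro j
      refine ContinuousOn.comp_continuous (continuousOn_vv j) (by fun_prop) ?_
      intro Z
      exact hne Z.1.1 Z.2
    have hq : Continuous fun Z : {Z : Sph 𝕜 n × ℝ × Usc 𝕜 // prS Z.1 ≠ bp 𝕜 n} =>
        Z.1.2.2.1 := by fun_prop
    have hs : Continuous fun Z : {Z : Sph 𝕜 n × ℝ × Usc 𝕜 // prS Z.1 ≠ bp 𝕜 n} =>
        Z.1.2.1 := by fun_prop
    have hx0 : Continuous fun Z : {Z : Sph 𝕜 n × ℝ × Usc 𝕜 // prS Z.1 ≠ bp 𝕜 n} =>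
        Z.1.1.1 0 := by
      have h10 : Continuous fun Z : {Z : Sph 𝕜 n × ℝ × Usc 𝕜 // prS Z.1 ≠ bp 𝕜 n} =>
        Z.1.1.1 := by fun_prop
      exact (continuous_apply 0).comp h10
    have h9 : Continuous fun Z : {Z : Sph 𝕜 n × ℝ × Usc 𝕜 // prS Z.1 ≠ bp 𝕜 n} =>
        (1 - Z.1.2.1) * re (Z.1.2.2.1 * Z.1.1.1 0) +
          Z.1.2.1 * ∑ j : Fin n, re ((Z.1.2.2.1 * vv Z.1.1.1 j) ^ (2 * (j : ℕ) + 3)) := by
      refine ((continuous_const.sub hs).mul (continuous_re.comp (hq.mul hx0))).add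
        (hs.mul (continuous_finsetSum _ fun j _ => ?_))
      exact continuous_re.comp ((hq.mul (h8 j)).pow _)
    exact h9
  · intro X X' h q
    obtain ⟨a, ha, hX⟩ := (PP.mk_eq_iff (sph_ne X) (sph_ne X')).1 h
    have ha1 : ‖a‖ = 1 := by
      have := X.2
      rw [← hX, nrm_smul, X'.2, mul_one] at this
      exact this
    refine ⟨⟨q.1 * a, by rw [norm_mul, q.2, ha1, mul_one]⟩, ?_, fun s => ?_⟩
    · have e : yv ρ₁ X.1 q.1 = yv ρ₁ X'.1 (q.1 * a) := by rw [← hX, yv_smul ha1]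
      simp only [e]
    · change FF X.1 s q.1 = FF X'.1 s (q.1 * a)
      rw [← hX, FF_smul ha1]
  · intro X q hX
    obtain ⟨hy, -, e, -⟩ := (hDS 𝕜 n ρ₁ X hρ0 hρ1).2 (hne X hX) q.1 q.1 q.2 q.2
    have e' : dist (bp 𝕜 n) (PP.mk (yv ρ₁ X.1 q.1) (yv_ne hcos _ _)) = ρ₁ := e
    rw [e']
    exact h2.le
  · intro X hX s hs q q' hq hq'
    have hs0 : 0 ≤ s := (sg_mem ρ₂ _).1.trans hs.1
    have hx := hne X hX
    obtain ⟨d1, d2, -⟩ := (hDS 𝕜 n ρ₁ X hρ0 hρ1).1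
    obtain ⟨a, ha, hapos⟩ := hMX 𝕜 n X.1 s hx hs0 hs.2 (by
      intro hs00 hx0
      have h7 : sg ρ₂ (dist (bp 𝕜 n) (prS X)) = 0 :=
        le_antisymm (by rw [← hs00]; exact hs.1) (sg_mem ρ₂ _).1
      have h8 : dist (bp 𝕜 n) (prS X) ≤ ρ₂ := by
        by_contra hc
        exact (sg_pos h5 (lt_of_not_ge hc)).ne' h7
      rw [hx0, norm_zero] at d1
      have h9 : 0 < Real.cos (dist (bp 𝕜 n) (prS X)) :=
        Real.cos_pos_of_mem_Ioo ⟨by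
          have h10 : 0 ≤ dist (bp 𝕜 n) (prS X) := dist_nonneg
          linarith, by linarith⟩
      exact h9.ne' d1)
    have hpos : 0 < FF X.1 s q.1 := hapos.trans_le (hq ⟨a, ha⟩)
    have hfa := hFA 𝕜 n X.1 s q.1 q'.1 hn q.2 q'.2 (fun a ha => hq ⟨a, ha⟩)
      (fun a ha => hq' ⟨a, ha⟩) hpos
    obtain ⟨hy, hy', -, e, -⟩ := (hDS 𝕜 n ρ₁ X hρ0 hρ1).2 hx q.1 q'.1 q.2 q'.2
    by_contra hc
    have hc' : r ≤ dist (PP.mk (yv ρ₁ X.1 q.1) hy) (PP.mk (yv ρ₁ X.1 q'.1) hy') :=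
      le_of_not_gt hc
    have h7 := dist_le_pi_div_two (PP.mk (yv ρ₁ X.1 q.1) hy) (PP.mk (yv ρ₁ X.1 q'.1) hy')
    have h8 : Real.cos (2 * dist (PP.mk (yv ρ₁ X.1 q.1) hy) (PP.mk (yv ρ₁ X.1 q'.1) hy')) ≤
        Real.cos (2 * r) :=
      Real.cos_le_cos_of_nonneg_of_le_pi (by linarith) (by linarith) (by linarith)
    rw [e] at h8
    have h9 : -Real.cos (Real.pi / (2 * n + 1)) * Real.sin (2 * ρ₁) ^ 2 ≤
        re (q.1 * star q'.1) * Real.sin (2 * ρ₁) ^ 2 :=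
      mul_le_mul_of_nonneg_right hfa (sq_nonneg _)
    nlinarith
  · intro X hX q hq
    have hx := hne X hX
    obtain ⟨d1, d2, -⟩ := (hDS 𝕜 n ρ₁ X hρ0 hρ1).1
    obtain ⟨hy, -, -, -, e⟩ := (hDS 𝕜 n ρ₁ X hρ0 hρ1).2 hx q.1 q.1 q.2 q.2
    set ρ := dist (bp 𝕜 n) (prS X) with hρ
    have hρn : 0 ≤ ρ := dist_nonneg
    have hρp : ρ ≤ Real.pi / 2 := dist_le_pi_div_two _ _
    rw [← d1, ← d2] at e
    have hsr : 0 ≤ Real.cos r := Real.cos_nonneg_of_mem_Icc ⟨by linarith, by linarith⟩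
    -- it is enough to have a lower bound for the square of the cosine
    have fin : Real.cos r ^ 2 < Real.cos (dist (prS X) (PP.mk (yv ρ₁ X.1 q.1) hy)) ^ 2 →
        dist (prS X) (PP.mk (yv ρ₁ X.1 q.1) hy) < r := by
      intro h
      by_contra hc
      have hc' := le_of_not_gt hc
      have h7 := dist_le_pi_div_two (prS X) (PP.mk (yv ρ₁ X.1 q.1) hy)
      have h8 : Real.cos (dist (prS X) (PP.mk (yv ρ₁ X.1 q.1) hy)) ≤ Real.cos r :=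
        Real.cos_le_cos_of_nonneg_of_le_pi (by linarith) (by linarith) hc'
      have h9 : 0 ≤ Real.cos (dist (prS X) (PP.mk (yv ρ₁ X.1 q.1) hy)) :=
        Real.cos_nonneg_of_mem_Icc ⟨by
          have h10 : 0 ≤ dist (prS X) (PP.mk (yv ρ₁ X.1 q.1) hy) := dist_nonneg
          linarith, h7⟩
      nlinarith
    refine fin ?_
    rw [e]
    have c0 : 0 ≤ Real.cos ρ := Real.cos_nonneg_of_mem_Icc ⟨by linarith, hρp⟩
    have s0 : 0 ≤ Real.sin ρ := Real.sin_nonneg_of_nonneg_of_le_pi hρn (by linarith)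
    have c1 : 0 ≤ Real.cos ρ₁ := Real.cos_nonneg_of_mem_Icc ⟨by linarith, hρ1⟩
    have s1 : 0 ≤ Real.sin ρ₁ := Real.sin_nonneg_of_nonneg_of_le_pi hρ0 (by linarith)
    have hcoef : 0 ≤ 2 * Real.cos ρ₁ * Real.sin ρ₁ * Real.sin ρ := by positivity
    by_cases hcase : ρ ≤ ρ₂
    · have hσ : sg ρ₂ ρ = 0 := sg_zero h5 hcase
      obtain ⟨a, ha, ha1, -⟩ := exists_unit_re (X.1 0)
      have h7 := hq ⟨a, ha⟩
      change FF X.1 (sg ρ₂ ρ) a ≤ FF X.1 (sg ρ₂ ρ) q.1 at h7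
      rw [hσ] at h7
      unfold FF at h7
      rw [sub_zero, one_mul, one_mul, zero_mul, zero_mul, add_zero, add_zero, ha1, ← d1] at h7
      have h8 : Real.cos (ρ - ρ₁) ^ 2 ≤ (Real.cos ρ * Real.cos ρ₁) ^ 2 +
          (Real.sin ρ * Real.sin ρ₁) ^ 2 +
          2 * Real.cos ρ₁ * Real.sin ρ₁ * Real.sin ρ * re (q.1 * X.1 0) := by
        rw [Real.cos_sub]
        nlinarith [mul_le_mul_of_nonneg_left h7 hcoef]
      refine lt_of_lt_of_le ?_ h8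
      have h9 : Real.cos r < Real.cos (ρ - ρ₁) := by
        rw [← Real.cos_abs (ρ - ρ₁)]
        refine Real.cos_lt_cos_of_nonneg_of_le_pi (abs_nonneg _) (by linarith) ?_
        rw [abs_lt]
        constructor <;> linarith
      nlinarith
    · have h7 : -‖X.1 0‖ ≤ re (q.1 * X.1 0) := by
        have := (abs_le.1 (abs_re_le (q.1 * X.1 0))).1
        rwa [norm_mul, q.2, one_mul] at this
      rw [← d1] at h7
      have h8 : Real.cos (ρ + ρ₁) ^ 2 ≤ (Real.cos ρ * Real.cos ρ₁) ^ 2 +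
          (Real.sin ρ * Real.sin ρ₁) ^ 2 +
          2 * Real.cos ρ₁ * Real.sin ρ₁ * Real.sin ρ * re (q.1 * X.1 0) := by
        rw [Real.cos_add]
        nlinarith [mul_le_mul_of_nonneg_left h7 hcoef]
      refine lt_of_lt_of_le ?_ h8
      have h9 : Real.cos r < Real.cos (Real.pi - (ρ + ρ₁)) := by
        refine Real.cos_lt_cos_of_nonneg_of_le_pi (by linarith) (by linarith) ?_
        linarith [lt_of_not_ge hcase]
      rw [Real.cos_pi_sub] at h9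
      nlinarith

end

end Pool.Agent.H48.FRCO
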