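import Pool.Agent.H48.FR.Targets

/-!
MP_6a7a6f_gt: the contraction of the projective spaces for a general function on `𝕜^n` which
selects a part of the ring.
-/

namespace Pool.Agent.H48.FR

open Filter Topology

noncomputable section

/-- a selector of degree `2 m + 1` on `𝕜^n`: its restrictions to great circles of unit scalars are
homogeneous trigonometric polynomials, and on no line of `𝕜^n` it is a linear function of the
unit scalars -/
structure Sel (𝕜 : Type) [NormedDivisionRing 𝕜] [StarRing 𝕜] [NormedAlgebra ℝ 𝕜] [PF 𝕜]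
    (n m : ℕ) (g : (Fin n → 𝕜) → ℝ) : Prop where
  cont : Continuous g
  circ : ∀ (v : Fin n → 𝕜) (q u : 𝕜), ∃ c : ℕ → ℝ, ∀ θ : ℝ,
    g (fun j => (rs (Real.cos θ) * q + rs (Real.sin θ) * u) * v j) = tp (2 * m + 1) c θ
  nz : ∀ (v : Fin n → 𝕜) (b : 𝕜), v ≠ 0 → ∃ q : 𝕜, ‖q‖ = 1 ∧ g (fun j => q * v j) ≠ re (q * b)

variable {𝕜 : Type} [NormedDivisionRing 𝕜] [StarRing 𝕜] [NormedAlgebra ℝ 𝕜] [PF 𝕜] {n m : ℕ}

/-- the function which selects a part of the ring -/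
def FG (g : (Fin n → 𝕜) → ℝ) (x : Fin (n + 1) → 𝕜) (s : ℝ) (q : 𝕜) : ℝ :=
  (1 - s) * re (q * x 0) + s * g (fun j => q * vv x j)

lemma tp_neg_arg (N : ℕ) (c : ℕ → ℝ) (θ : ℝ) (hN : Odd N) : tp N c (θ + Real.pi) = -tp N c θ := by
  unfold tp
  rw [← Finset.sum_neg_distrib]
  refine Finset.sum_congr rfl fun k hk => ?_
  rw [Real.cos_add_pi, Real.sin_add_pi]
  rw [Finset.mem_range] at hk
  have h1 : (-Real.cos θ) ^ (N - k) * (-Real.sin θ) ^ k =
      -(Real.cos θ ^ (N - k) * Real.sin θ ^ k) := by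
    rw [neg_pow (Real.cos θ), neg_pow (Real.sin θ)]
    have h2 : (-1 : ℝ) ^ (N - k) * (-1 : ℝ) ^ k = -1 := by
      rw [← pow_add, Nat.sub_add_cancel (by omega)]
      exact hN.neg_one_pow
    calc _ = ((-1 : ℝ) ^ (N - k) * (-1 : ℝ) ^ k) * (Real.cos θ ^ (N - k) * Real.sin θ ^ k) := by
          ring
      _ = _ := by rw [h2]; ring
  rw [h1]
  ring

/-- a selector is odd -/
lemma Sel.odd {g : (Fin n → 𝕜) → ℝ} (hg : Sel 𝕜 n m g) (v : Fin n → 𝕜) (q : 𝕜) :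
    g (fun j => -q * v j) = -g (fun j => q * v j) := by
  obtain ⟨c, hc⟩ := hg.circ v q 0
  have h0 := hc 0
  have h1 := hc Real.pi
  have h2 := tp_neg_arg (2 * m + 1) c 0 ⟨m, rfl⟩
  rw [zero_add] at h2
  rw [h2, ← h0] at h1
  have e0 : (fun j => (rs (Real.cos 0) * q + rs (Real.sin 0) * 0) * v j) =
      fun j => q * v j := by
    funext j
    rw [Real.cos_zero, Real.sin_zero, mul_zero, add_zero, rs, map_one, one_mul]
  have e1 : (fun j => (rs (Real.cos Real.pi) * q + rs (Real.sin Real.pi) * 0) * v j) =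
      fun j => -q * v j := by
    funext j
    rw [Real.cos_pi, mul_zero, add_zero, rs, map_neg, map_one, neg_mul, one_mul]
  rw [e0, e1] at h1
  exact h1

lemma FG_neg {g : (Fin n → 𝕜) → ℝ} (hg : Sel 𝕜 n m g) (x : Fin (n + 1) → 𝕜) (s : ℝ) (a : 𝕜) :
    FG g x s (-a) = -FG g x s a := by
  unfold FG
  rw [neg_mul, re_neg, hg.odd]
  ring

/-- the linear function along a great circle -/
lemma lin_tp (q w b : 𝕜) (m : ℕ) : ∃ c : ℕ → ℝ, ∀ θ : ℝ,
    re ((rs (Real.cos θ) * q + rs (Real.sin θ) * w) * b) = tp (2 * m + 1) c θ := by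
  have h1 : ∀ θ : ℝ, re ((rs (Real.cos θ) * q + rs (Real.sin θ) * w) * b) =
      Real.cos θ * re (q * b) + Real.sin θ * re (w * b) := by
    intro θ
    rw [add_mul, mul_assoc, mul_assoc, re_add, re_rs_mul, re_rs_mul]
  have h2 : ∀ i : ℕ, ∃ c : ℕ → ℝ, ∀ θ : ℝ,
      Real.cos θ * re (q * b) + Real.sin θ * re (w * b) = tp (2 * i + 1) c θ := by
    intro i
    induction i with
    | zero =>
      refine ⟨fun k => if k = 0 then re (q * b) else re (w * b), fun θ => ?_⟩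
      unfold tp
      rw [Finset.sum_range_succ, Finset.sum_range_one]
      simp
      ring
    | succ i ih =>
      obtain ⟨c, hc⟩ := ih
      refine ⟨fun k => (if k ≤ 2 * i + 1 then c k else 0) + (if 2 ≤ k then c (k - 2) else 0),
        fun θ => ?_⟩
      rw [hc]
      have e1 : tp (2 * i + 1) c θ = tp (2 * i + 1) c θ * Real.cos θ ^ 2 +
          tp (2 * i + 1) c θ * Real.sin θ ^ 2 := by
        rw [← mul_add, Real.cos_sq_add_sin_sq, mul_one]
      rw [e1]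
      have e2 : tp (2 * (i + 1) + 1) (fun k => if k ≤ 2 * i + 1 then c k else 0) θ =
          tp (2 * i + 1) c θ * Real.cos θ ^ 2 := by
        unfold tp
        rw [show 2 * (i + 1) + 1 + 1 = (2 * i + 1 + 1) + 1 + 1 by ring, Finset.sum_range_succ,
          Finset.sum_range_succ]
        beta_reduce
        rw [if_neg (by omega), if_neg (by omega), zero_mul, add_zero,
          zero_mul, add_zero, Finset.sum_mul]
        refine Finset.sum_congr rfl fun k hk => ?_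
        rw [Finset.mem_range] at hk
        rw [if_pos (by omega), show 2 * (i + 1) + 1 - k = (2 * i + 1 - k) + 2 by omega, pow_add]
        ring
      have e3 : tp (2 * (i + 1) + 1) (fun k => if 2 ≤ k then c (k - 2) else 0) θ =
          tp (2 * i + 1) c θ * Real.sin θ ^ 2 := by
        unfold tp
        rw [show 2 * (i + 1) + 1 + 1 = 2 + (2 * i + 1 + 1) by ring, Finset.sum_range_add,
          Finset.sum_range_succ, Finset.sum_range_one]
        beta_reduce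
        rw [if_neg (by omega), if_neg (by omega),
          zero_mul, zero_mul, add_zero, zero_add, Finset.sum_mul]
        refine Finset.sum_congr rfl fun k hk => ?_
        rw [Finset.mem_range] at hk
        rw [if_pos (by omega), show 2 + k - 2 = k by omega,
          show 2 * (i + 1) + 1 - (2 + k) = 2 * i + 1 - k by omega, pow_add _ 2 k]
        ring
      rw [← e2, ← e3]
      unfold tp
      rw [← Finset.sum_add_distrib]
      exact Finset.sum_congr rfl fun k _ => by ring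
  obtain ⟨c, hc⟩ := h2 m
  exact ⟨c, fun θ => by rw [h1, hc]⟩

/-- `FG g x s` along a great circle -/
lemma FG_tp {g : (Fin n → 𝕜) → ℝ} (hg : Sel 𝕜 n m g) (x : Fin (n + 1) → 𝕜) (s : ℝ) (q w : 𝕜) :
    ∃ c : ℕ → ℝ, ∀ θ : ℝ, FG g x s (rs (Real.cos θ) * q + rs (Real.sin θ) * w) =
      tp (2 * m + 1) c θ := by
  obtain ⟨c0, hc0⟩ := lin_tp q w (x 0) m
  obtain ⟨c1, hc1⟩ := hg.circ (vv x) q w
  refine ⟨fun k => (1 - s) * c0 k + s * c1 k, fun θ => ?_⟩
  have h : tp (2 * m + 1) (fun k => (1 - s) * c0 k + s * c1 k) θ =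
      (1 - s) * tp (2 * m + 1) c0 θ + s * tp (2 * m + 1) c1 θ := by
    unfold tp
    rw [Finset.mul_sum, Finset.mul_sum, ← Finset.sum_add_distrib]
    exact Finset.sum_congr rfl fun k _ => by ring
  rw [h, ← hc0, ← hc1]
  rfl

/-- two points of maximum of `FG g x s` are not almost antipodal -/
theorem FG_far (hRZ : T_RZ) {g₀ : (Fin n → 𝕜) → ℝ} (hg₀ : Sel 𝕜 n m g₀)
    (x : Fin (n + 1) → 𝕜) (s : ℝ) (q q' : 𝕜) (hm : 1 ≤ m) (hq : ‖q‖ = 1) (hq' : ‖q'‖ = 1)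
    (hmax : ∀ a : 𝕜, ‖a‖ = 1 → FG g₀ x s a ≤ FG g₀ x s q)
    (hmax' : ∀ a : 𝕜, ‖a‖ = 1 → FG g₀ x s a ≤ FG g₀ x s q')
    (hpos : 0 < FG g₀ x s q) : -Real.cos (Real.pi / (2 * m + 1)) ≤ re (q * star q') := by
  by_contra hcon
  push Not at hcon
  have hM : FG g₀ x s q' = FG g₀ x s q := le_antisymm (hmax q' hq') (hmax' q hq)
  have hab : ∀ a : 𝕜, ‖a‖ = 1 → |FG g₀ x s a| ≤ FG g₀ x s q := by
    intro a ha
    rw [abs_le]
    refine ⟨?_, hmax a ha⟩
    have h1 := hmax (-a) (by rw [norm_neg]; exact ha)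
    rw [FG_neg hg₀] at h1
    linarith
  have hqq : re (q * star q) = 1 := by rw [re_self_mul_star, hq, one_pow]
  set u : 𝕜 := -q' with hu
  have hun : ‖u‖ = 1 := by rw [hu, norm_neg]; exact hq'
  have hFu : FG g₀ x s u = -FG g₀ x s q := by rw [hu, FG_neg hg₀, hM]
  set c : ℝ := re (u * star q) with hc
  have hc1 : c = -re (q * star q') := by
    rw [hc, hu, neg_mul, re_neg, ← re_star (q * star q'), star_mul, star_star]
  have hcn : ‖u * star q‖ = 1 := by rw [norm_mul, norm_star', hun, hq, one_mul]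
  have hcabs : |c| ≤ 1 := by
    have := abs_re_le (u * star q)
    rwa [hcn] at this
  have hcl := (abs_le.mp hcabs).1
  have hcr := (abs_le.mp hcabs).2
  have hcgt : Real.cos (Real.pi / (2 * m + 1)) < c := by rw [hc1]; linarith
  set g : ℝ := Real.arccos c with hg
  have hcg : Real.cos g = c := Real.cos_arccos hcl hcr
  have hg0 : 0 ≤ g := Real.arccos_nonneg c
  have hgpi : g ≤ Real.pi := Real.arccos_le_pi c
  have hglt : g < Real.pi / (2 * m + 1) := by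
    by_contra h1
    push Not at h1
    have h2 := Real.cos_le_cos_of_nonneg_of_le_pi (by positivity) hgpi h1
    rw [hcg] at h2
    linarith
  have hgpos : 0 < g := by
    rcases hg0.lt_or_eq with h1 | h1
    · exact h1
    · exfalso
      have h2 : c = 1 := by rw [← hcg, ← h1, Real.cos_zero]
      have h3 : u * star q = 1 := by
        have h4 := eq_of_re_eq_norm (a := u * star q) (by rw [hcn]; exact h2)
        rwa [hcn, map_one] at h4
      have h5 : u = q := by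
        have h6 : u * (star q * q) = q := by rw [← mul_assoc, h3, one_mul]
        rwa [star_mul_self, hq, one_pow, map_one, mul_one] at h6
      rw [h5] at hFu
      linarith
  have hsin : 0 < Real.sin g := by
    apply Real.sin_pos_of_pos_of_lt_pi hgpos
    refine lt_of_lt_of_le hglt ?_
    apply div_le_self Real.pi_pos.le
    have : (0 : ℝ) ≤ m := Nat.cast_nonneg m
    linarith
  set w : 𝕜 := rs (Real.sin g)⁻¹ * (u + rs (-Real.cos g) * q) with hw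
  have hv2 : ‖u + rs (-Real.cos g) * q‖ ^ 2 = Real.sin g ^ 2 := by
    rw [norm_add_sq, hun, norm_mul, norm_rs, hq, star_mul, star_rs, ← mul_assoc, re_mul_rs, ← hc,
      ← hcg, abs_neg, mul_one, sq_abs]
    have := Real.sin_sq_add_cos_sq g
    linarith
  have hvn : ‖u + rs (-Real.cos g) * q‖ = Real.sin g := by
    rw [sq_eq_sq₀ (norm_nonneg _) hsin.le] at hv2
    exact hv2
  have hwn : ‖w‖ = 1 := by
    rw [hw, norm_mul, norm_rs, hvn, abs_of_pos (inv_pos.mpr hsin), inv_mul_cancel₀ hsin.ne']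
  have hwq : re (w * star q) = 0 := by
    rw [hw, mul_assoc, re_rs_mul, add_mul, re_add, mul_assoc, re_rs_mul, hqq, ← hc, hcg]
    ring
  have hqw : re (q * star w) = 0 := by
    rw [← re_star (q * star w), star_mul, star_star]
    exact hwq
  have hat : ∀ t : ℝ, ‖rs (Real.cos t) * q + rs (Real.sin t) * w‖ = 1 := by
    intro t
    have h1 : ‖rs (Real.cos t) * q + rs (Real.sin t) * w‖ ^ 2 = 1 := by
      rw [norm_add_sq, norm_mul, norm_mul, norm_rs, norm_rs, hq, hwn, mul_one, mul_one, sq_abs,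
        sq_abs, star_mul, star_rs, ← mul_assoc, re_mul_rs, mul_assoc, re_rs_mul, hqw]
      have := Real.sin_sq_add_cos_sq t
      linarith
    have h2 : ‖rs (Real.cos t) * q + rs (Real.sin t) * w‖ ^ 2 = 1 ^ 2 := by rw [h1, one_pow]
    exact (sq_eq_sq₀ (norm_nonneg _) zero_le_one).mp h2
  have ha0 : rs (Real.cos 0) * q + rs (Real.sin 0) * w = q := by
    rw [Real.cos_zero, Real.sin_zero, rs, rs, map_one, map_zero, one_mul, zero_mul, add_zero]
  have hag : rs (Real.cos g) * q + rs (Real.sin g) * w = u := by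
    have h1 : rs (Real.sin g) * w = u + rs (-Real.cos g) * q := by
      rw [hw, ← mul_assoc, rs, rs, ← map_mul, mul_inv_cancel₀ hsin.ne', map_one, one_mul]
    rw [h1, rs, rs, map_neg, neg_mul]
    abel
  obtain ⟨cc, hcc⟩ := FG_tp hg₀ x s q w
  refine hRZ (2 * m + 1) cc (FG g₀ x s q) g (by omega) hpos ?_ ?_ hgpos ?_ ?_
  · intro θ
    rw [← hcc θ]
    exact hab _ (hat θ)
  · rw [← hcc 0, ha0]
  · push_cast
    exact hglt
  · rw [← hcc g, hag, hFu]

omit [StarRing 𝕜] [PF 𝕜] in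
lemma continuous_rs : Continuous (rs : ℝ → 𝕜) := continuous_algebraMap ℝ 𝕜

omit [StarRing 𝕜] [NormedAlgebra ℝ 𝕜] [PF 𝕜] in
lemma continuous_nrm {m : ℕ} : Continuous (nrm : (Fin m → 𝕜) → ℝ) := by
  unfold nrm
  fun_prop

omit [StarRing 𝕜] [PF 𝕜] in
lemma yv_ne {ρ : ℝ} (h : Real.cos ρ ≠ 0) (x : Fin (n + 1) → 𝕜) (q : 𝕜) : yv ρ x q ≠ 0 := by
  intro h0
  have h1 : yv ρ x q 0 = (0 : 𝕜) := by rw [h0]; rfl
  have h2 : yv ρ x q 0 = rs (Real.cos ρ) := rfl
  rw [h2] at h1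
  have h3 : ‖(rs (Real.cos ρ) : 𝕜)‖ = 0 := by rw [h1, norm_zero]
  rw [norm_rs, abs_eq_zero] at h3
  exact h h3

/-- the slope of the parameter -/
def sg (ρ₂ ρ : ℝ) : ℝ := min 1 (max 0 ((ρ - ρ₂) / (Real.pi / 2 - ρ₂)))

lemma sg_zero {ρ₂ ρ : ℝ} (h : ρ₂ < Real.pi / 2) (h' : ρ ≤ ρ₂) : sg ρ₂ ρ = 0 := by
  unfold sg
  rw [max_eq_left (div_nonpos_of_nonpos_of_nonneg (by linarith) (by linarith))]
  exact min_eq_right zero_le_one

lemma sg_pos {ρ₂ ρ : ℝ} (h : ρ₂ < Real.pi / 2) (h' : ρ₂ < ρ) : 0 < sg ρ₂ ρ := by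
  unfold sg
  exact lt_min zero_lt_one (lt_max_of_lt_right (div_pos (by linarith) (by linarith)))

lemma sg_mem (ρ₂ ρ : ℝ) : sg ρ₂ ρ ∈ Set.Icc (0 : ℝ) 1 :=
  ⟨le_min zero_le_one (le_max_left _ _), min_le_left _ _⟩

lemma continuous_sg (ρ₂ : ℝ) : Continuous (sg ρ₂) := by
  unfold sg
  fun_prop

omit [PF 𝕜] [StarRing 𝕜] [NormedAlgebra ℝ 𝕜] in
lemma tl_smul (a : 𝕜) (x : Fin (n + 1) → 𝕜) : tl (a • x) = a • tl x := rfl

lemma vv_smul {a : 𝕜} (ha : ‖a‖ = 1) (x : Fin (n + 1) → 𝕜) (i : Fin n) :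
    vv (a • x) i = a * vv x i := by
  unfold vv
  rw [tl_smul, nrm_smul, ha, one_mul, Pi.smul_apply, smul_eq_mul, ← mul_assoc, rs_mul_comm,
    mul_assoc]

lemma yv_smul {a : 𝕜} (ha : ‖a‖ = 1) (ρ : ℝ) (x : Fin (n + 1) → 𝕜) (q : 𝕜) :
    yv ρ (a • x) q = yv ρ x (q * a) := by
  unfold yv
  congr 1
  funext i
  rw [vv_smul ha, mul_assoc q a]

lemma FG_smul (g : (Fin n → 𝕜) → ℝ) {a : 𝕜} (ha : ‖a‖ = 1) (x : Fin (n + 1) → 𝕜) (s : ℝ)
    (q : 𝕜) : FG g (a • x) s q = FG g x s (q * a) := by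
  unfold FG
  have h1 : ∀ i : Fin n, vv (a • x) i = a * vv x i := vv_smul ha x
  simp only [h1, Pi.smul_apply, smul_eq_mul, mul_assoc]

lemma continuousOn_vv (i : Fin n) :
    ContinuousOn (fun x : Fin (n + 1) → 𝕜 => vv x i) {x | tl x ≠ 0} := by
  unfold vv
  have h1 : Continuous fun x : Fin (n + 1) → 𝕜 => tl x := by
    unfold tl
    fun_prop
  have h2 : ContinuousOn (fun x : Fin (n + 1) → 𝕜 => (nrm (tl x))⁻¹) {x | tl x ≠ 0} := by
    refine ContinuousOn.inv₀ (continuous_nrm.comp h1).continuousOn fun x hx h => ?_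
    exact hx ((nrm_eq_zero_iff _).1 h)
  refine ContinuousOn.mul (continuous_rs.comp_continuousOn h2) ?_
  exact (((continuous_apply i).comp h1).continuousOn)

lemma nrm_vv {x : Fin (n + 1) → 𝕜} (hx : tl x ≠ 0) : nrm (vv x) = 1 := by
  have h : vv x = (rs (nrm (tl x))⁻¹ : 𝕜) • tl x := rfl
  have h0 : nrm (tl x) ≠ 0 := fun h => hx ((nrm_eq_zero_iff _).1 h)
  rw [h, nrm_smul, norm_rs, abs_of_nonneg (inv_nonneg.2 (nrm_nonneg _)), inv_mul_cancel₀ h0]

lemma nrm_yv {x : Fin (n + 1) → 𝕜} (hx : tl x ≠ 0) (ρ : ℝ) {q : 𝕜} (hq : ‖q‖ = 1) :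
    nrm (yv ρ x q) = 1 := by
  rw [nrm_eq_one_iff, Fin.sum_univ_succ]
  have h1 : yv ρ x q 0 = rs (Real.cos ρ) := rfl
  have h2 : ∀ i : Fin n, yv ρ x q i.succ = rs (Real.sin ρ) * (q * vv x i) := fun i => rfl
  have h3 : ∀ i : Fin n, ‖yv ρ x q i.succ‖ ^ 2 = Real.sin ρ ^ 2 * ‖vv x i‖ ^ 2 := by
    intro i
    rw [h2, norm_mul, norm_mul, hq, norm_rs, one_mul, mul_pow, sq_abs]
  have h4 : ∑ i : Fin n, ‖vv x i‖ ^ 2 = 1 := by
    rw [← nrm_sq, nrm_vv hx, one_pow]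
  rw [h1, norm_rs, sq_abs]
  simp only [h3]
  rw [← Finset.mul_sum, h4, mul_one]
  exact Real.cos_sq_add_sin_sq ρ

/-- a positive value of `FG g x s` -/
lemma FG_pos {g : (Fin n → 𝕜) → ℝ} (hg : Sel 𝕜 n m g) {x : Fin (n + 1) → 𝕜} {s : ℝ}
    (hx : tl x ≠ 0) (hs0 : 0 ≤ s) (h : s = 0 → x 0 ≠ 0) :
    ∃ q : 𝕜, ‖q‖ = 1 ∧ 0 < FG g x s q := by
  rcases hs0.eq_or_lt with hs | hs
  · obtain ⟨q, hq, hq1, -⟩ := exists_unit_re (x 0)
    refine ⟨q, hq, ?_⟩
    unfold FG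
    rw [← hs, sub_zero, one_mul, zero_mul, add_zero, hq1]
    exact norm_pos_iff.2 (h hs.symm)
  · have hv : vv x ≠ 0 := by
      intro h0
      have := nrm_vv hx
      rw [h0, (nrm_eq_zero_iff _).2 rfl] at this
      exact zero_ne_one this
    obtain ⟨q, hq, hne⟩ := hg.nz (vv x) (rs (-((1 - s) / s)) * x 0) hv
    have h0 : FG g x s q ≠ 0 := by
      intro h0
      apply hne
      unfold FG at h0
      rw [← mul_assoc, ← rs_mul_comm, mul_assoc, re_rs_mul]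
      field_simp
      linarith
    rcases lt_or_gt_of_ne h0 with h1 | h1
    · refine ⟨-q, by rw [norm_neg]; exact hq, ?_⟩
      rw [FG_neg hg]
      linarith
    · exact ⟨q, hq, h1⟩

/-- The contraction for the projective spaces. -/
theorem co_sel (hSP : T_SP) (hDS : T_DS) (hRZ : T_RZ) (hPA : T_PA) {g : (Fin n → 𝕜) → ℝ}
    (hg : Sel 𝕜 n m g) (hm : 1 ≤ m) {r : ℝ} (hr1 : 2 * rad m < r) (hr2 : r < Real.pi / 2) :
    ∃ Δ : Dat (PP 𝕜 n) (Sph 𝕜 n) (Usc 𝕜), Δ.r = r := by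
  obtain ⟨ρ₁, ρ₂, h1, h2, h3, h4, h5, h6⟩ := hPA.2 m r hm hr1 hr2
  obtain ⟨hcS, hcQ, hπc, hπs⟩ := hSP 𝕜 n
  have hpi := Real.pi_pos
  have hcos : Real.cos ρ₁ ≠ 0 :=
    (Real.cos_pos_of_mem_Ioo ⟨by linarith, by linarith⟩).ne'
  have hρ0 : 0 ≤ ρ₁ := by linarith
  have hρ1 : ρ₁ ≤ Real.pi / 2 := by linarith
  have hne : ∀ X : Sph 𝕜 n, prS X ≠ bp 𝕜 n → tl X.1 ≠ 0 := fun X =>
    (hDS 𝕜 n ρ₁ X hρ0 hρ1).1.2.2
  have hnrm : ∀ X : Sph 𝕜 n, prS X ≠ bp 𝕜 n → ∀ q : Usc 𝕜, nrm (yv ρ₁ X.1 q.1) = 1 :=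
    fun X hX q => nrm_yv (hne X hX) ρ₁ q.2
  refine ⟨{
    π := prS
    p := bp 𝕜 n
    y := fun X q => PP.mk (yv ρ₁ X.1 q.1) (yv_ne hcos _ _)
    F := fun X s q => FG g X.1 s q.1
    σ := sg ρ₂
    r := r
    hπ := hπc
    surj := hπs
    hσ := continuous_sg ρ₂
    σ_mem := sg_mem ρ₂
    r_pos := by linarith
    hy := ?_
    hF := ?_
    inv := ?_
    dist_p := ?_
    pair := ?_
    near := ?_ }, rfl⟩
  · rw [continuousOn_iff_continuous_domRestrict]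
    have h7 : Continuous fun Z : {Z : Sph 𝕜 n × Usc 𝕜 // prS Z.1 ≠ bp 𝕜 n} =>
        (⟨yv ρ₁ Z.1.1.1 Z.1.2.1, hnrm Z.1.1 Z.2 Z.1.2⟩ : Sph 𝕜 n) := by
      refine Continuous.subtype_mk (continuous_pi fun i => ?_) _
      refine Fin.cases ?_ (fun j => ?_) i
      · exact continuous_const
      · have h8 : Continuous fun Z : {Z : Sph 𝕜 n × Usc 𝕜 // prS Z.1 ≠ bp 𝕜 n} =>
            vv Z.1.1.1 j := by
          refine ContinuousOn.comp_continuous (continuousOn_vv j) (by fun_prop) ?_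
          intro Z
          exact hne Z.1.1 Z.2
        have h9 : Continuous fun Z : {Z : Sph 𝕜 n × Usc 𝕜 // prS Z.1 ≠ bp 𝕜 n} =>
            (rs (Real.sin ρ₁) : 𝕜) * (Z.1.2.1 * vv Z.1.1.1 j) :=
          continuous_const.mul ((by fun_prop : Continuous fun Z :
            {Z : Sph 𝕜 n × Usc 𝕜 // prS Z.1 ≠ bp 𝕜 n} => Z.1.2.1).mul h8)
        exact h9
    exact hπc.comp h7
  · rw [continuousOn_iff_continuous_domRestrict]
    have h8 : ∀ j, Continuous fun Z : {Z : Sph 𝕜 n × ℝ × Usc 𝕜 // prS Z.1 ≠ bp 𝕜 n} =>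
        vv Z.1.1.1 j := by
      intro j
      refine ContinuousOn.comp_continuous (continuousOn_vv j) (by fun_prop) ?_
      intro Z
      exact hne Z.1.1 Z.2
    have hq : Continuous fun Z : {Z : Sph 𝕜 n × ℝ × Usc 𝕜 // prS Z.1 ≠ bp 𝕜 n} =>
        Z.1.2.2.1 := by fun_prop
    have hs : Continuous fun Z : {Z : Sph 𝕜 n × ℝ × Usc 𝕜 // prS Z.1 ≠ bp 𝕜 n} =>
        Z.1.2.1 := by fun_prop
    have hx0 : Continuous fun Z : {Z : Sph 𝕜 n × ℝ × Usc 𝕜 // prS Z.1 ≠ bp 𝕜 n} =>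
        Z.1.1.1 0 := by
      have h10 : Continuous fun Z : {Z : Sph 𝕜 n × ℝ × Usc 𝕜 // prS Z.1 ≠ bp 𝕜 n} =>
        Z.1.1.1 := by fun_prop
      exact (continuous_apply 0).comp h10
    have h9 : Continuous fun Z : {Z : Sph 𝕜 n × ℝ × Usc 𝕜 // prS Z.1 ≠ bp 𝕜 n} =>
        (1 - Z.1.2.1) * re (Z.1.2.2.1 * Z.1.1.1 0) +
          Z.1.2.1 * g (fun j => Z.1.2.2.1 * vv Z.1.1.1 j) := by
      refine ((continuous_const.sub hs).mul (continuous_re.comp (hq.mul hx0))).add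
        (hs.mul (hg.cont.comp (continuous_pi fun j => ?_)))
      exact hq.mul (h8 j)
    exact h9
  · intro X X' h q
    obtain ⟨a, ha, hX⟩ := (PP.mk_eq_iff (sph_ne X) (sph_ne X')).1 h
    have ha1 : ‖a‖ = 1 := by
      have := X.2
      rw [← hX, nrm_smul, X'.2, mul_one] at this
      exact this
    refine ⟨⟨q.1 * a, by rw [norm_mul, q.2, ha1, mul_one]⟩, ?_, fun s => ?_⟩
    · have e : yv ρ₁ X.1 q.1 = yv ρ₁ X'.1 (q.1 * a) := by rw [← hX, yv_smul ha1]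
      simp only [e]
    · change FG g X.1 s q.1 = FG g X'.1 s (q.1 * a)
      rw [← hX, FG_smul g ha1]
  · intro X q hX
    obtain ⟨hy, -, e, -⟩ := (hDS 𝕜 n ρ₁ X hρ0 hρ1).2 (hne X hX) q.1 q.1 q.2 q.2
    have e' : dist (bp 𝕜 n) (PP.mk (yv ρ₁ X.1 q.1) (yv_ne hcos _ _)) = ρ₁ := e
    rw [e']
    exact h2.le
  · intro X hX s hs q q' hq hq'
    have hs0 : 0 ≤ s := (sg_mem ρ₂ _).1.trans hs.1
    have hx := hne X hX
    obtain ⟨d1, d2, -⟩ := (hDS 𝕜 n ρ₁ X hρ0 hρ1).1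
    obtain ⟨a, ha, hapos⟩ := FG_pos hg (x := X.1) (s := s) hx hs0 (by
      intro hs00 hx0
      have h7 : sg ρ₂ (dist (bp 𝕜 n) (prS X)) = 0 :=
        le_antisymm (by rw [← hs00]; exact hs.1) (sg_mem ρ₂ _).1
      have h8 : dist (bp 𝕜 n) (prS X) ≤ ρ₂ := by
        by_contra hc
        exact (sg_pos h5 (lt_of_not_ge hc)).ne' h7
      rw [hx0, norm_zero] at d1
      have h9 : 0 < Real.cos (dist (bp 𝕜 n) (prS X)) :=
        Real.cos_pos_of_mem_Ioo ⟨by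
          have h10 : 0 ≤ dist (bp 𝕜 n) (prS X) := dist_nonneg
          linarith, by linarith⟩
      exact h9.ne' d1)
    have hpos : 0 < FG g X.1 s q.1 := hapos.trans_le (hq ⟨a, ha⟩)
    have hfa := FG_far hRZ hg X.1 s q.1 q'.1 hm q.2 q'.2 (fun a ha => hq ⟨a, ha⟩)
      (fun a ha => hq' ⟨a, ha⟩) hpos
    obtain ⟨hy, hy', -, e, -⟩ := (hDS 𝕜 n ρ₁ X hρ0 hρ1).2 hx q.1 q'.1 q.2 q'.2
    by_contra hc
    have hc' : r ≤ dist (PP.mk (yv ρ₁ X.1 q.1) hy) (PP.mk (yv ρ₁ X.1 q'.1) hy') :=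
      le_of_not_gt hc
    have h7 := dist_le_pi_div_two (PP.mk (yv ρ₁ X.1 q.1) hy) (PP.mk (yv ρ₁ X.1 q'.1) hy')
    have h8 : Real.cos (2 * dist (PP.mk (yv ρ₁ X.1 q.1) hy) (PP.mk (yv ρ₁ X.1 q'.1) hy')) ≤
        Real.cos (2 * r) :=
      Real.cos_le_cos_of_nonneg_of_le_pi (by linarith) (by linarith) (by linarith)
    rw [e] at h8
    have h9 : -Real.cos (Real.pi / (2 * m + 1)) * Real.sin (2 * ρ₁) ^ 2 ≤
        re (q.1 * star q'.1) * Real.sin (2 * ρ₁) ^ 2 :=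
      mul_le_mul_of_nonneg_right hfa (sq_nonneg _)
    nlinarith
  · intro X hX q hq
    have hx := hne X hX
    obtain ⟨d1, d2, -⟩ := (hDS 𝕜 n ρ₁ X hρ0 hρ1).1
    obtain ⟨hy, -, -, -, e⟩ := (hDS 𝕜 n ρ₁ X hρ0 hρ1).2 hx q.1 q.1 q.2 q.2
    set ρ := dist (bp 𝕜 n) (prS X) with hρ
    have hρn : 0 ≤ ρ := dist_nonneg
    have hρp : ρ ≤ Real.pi / 2 := dist_le_pi_div_two _ _
    rw [← d1, ← d2] at e
    have hsr : 0 ≤ Real.cos r := Real.cos_nonneg_of_mem_Icc ⟨by linarith, by linarith⟩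
    -- it is enough to have a lower bound for the square of the cosine
    have fin : Real.cos r ^ 2 < Real.cos (dist (prS X) (PP.mk (yv ρ₁ X.1 q.1) hy)) ^ 2 →
        dist (prS X) (PP.mk (yv ρ₁ X.1 q.1) hy) < r := by
      intro h
      by_contra hc
      have hc' := le_of_not_gt hc
      have h7 := dist_le_pi_div_two (prS X) (PP.mk (yv ρ₁ X.1 q.1) hy)
      have h8 : Real.cos (dist (prS X) (PP.mk (yv ρ₁ X.1 q.1) hy)) ≤ Real.cos r :=
        Real.cos_le_cos_of_nonneg_of_le_pi (by linarith) (by linarith) hc'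
      have h9 : 0 ≤ Real.cos (dist (prS X) (PP.mk (yv ρ₁ X.1 q.1) hy)) :=
        Real.cos_nonneg_of_mem_Icc ⟨by
          have h10 : 0 ≤ dist (prS X) (PP.mk (yv ρ₁ X.1 q.1) hy) := dist_nonneg
          linarith, h7⟩
      nlinarith
    refine fin ?_
    rw [e]
    have c0 : 0 ≤ Real.cos ρ := Real.cos_nonneg_of_mem_Icc ⟨by linarith, hρp⟩
    have s0 : 0 ≤ Real.sin ρ := Real.sin_nonneg_of_nonneg_of_le_pi hρn (by linarith)
    have c1 : 0 ≤ Real.cos ρ₁ := Real.cos_nonneg_of_mem_Icc ⟨by linarith, hρ1⟩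
    have s1 : 0 ≤ Real.sin ρ₁ := Real.sin_nonneg_of_nonneg_of_le_pi hρ0 (by linarith)
    have hcoef : 0 ≤ 2 * Real.cos ρ₁ * Real.sin ρ₁ * Real.sin ρ := by positivity
    by_cases hcase : ρ ≤ ρ₂
    · have hσ : sg ρ₂ ρ = 0 := sg_zero h5 hcase
      obtain ⟨a, ha, ha1, -⟩ := exists_unit_re (X.1 0)
      have h7 := hq ⟨a, ha⟩
      change FG g X.1 (sg ρ₂ ρ) a ≤ FG g X.1 (sg ρ₂ ρ) q.1 at h7
      rw [hσ] at h7
      unfold FG at h7
      rw [sub_zero, one_mul, one_mul, zero_mul, zero_mul, add_zero, add_zero, ha1, ← d1] at h7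
      have h8 : Real.cos (ρ - ρ₁) ^ 2 ≤ (Real.cos ρ * Real.cos ρ₁) ^ 2 +
          (Real.sin ρ * Real.sin ρ₁) ^ 2 +
          2 * Real.cos ρ₁ * Real.sin ρ₁ * Real.sin ρ * re (q.1 * X.1 0) := by
        rw [Real.cos_sub]
        nlinarith [mul_le_mul_of_nonneg_left h7 hcoef]
      refine lt_of_lt_of_le ?_ h8
      have h9 : Real.cos r < Real.cos (ρ - ρ₁) := by
        rw [← Real.cos_abs (ρ - ρ₁)]
        refine Real.cos_lt_cos_of_nonneg_of_le_pi (abs_nonneg _) (by linarith) ?_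
        rw [abs_lt]
        constructor <;> linarith
      nlinarith
    · have h7 : -‖X.1 0‖ ≤ re (q.1 * X.1 0) := by
        have := (abs_le.1 (abs_re_le (q.1 * X.1 0))).1
        rwa [norm_mul, q.2, one_mul] at this
      rw [← d1] at h7
      have h8 : Real.cos (ρ + ρ₁) ^ 2 ≤ (Real.cos ρ * Real.cos ρ₁) ^ 2 +
          (Real.sin ρ * Real.sin ρ₁) ^ 2 +
          2 * Real.cos ρ₁ * Real.sin ρ₁ * Real.sin ρ * re (q.1 * X.1 0) := by
        rw [Real.cos_add]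
        nlinarith [mul_le_mul_of_nonneg_left h7 hcoef]
      refine lt_of_lt_of_le ?_ h8
      have h9 : Real.cos r < Real.cos (Real.pi - (ρ + ρ₁)) := by
        refine Real.cos_lt_cos_of_nonneg_of_le_pi (by linarith) (by linarith) ?_
        linarith [lt_of_not_ge hcase]
      rw [Real.cos_pi_sub] at h9
      nlinarith


/-- The Kuratowski map of the projective space is null-homotopic in the neighbourhood of radius
`ε` of its image, for each `ε > rad m`, if there is a selector of degree `2 m + 1`. -/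
theorem fi_sel (hSP : T_SP) (hDS : T_DS) (hRZ : T_RZ) (hPA : T_PA) (hAB : T_AB)
    {g : (Fin n → 𝕜) → ℝ} (hg : Sel 𝕜 n m g) (hm : 1 ≤ m) {ε : ℝ} (hε : 0 < ε)
    (hlt : rad m < ε) : (kurU (PP 𝕜 n) ε hε).Nullhomotopic := by
  have hpi := Real.pi_pos
  obtain ⟨h1, h2⟩ := hPA.1 m hm
  have hmin : 2 * rad m < min (2 * ε) (Real.pi / 2) := lt_min (by linarith) (by linarith)
  obtain ⟨Δ, hΔ⟩ := co_sel hSP hDS hRZ hPA hg hm
    (r := (2 * rad m + min (2 * ε) (Real.pi / 2)) / 2) (by linarith)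
    (by have := min_le_right (2 * ε) (Real.pi / 2); linarith)
  obtain ⟨hcS, hcQ, hπc, hπs⟩ := hSP 𝕜 n
  have hcM : CompactSpace (PP 𝕜 n) := by
    have : Set.range (prS : Sph 𝕜 n → PP 𝕜 n) = Set.univ := hπs.range_eq
    rw [← isCompact_univ_iff, ← this]
    exact isCompact_range hπc
  have hne : Nonempty (Usc 𝕜) := ⟨⟨1, norm_one⟩⟩
  refine hAB (PP 𝕜 n) (Sph 𝕜 n) (Usc 𝕜) Δ ε hε ?_
  rw [hΔ]
  have := min_le_left (2 * ε) (Real.pi / 2)
  linarith

end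

end Pool.Agent.H48.FR
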