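import Pool.Agent.H48.FR.Targets

/-!
MP_6a7a6f_gt, module FI: the null-homotopy for the projective spaces.
-/

namespace Pool.Agent.H48.FRFI

open Pool.Agent.H48.FR

/-- FI. -/
theorem fi (hPA : T_PA) (hCO : T_CO) (hAB : T_AB) (hSP : T_SP) : T_FI := by
  intro 𝕜 _ _ _ _ n ε hε hn hlt
  have hpi := Real.pi_pos
  obtain ⟨h1, h2⟩ := hPA.1 n hn
  have hmin : 2 * rad n < min (2 * ε) (Real.pi / 2) := lt_min (by linarith) (by linarith)
  obtain ⟨Δ, hΔ⟩ := hCO 𝕜 n ((2 * rad n + min (2 * ε) (Real.pi / 2)) / 2) hn (by linarith)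
    (by have := min_le_right (2 * ε) (Real.pi / 2); linarith)
  obtain ⟨hcS, hcQ, hπc, hπs⟩ := hSP 𝕜 n
  have hcM : CompactSpace (PP 𝕜 n) := by
    have : Set.range (prS : Sph 𝕜 n → PP 𝕜 n) = Set.univ := hπs.range_eq
    rw [← isCompact_univ_iff, ← this]
    exact isCompact_range hπc
  have hne : Nonempty (Usc 𝕜) := ⟨⟨1, norm_one⟩⟩
  refine hAB (PP 𝕜 n) (Sph 𝕜 n) (Usc 𝕜) Δ ε hε ?_
  rw [hΔ]
  have := min_le_left (2 * ε) (Real.pi / 2)
  linarith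

end Pool.Agent.H48.FRFI
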