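import Mathlib

/-!
MP_6a7a6f_gt: the Kuratowski map of a bounded metric space, its open neighbourhoods, and the
filling radius; a null-homotopic Kuratowski map bounds in positive degrees.
-/

namespace Pool.Agent.H48.FR

noncomputable section

open CategoryTheory
open scoped ENNReal

/-- the Kuratowski map `m ↦ dist m ·` into the Banach space of bounded real functions on `M` -/
def kur (M : Type) [MetricSpace M] [BoundedSpace M] (m : M) : lp (fun _ : M => ℝ) ∞ :=
  ⟨fun z => dist m z, by
    refine memℓp_infty ⟨Metric.diam (Set.univ : Set M), ?_⟩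
    rintro _ ⟨z, rfl⟩
    change ‖dist m z‖ ≤ _
    rw [Real.norm_of_nonneg dist_nonneg]
    exact Metric.dist_le_diam_of_mem (Bornology.IsBounded.all _) (Set.mem_univ _)
      (Set.mem_univ _)⟩

variable {M : Type} [MetricSpace M] [BoundedSpace M]

@[simp] lemma kur_apply (m z : M) : (kur M m : M → ℝ) z = dist m z := rfl

lemma dist_kur_le (m m' : M) : dist (kur M m) (kur M m') ≤ dist m m' := by
  rw [dist_eq_norm]
  refine lp.norm_le_of_forall_le dist_nonneg fun z => ?_
  rw [lp.coeFn_sub, Pi.sub_apply, kur_apply, kur_apply, Real.norm_eq_abs]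
  exact abs_dist_sub_le m m' z

lemma continuous_kur : Continuous (kur M) := by
  refine LipschitzWith.continuous (K := 1) (LipschitzWith.of_dist_le_mul fun m m' => ?_)
  simpa using dist_kur_le m m'

/-- the open neighbourhood of radius `ε` of the image of the Kuratowski map -/
def nbhd (M : Type) [MetricSpace M] [BoundedSpace M] (ε : ℝ) : Set (lp (fun _ : M => ℝ) ∞) :=
  Metric.thickening ε (Set.range (kur M))

lemma kur_mem_nbhd {ε : ℝ} (hε : 0 < ε) (m : M) : kur M m ∈ nbhd M ε :=
  Metric.self_subset_thickening hε _ ⟨m, rfl⟩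

/-- the Kuratowski map as a map into its open neighbourhood of radius `ε` -/
def kurU (M : Type) [MetricSpace M] [BoundedSpace M] (ε : ℝ) (hε : 0 < ε) :
    C(M, nbhd M ε) where
  toFun m := ⟨kur M m, kur_mem_nbhd hε m⟩
  continuous_toFun := continuous_kur.subtype_mk _

/-- `M` bounds in the open neighbourhood of radius `ε` in degree `d`: the Kuratowski map induces
zero on the `d`-th singular homology with integer coefficients -/
def Bounds (M : Type) [MetricSpace M] [BoundedSpace M] (d : ℕ) (ε : ℝ) : Prop :=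
  ∃ hε : 0 < ε,
    ((AlgebraicTopology.singularHomologyFunctor (ModuleCat.{0} ℤ) d).obj
      (ModuleCat.of ℤ ℤ)).map (TopCat.ofHom (kurU M ε hε)) = 0

/-- the filling radius, in degree `d` -/
def FillRad (M : Type) [MetricSpace M] [BoundedSpace M] (d : ℕ) : ℝ :=
  sInf {ε : ℝ | Bounds M d ε}

/-- a null-homotopic map induces zero on singular homology in positive degrees -/
lemma homology_map_eq_zero {X Y : Type} [TopologicalSpace X] [TopologicalSpace Y] (f : C(X, Y))
    (hf : f.Nullhomotopic) (d : ℕ) (hd : d ≠ 0) :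
    ((AlgebraicTopology.singularHomologyFunctor (ModuleCat.{0} ℤ) d).obj
      (ModuleCat.of ℤ ℤ)).map (TopCat.ofHom f) = 0 := by
  obtain ⟨y, ⟨H⟩⟩ := hf
  have h1 : ((AlgebraicTopology.singularHomologyFunctor (ModuleCat.{0} ℤ) d).obj
      (ModuleCat.of ℤ ℤ)).map (TopCat.ofHom f) =
      ((AlgebraicTopology.singularHomologyFunctor (ModuleCat.{0} ℤ) d).obj
      (ModuleCat.of ℤ ℤ)).map (TopCat.ofHom (ContinuousMap.const X y)) :=
    TopCat.Homotopy.congr_homologyMap_singularChainComplexFunctor
      (f := TopCat.ofHom f) (g := TopCat.ofHom (ContinuousMap.const X y)) H (ModuleCat.of ℤ ℤ) d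
  rw [h1]
  have h2 : TopCat.ofHom (ContinuousMap.const X y) =
      TopCat.ofHom (ContinuousMap.const X PUnit.unit) ≫
        TopCat.ofHom (ContinuousMap.const PUnit.{1} y) := rfl
  rw [h2, Functor.map_comp]
  have h3 : Limits.IsZero
      (((AlgebraicTopology.singularHomologyFunctor (ModuleCat.{0} ℤ) d).obj
      (ModuleCat.of ℤ ℤ)).obj (TopCat.of PUnit.{1})) :=
    AlgebraicTopology.isZero_singularHomologyFunctor_of_totallyDisconnectedSpace
      (ModuleCat.{0} ℤ) d (ModuleCat.of ℤ ℤ) (TopCat.of PUnit.{1}) hd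
  rw [h3.eq_zero_of_src (((AlgebraicTopology.singularHomologyFunctor (ModuleCat.{0} ℤ) d).obj
      (ModuleCat.of ℤ ℤ)).map (TopCat.ofHom (ContinuousMap.const PUnit.{1} y))), Limits.comp_zero]

lemma bounds_of_nullhomotopic {d : ℕ} (hd : d ≠ 0) {ε : ℝ} (hε : 0 < ε)
    (h : (kurU M ε hε).Nullhomotopic) : Bounds M d ε :=
  ⟨hε, homology_map_eq_zero _ h d hd⟩

lemma fillRad_le {d : ℕ} {a : ℝ} (h : ∀ ε, a < ε → Bounds M d ε) : FillRad M d ≤ a := by
  refine le_of_forall_pos_le_add fun δ hδ => ?_
  exact csInf_le ⟨0, fun ε hε => hε.1.le⟩ (h (a + δ) (by linarith))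

end

end Pool.Agent.H48.FR
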