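import Mathlib

/-!
MP_6a7a6f_gt: the scalars (complex numbers, quaternions), treated uniformly.
-/

namespace Pool.Agent.H48.FR

noncomputable section

/-- the properties of the complex numbers and of the quaternions which are used -/
class PF (𝕜 : Type) [NormedDivisionRing 𝕜] [StarRing 𝕜] [NormedAlgebra ℝ 𝕜] where
  re : 𝕜 →ₗ[ℝ] ℝ
  re_star : ∀ a : 𝕜, re (star a) = re a
  re_mul_comm : ∀ a b : 𝕜, re (a * b) = re (b * a)
  re_one : re 1 = 1
  self_mul_star : ∀ a : 𝕜, a * star a = algebraMap ℝ 𝕜 (‖a‖ ^ 2)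
  star_smul : ∀ (r : ℝ) (a : 𝕜), star (r • a) = r • star a
  J : 𝕜
  J_mul_J : J * J = -1
  re_J : re J = 0
  fin : FiniteDimensional ℝ 𝕜

variable {𝕜 : Type} [NormedDivisionRing 𝕜] [StarRing 𝕜] [NormedAlgebra ℝ 𝕜] [PF 𝕜]

/-- the real part -/
def re (a : 𝕜) : ℝ := PF.re a

lemma re_add (a b : 𝕜) : re (a + b) = re a + re b := map_add _ _ _
lemma re_sub (a b : 𝕜) : re (a - b) = re a - re b := map_sub _ _ _
lemma re_neg (a : 𝕜) : re (-a) = -re a := map_neg _ _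
lemma re_smul (r : ℝ) (a : 𝕜) : re (r • a) = r * re a := by
  unfold re; rw [map_smul]; rfl
@[simp] lemma re_zero : re (0 : 𝕜) = 0 := map_zero _
@[simp] lemma re_one : re (1 : 𝕜) = 1 := PF.re_one
lemma re_sum {ι : Type*} (s : Finset ι) (f : ι → 𝕜) : re (∑ i ∈ s, f i) = ∑ i ∈ s, re (f i) :=
  map_sum _ _ _
@[simp] lemma re_star (a : 𝕜) : re (star a) = re a := PF.re_star a
lemma re_mul_comm (a b : 𝕜) : re (a * b) = re (b * a) := PF.re_mul_comm a b
lemma star_smul' (r : ℝ) (a : 𝕜) : star (r • a) = r • star a := PF.star_smul r a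

lemma continuous_re : Continuous (re : 𝕜 → ℝ) := by
  have := PF.fin (𝕜 := 𝕜)
  exact LinearMap.continuous_of_finiteDimensional (PF.re (𝕜 := 𝕜))

lemma self_mul_star (a : 𝕜) : a * star a = algebraMap ℝ 𝕜 (‖a‖ ^ 2) := PF.self_mul_star a

lemma re_algebraMap (r : ℝ) : re (algebraMap ℝ 𝕜 r) = r := by
  rw [Algebra.algebraMap_eq_smul_one, re_smul, re_one, mul_one]

lemma star_algebraMap (r : ℝ) : star (algebraMap ℝ 𝕜 r) = algebraMap ℝ 𝕜 r := by
  rw [Algebra.algebraMap_eq_smul_one, star_smul', star_one]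

lemma star_mul_self (a : 𝕜) : star a * a = algebraMap ℝ 𝕜 (‖a‖ ^ 2) := by
  by_cases ha : a = 0
  · simp [ha]
  · have h : a * (star a * a) = a * algebraMap ℝ 𝕜 (‖a‖ ^ 2) := by
      rw [← mul_assoc, self_mul_star, Algebra.commutes]
    exact mul_left_cancel₀ ha h

lemma norm_star' (a : 𝕜) : ‖star a‖ = ‖a‖ := by
  have h := self_mul_star (star a)
  rw [star_star, star_mul_self] at h
  have h' := (algebraMap ℝ 𝕜).injective h
  have := (sq_eq_sq₀ (norm_nonneg a) (norm_nonneg (star a))).1 h'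
  exact this.symm

lemma re_self_mul_star (a : 𝕜) : re (a * star a) = ‖a‖ ^ 2 := by
  rw [self_mul_star, re_algebraMap]

omit [StarRing 𝕜] [PF 𝕜] in
lemma norm_algebraMap'' (r : ℝ) : ‖algebraMap ℝ 𝕜 r‖ = |r| := by
  rw [norm_algebraMap', Real.norm_eq_abs]

/-- the square of the norm of a sum -/
lemma norm_add_sq (a b : 𝕜) : ‖a + b‖ ^ 2 = ‖a‖ ^ 2 + ‖b‖ ^ 2 + 2 * re (a * star b) := by
  rw [← re_self_mul_star (a + b), star_add, mul_add, add_mul, add_mul, re_add, re_add, re_add,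
    re_self_mul_star, re_self_mul_star]
  have : re (b * star a) = re (a * star b) := by
    rw [← re_star (b * star a), star_mul, star_star]
  rw [this]; ring

lemma abs_re_le (a : 𝕜) : |re a| ≤ ‖a‖ := by
  have h : ‖a + algebraMap ℝ 𝕜 (-re a)‖ ^ 2 = ‖a‖ ^ 2 - re a ^ 2 := by
    rw [norm_add_sq, norm_algebraMap'', star_algebraMap, sq_abs, ← Algebra.commutes,
      ← Algebra.smul_def, re_smul]
    ring
  have h2 : 0 ≤ ‖a‖ ^ 2 - re a ^ 2 := h ▸ sq_nonneg _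
  exact abs_le_of_sq_le_sq (by linarith) (norm_nonneg a)

lemma re_le_norm (a : 𝕜) : re a ≤ ‖a‖ := (le_abs_self _).trans (abs_re_le a)

/-- if the real part is the norm, the element is real -/
lemma eq_of_re_eq_norm {a : 𝕜} (h : re a = ‖a‖) : a = algebraMap ℝ 𝕜 ‖a‖ := by
  have h1 : ‖a + algebraMap ℝ 𝕜 (-re a)‖ ^ 2 = ‖a‖ ^ 2 - re a ^ 2 := by
    rw [norm_add_sq, norm_algebraMap'', star_algebraMap, sq_abs, ← Algebra.commutes,
      ← Algebra.smul_def, re_smul]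
    ring
  rw [h, sub_self] at h1
  have h2 : a + algebraMap ℝ 𝕜 (-‖a‖) = 0 := by
    have := pow_eq_zero_iff (two_ne_zero) |>.1 h1
    exact norm_eq_zero.1 this
  rw [map_neg, ← sub_eq_add_neg, sub_eq_zero] at h2
  exact h2

/-- a unit scalar which rotates `a` to its norm -/
lemma exists_unit_re (a : 𝕜) : ∃ q : 𝕜, ‖q‖ = 1 ∧ re (q * a) = ‖a‖ ∧ q * a = algebraMap ℝ 𝕜 ‖a‖ := by
  by_cases ha : a = 0
  · exact ⟨1, norm_one, by simp [ha], by simp [ha]⟩
  · have h0 : ‖a‖ ≠ 0 := norm_ne_zero_iff.2 ha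
    refine ⟨(‖a‖⁻¹ : ℝ) • star a, ?_, ?_, ?_⟩
    · rw [norm_smul, norm_star', norm_inv, norm_norm, inv_mul_cancel₀ h0]
    · rw [smul_mul_assoc, star_mul_self, re_smul, re_algebraMap, sq, inv_mul_cancel_left₀ h0]
    · rw [smul_mul_assoc, star_mul_self, Algebra.smul_def, ← map_mul, sq, inv_mul_cancel_left₀ h0]

end

end Pool.Agent.H48.FR
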