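import Pool.Agent.H48.FR.Kur
import Pool.Agent.H48.FR.Met
import Pool.Agent.H48.FR.Ins

/-!
Targets for MP_6a7a6f_gt (filling radius of complex and quaternionic projective spaces).
Board fir_modules. The definitions of the Kuratowski map, of the filling radius, of the scalars
`PF` (complex numbers and quaternions) and of the metric space `PP 𝕜 n` are in `Kur`, `Sca`, `Ins`,
`Met`, together with their elementary properties.
-/

namespace Pool.Agent.H48.FR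

noncomputable section

open Filter Topology

/-! ## Part I: the contraction in an abstract setting -/

/-- the average of the upper and of the lower envelope of the atoms `m j` at the heights `h j` -/
def th {M J : Type} [MetricSpace M] (m : J → M) (h : J → ℝ) (z : M) : ℝ :=
  ((⨆ j, (dist (m j) z - h j)) + ⨅ j, (dist (m j) z + h j)) / 2

/-- TH. Elementary properties of `th`: continuity, distance to the Kuratowski image,
change of the index set. -/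
def T_TH : Prop :=
  (∀ (M J : Type) [MetricSpace M] (D δ : ℝ) (m m' : J → M) (h h' : J → ℝ) (j₀ j₀' : J),
    (∀ x y : M, dist x y ≤ D) → 0 ≤ δ → (∀ j, 0 ≤ h j) → (∀ j, 0 ≤ h' j) →
    h j₀ = 0 → h' j₀' = 0 →
    (∀ j, dist (m j) (m' j) + |h j - h' j| ≤ δ ∨ (D ≤ h j ∧ D ≤ h' j)) →
      ∀ z, |th m h z - th m' h' z| ≤ δ) ∧
  (∀ (M J : Type) [MetricSpace M] (D r : ℝ) (m : J → M) (h : J → ℝ) (j₀ : J),
    (∀ x y : M, dist x y ≤ D) → 0 ≤ r → (∀ j, 0 ≤ h j) → h j₀ = 0 →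
    (∀ j, dist (m j) (m j₀) ≤ h j + r) →
      ∀ z, |th m h z - dist (m j₀) z| ≤ r / 2) ∧
  (∀ (M J J' : Type) [MetricSpace M] (m : J → M) (h : J → ℝ) (m' : J' → M) (h' : J' → ℝ),
    (∀ j, ∃ j', m j = m' j' ∧ h j = h' j') → (∀ j', ∃ j, m' j' = m j ∧ h' j' = h j) →
      th m h = th m' h')

/-- HO. From a homotopy on a compact space over `M` to a null-homotopy of the Kuratowski map. -/
def T_HO : Prop :=
  ∀ (M S : Type) [MetricSpace M] [CompactSpace M] [TopologicalSpace S] [CompactSpace S]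
    (π : S → M) (p : M) (a ε : ℝ) (hε : 0 < ε) (Θ : S → ℝ → M → ℝ),
    Continuous π → Function.Surjective π → a < ε →
    (∀ X z, Θ X 0 z = dist (π X) z) → (∀ X z, Θ X 1 z = dist p z) →
    (∀ X X', π X = π X' → Θ X = Θ X') →
    (∀ X, ∀ t ∈ Set.Icc (0 : ℝ) 1, ∃ m, ∀ z, |Θ X t z - dist m z| ≤ a) →
    (∀ X, ∀ t ∈ Set.Icc (0 : ℝ) 1, ∀ δ > 0, ∀ᶠ Z : S × ℝ in 𝓝 (X, t), Z.2 ∈ Set.Icc (0 : ℝ) 1 →
      ∀ z, |Θ Z.1 Z.2 z - Θ X t z| ≤ δ) →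
      (kurU M ε hε).Nullhomotopic

/-- `q` is a point of maximum of `f` -/
def IsMx {Q : Type} (f : Q → ℝ) (q : Q) : Prop := ∀ a, f a ≤ f q

/-- the data of the abstract contraction: a compact space `S` over `M`, a base point `p`, over each
point `X` a ring `y X q` of points near `p`, and a function `F X s` on the ring which selects
a small part of it -/
structure Dat (M S Q : Type) [MetricSpace M] [TopologicalSpace S] [TopologicalSpace Q] where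
  π : S → M
  p : M
  y : S → Q → M
  F : S → ℝ → Q → ℝ
  σ : ℝ → ℝ
  r : ℝ
  hπ : Continuous π
  surj : Function.Surjective π
  hσ : Continuous σ
  σ_mem : ∀ ρ, σ ρ ∈ Set.Icc (0 : ℝ) 1
  r_pos : 0 < r
  hy : ContinuousOn (fun Z : S × Q => y Z.1 Z.2) {Z | π Z.1 ≠ p}
  hF : ContinuousOn (fun Z : S × ℝ × Q => F Z.1 Z.2.1 Z.2.2) {Z | π Z.1 ≠ p}
  inv : ∀ X X', π X = π X' → ∀ q, ∃ q', y X q = y X' q' ∧ ∀ s, F X s q = F X' s q'
  dist_p : ∀ X q, π X ≠ p → dist p (y X q) ≤ r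
  pair : ∀ X, π X ≠ p → ∀ s ∈ Set.Icc (σ (dist p (π X))) 1, ∀ q q',
    IsMx (F X s) q → IsMx (F X s) q' → dist (y X q) (y X q') < r
  near : ∀ X, π X ≠ p → ∀ q, IsMx (F X (σ (dist p (π X)))) q → dist (π X) (y X q) < r

/-- CP. Compactness: the conditions `pair` and `near` in a quantitative form. -/
def T_CP : Prop :=
  ∀ (M S Q : Type) [MetricSpace M] [CompactSpace M] [TopologicalSpace S] [CompactSpace S]
    [TopologicalSpace Q] [CompactSpace Q] (Δ : Dat M S Q) (ρ₀ : ℝ), 0 < ρ₀ →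
    ∃ K : ℝ, 0 ≤ K ∧ ∀ X, ρ₀ ≤ dist Δ.p (Δ.π X) →
      (∀ q₀ q, IsMx (Δ.F X (Δ.σ (dist Δ.p (Δ.π X)))) q₀ →
        dist (Δ.π X) (Δ.y X q) ≤ Δ.r + K * (Δ.F X (Δ.σ (dist Δ.p (Δ.π X))) q₀ -
          Δ.F X (Δ.σ (dist Δ.p (Δ.π X))) q)) ∧
      (∀ s ∈ Set.Icc (Δ.σ (dist Δ.p (Δ.π X))) 1, ∀ q₀ q, IsMx (Δ.F X s) q₀ →
        dist (Δ.y X q) (Δ.y X q₀) ≤ Δ.r + K * (Δ.F X s q₀ - Δ.F X s q))

/-- AB. The abstract contraction. -/
def T_AB : Prop :=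
  ∀ (M S Q : Type) [MetricSpace M] [CompactSpace M] [TopologicalSpace S] [CompactSpace S]
    [TopologicalSpace Q] [CompactSpace Q] [Nonempty Q] (Δ : Dat M S Q) (ε : ℝ) (hε : 0 < ε),
    Δ.r / 2 < ε → (kurU M ε hε).Nullhomotopic

/-! ## Part II: the sphere over the projective space -/

section

variable (𝕜 : Type) [NormedDivisionRing 𝕜] [StarRing 𝕜] [NormedAlgebra ℝ 𝕜] [PF 𝕜]

/-- the unit sphere of `𝕜^(n+1)` -/
abbrev Sph (n : ℕ) : Type := {x : Fin (n + 1) → 𝕜 // nrm x = 1}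

/-- the unit scalars -/
abbrev Usc : Type := {q : 𝕜 // ‖q‖ = 1}

end

section

variable {𝕜 : Type} [NormedDivisionRing 𝕜] [StarRing 𝕜] [NormedAlgebra ℝ 𝕜] [PF 𝕜] {n : ℕ}

omit [StarRing 𝕜] [NormedAlgebra ℝ 𝕜] [PF 𝕜] in
lemma sph_ne (x : Sph 𝕜 n) : x.1 ≠ 0 := by
  intro h
  have h1 := x.2
  have h2 : nrm (0 : Fin (n + 1) → 𝕜) = 0 := by simp [nrm]
  rw [h, h2] at h1
  exact zero_ne_one h1

/-- the line through a point of the sphere -/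
def prS (x : Sph 𝕜 n) : PP 𝕜 n := PP.mk x.1 (sph_ne x)

/-- the base point `[1 : 0 : ... : 0]` -/
def bp (𝕜 : Type) [NormedDivisionRing 𝕜] (n : ℕ) : PP 𝕜 n :=
  PP.mk (Pi.single 0 1) (by
    intro h
    have := congrFun h 0
    rw [Pi.single_eq_same] at this
    exact one_ne_zero this)

/-- the last `n` coordinates -/
def tl (x : Fin (n + 1) → 𝕜) : Fin n → 𝕜 := fun i => x i.succ

/-- the last `n` coordinates, normalised -/
def vv (x : Fin (n + 1) → 𝕜) : Fin n → 𝕜 := fun i => rs (nrm (tl x))⁻¹ * tl x i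

/-- the point `[cos ρ : sin ρ q v]` as a vector -/
def yv (ρ : ℝ) (x : Fin (n + 1) → 𝕜) (q : 𝕜) : Fin (n + 1) → 𝕜 :=
  Fin.cons (rs (Real.cos ρ)) (fun i => rs (Real.sin ρ) * (q * vv x i))

/-- the function which selects a part of the ring -/
def FF (x : Fin (n + 1) → 𝕜) (s : ℝ) (q : 𝕜) : ℝ :=
  (1 - s) * re (q * x 0) + s * ∑ j : Fin n, re ((q * vv x j) ^ (2 * (j : ℕ) + 3))

end

/-- SP. The sphere and the unit scalars are compact, the projection is continuous and onto. -/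
def T_SP : Prop :=
  ∀ (𝕜 : Type) [NormedDivisionRing 𝕜] [StarRing 𝕜] [NormedAlgebra ℝ 𝕜] [PF 𝕜] (n : ℕ),
    CompactSpace (Sph 𝕜 n) ∧ CompactSpace (Usc 𝕜) ∧ Continuous (prS : Sph 𝕜 n → PP 𝕜 n) ∧
      Function.Surjective (prS : Sph 𝕜 n → PP 𝕜 n)

/-- DS. The distances between the points which occur. -/
def T_DS : Prop :=
  ∀ (𝕜 : Type) [NormedDivisionRing 𝕜] [StarRing 𝕜] [NormedAlgebra ℝ 𝕜] [PF 𝕜] (n : ℕ)
    (ρ : ℝ) (x : Sph 𝕜 n), 0 ≤ ρ → ρ ≤ Real.pi / 2 →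
      (Real.cos (dist (bp 𝕜 n) (prS x)) = ‖x.1 0‖ ∧
        Real.sin (dist (bp 𝕜 n) (prS x)) = nrm (tl x.1) ∧
        (prS x ≠ bp 𝕜 n → tl x.1 ≠ 0)) ∧
      ∀ (_ : tl x.1 ≠ 0) (q q' : 𝕜), ‖q‖ = 1 → ‖q'‖ = 1 →
        ∃ (hy : yv ρ x.1 q ≠ 0) (hy' : yv ρ x.1 q' ≠ 0),
          dist (bp 𝕜 n) (PP.mk _ hy) = ρ ∧
          Real.cos (2 * dist (PP.mk _ hy) (PP.mk _ hy')) =
            Real.cos (2 * ρ) ^ 2 + Real.sin (2 * ρ) ^ 2 * re (q * star q') ∧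
          Real.cos (dist (prS x) (PP.mk _ hy)) ^ 2 =
            (‖x.1 0‖ * Real.cos ρ) ^ 2 + (nrm (tl x.1) * Real.sin ρ) ^ 2 +
              2 * Real.cos ρ * Real.sin ρ * nrm (tl x.1) * re (q * x.1 0)

/-! ## Part III: trigonometric polynomials on great circles of unit scalars -/

/-- the homogeneous polynomial of degree `N` in `cos θ` and `sin θ` with the coefficients `c` -/
def tp (N : ℕ) (c : ℕ → ℝ) (θ : ℝ) : ℝ :=
  ∑ k ∈ Finset.range (N + 1), c k * (Real.cos θ ^ (N - k) * Real.sin θ ^ k)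

/-- RZ. (after M. Riesz) The distance between a point of maximum and a point of minimum. -/
def T_RZ : Prop :=
  ∀ (N : ℕ) (c : ℕ → ℝ) (M γ : ℝ), 1 ≤ N → 0 < M → (∀ θ, |tp N c θ| ≤ M) → tp N c 0 = M →
    0 < γ → γ < Real.pi / N → tp N c γ ≠ -M

/-- WC. Powers of linear forms in `cos θ` and `sin θ`. -/
def T_WC : Prop :=
  ∀ (𝕜 : Type) [NormedDivisionRing 𝕜] [StarRing 𝕜] [NormedAlgebra ℝ 𝕜] [PF 𝕜] (A B : 𝕜)
    (m i : ℕ), ∃ c : ℕ → ℝ, ∀ θ : ℝ,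
      re ((rs (Real.cos θ) * A + rs (Real.sin θ) * B) ^ m) = tp (m + 2 * i) c θ

/-- NV. A trigonometric polynomial with a nonzero top coefficient does not vanish. -/
def T_NV : Prop :=
  ∀ (m : ℕ) (C : ℝ) (c : ℕ → ℝ),
    (∀ θ : ℝ, C * Real.cos ((m + 2 : ℕ) * θ) + tp m c θ = 0) → C = 0

/-- MX. The function `FF x s` takes a positive value. -/
def T_MX : Prop :=
  ∀ (𝕜 : Type) [NormedDivisionRing 𝕜] [StarRing 𝕜] [NormedAlgebra ℝ 𝕜] [PF 𝕜] (n : ℕ)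
    (x : Fin (n + 1) → 𝕜) (s : ℝ), tl x ≠ 0 → 0 ≤ s → s ≤ 1 → (s = 0 → x 0 ≠ 0) →
      ∃ q : 𝕜, ‖q‖ = 1 ∧ 0 < FF x s q

/-- FA. Two points of maximum of `FF x s` are not almost antipodal. -/
def T_FA : Prop :=
  ∀ (𝕜 : Type) [NormedDivisionRing 𝕜] [StarRing 𝕜] [NormedAlgebra ℝ 𝕜] [PF 𝕜] (n : ℕ)
    (x : Fin (n + 1) → 𝕜) (s : ℝ) (q q' : 𝕜), 1 ≤ n → ‖q‖ = 1 → ‖q'‖ = 1 →
    (∀ a : 𝕜, ‖a‖ = 1 → FF x s a ≤ FF x s q) → (∀ a : 𝕜, ‖a‖ = 1 → FF x s a ≤ FF x s q') →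
    0 < FF x s q → -Real.cos (Real.pi / (2 * n + 1)) ≤ re (q * star q')

/-! ## Part IV: the conclusion -/

/-- the upper bound for the filling radius of the projective spaces of dimension `n` -/
def rad (n : ℕ) : ℝ :=
  Real.arccos (-(Real.cos (Real.pi / (2 * n + 1)) / (1 + Real.cos (Real.pi / (2 * n + 1))))) / 4

/-- PA. Choice of the parameters. -/
def T_PA : Prop :=
  (∀ n : ℕ, 1 ≤ n → rad n < Real.pi / 6 ∧ 0 < rad n) ∧
  ∀ (n : ℕ) (r : ℝ), 1 ≤ n → 2 * rad n < r → r < Real.pi / 2 →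
    ∃ ρ₁ ρ₂ : ℝ, Real.pi / 4 < ρ₁ ∧ ρ₁ < r ∧ 0 < ρ₂ ∧ Real.pi - r - ρ₁ < ρ₂ ∧
      ρ₂ < Real.pi / 2 ∧
      Real.cos (2 * r) < Real.cos (2 * ρ₁) ^ 2 -
        Real.cos (Real.pi / (2 * n + 1)) * Real.sin (2 * ρ₁) ^ 2

/-- CO. The contraction for the projective spaces. -/
def T_CO : Prop :=
  ∀ (𝕜 : Type) [NormedDivisionRing 𝕜] [StarRing 𝕜] [NormedAlgebra ℝ 𝕜] [PF 𝕜] (n : ℕ) (r : ℝ),
    1 ≤ n → 2 * rad n < r → r < Real.pi / 2 → ∃ Δ : Dat (PP 𝕜 n) (Sph 𝕜 n) (Usc 𝕜), Δ.r = r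

/-- FI. The Kuratowski map of the projective space is null-homotopic in the neighbourhood of
radius `ε` of its image, for each `ε > rad n`. -/
def T_FI : Prop :=
  ∀ (𝕜 : Type) [NormedDivisionRing 𝕜] [StarRing 𝕜] [NormedAlgebra ℝ 𝕜] [PF 𝕜] (n : ℕ) (ε : ℝ)
    (hε : 0 < ε), 1 ≤ n → rad n < ε → (kurU (PP 𝕜 n) ε hε).Nullhomotopic

end

end Pool.Agent.H48.FR
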